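import Pool.Agent.H387R2.U3
import Pool.Agent.H307R2.OP.DefsB

set_option autoImplicit false

/-!
# Primes in residue classes: lower bounds
-/

namespace Pool.Agent.Q41.PT

open Finset Filter Topology
open Pool.Agent.H307R2.OP (PB)

lemma pi_tend : Tendsto (fun x : ℕ => H343E.pi1 x * Real.log x / x) atTop (𝓝 1) := by
  have h := Pool.Agent.Helper507.PNT.pi_tendsto.comp (tendsto_natCast_atTop_atTop (R := ℝ))
  refine h.congr fun x => ?_
  simp only [Function.comp, Nat.floor_natCast]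
  rw [Pool.Agent.H387R2.Uni.pi1_eq]

lemma log_tend : Tendsto (fun x : ℕ => Real.log (x : ℝ)) atTop atTop :=
  Real.tendsto_log_atTop.comp tendsto_natCast_atTop_atTop

/-- a lower bound for the number of primes in a residue class, uniform in the class -/
lemma ap_close (Q : ℕ) (hQ : 1 ≤ Q) (ε : ℝ) (hε : 0 < ε) : ∃ x0 : ℕ, ∀ x : ℕ, x0 ≤ x → ∀ a : ℕ,
    a < Q → a.Coprime Q →
    |H343E.piAP x Q a * Real.log x / x - 1 / (Nat.totient Q : ℝ)| ≤ ε := by
  obtain ⟨x0, h⟩ := Pool.Agent.H387R2.Uni.siegel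
  have hφ : (1 : ℝ) ≤ (Nat.totient Q : ℝ) := by
    exact_mod_cast Nat.totient_pos.2 hQ
  have hinv : Tendsto (fun x : ℕ => (Real.log (x : ℝ))⁻¹) atTop (𝓝 0) :=
    tendsto_inv_atTop_zero.comp log_tend
  have h1 := (Metric.tendsto_atTop.1 pi_tend) (ε / 2) (by linarith)
  have h2 := (Metric.tendsto_atTop.1 hinv) (ε / 2) (by linarith)
  obtain ⟨n1, hn1⟩ := h1
  obtain ⟨n2, hn2⟩ := h2
  obtain ⟨n3, hn3⟩ := eventually_atTop.1 (log_tend.eventually_ge_atTop ((Q : ℝ) + 1))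
  refine ⟨max (max x0 1) (max n1 (max n2 n3)), fun x hx a ha hac => ?_⟩
  have g0 : x0 ≤ x := (le_max_left _ _).trans ((le_max_left _ _).trans hx)
  have g1 : 1 ≤ x := (le_max_right _ _).trans ((le_max_left _ _).trans hx)
  have g2 : n1 ≤ x := (le_max_left _ _).trans ((le_max_right _ _).trans hx)
  have g3 : n2 ≤ x := (le_max_left _ _).trans ((le_max_right _ _).trans ((le_max_right _ _).trans hx))
  have g4 : n3 ≤ x := (le_max_right _ _).trans ((le_max_right _ _).trans ((le_max_right _ _).trans hx))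
  have hlog := hn3 x g4
  have hQ0 : (1 : ℝ) ≤ Q := by exact_mod_cast hQ
  have hL : 2 ≤ Real.log (x : ℝ) := by linarith
  have hx0 : (0 : ℝ) < x := by exact_mod_cast g1
  have h8 := h x g0 Q hQ (by nlinarith) a ha hac
  have k1 := hn1 x g2
  have k2 := hn2 x g3
  rw [Real.dist_eq] at k1 k2
  rw [sub_zero, abs_of_pos (by positivity)] at k2
  have e : H343E.piAP x Q a * Real.log x / x - 1 / (Nat.totient Q : ℝ) =
      (H343E.piAP x Q a - H343E.pi1 x / (Nat.totient Q : ℝ)) * (Real.log x / x) +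
      (H343E.pi1 x * Real.log x / x - 1) * (1 / (Nat.totient Q : ℝ)) := by ring
  rw [e]
  refine (abs_add_le _ _).trans ?_
  rw [abs_mul, abs_mul, abs_of_pos (show 0 < Real.log x / (x : ℝ) by positivity),
    abs_of_pos (show 0 < 1 / (Nat.totient Q : ℝ) by positivity)]
  have b1 : |H343E.piAP x Q a - H343E.pi1 x / (Nat.totient Q : ℝ)| * (Real.log x / x) ≤ ε / 2 := by
    calc |H343E.piAP x Q a - H343E.pi1 x / (Nat.totient Q : ℝ)| * (Real.log x / x)
        ≤ (x / Real.log x ^ 6) * (Real.log x / x) := mul_le_mul_of_nonneg_right h8 (by positivity)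
      _ = 1 / Real.log x ^ 5 := by field_simp
      _ ≤ 1 / Real.log x ^ 1 := by
          apply one_div_le_one_div_of_le (by positivity)
          exact pow_le_pow_right₀ (by linarith) (by norm_num)
      _ = (Real.log x)⁻¹ := by rw [pow_one, one_div]
      _ ≤ ε / 2 := k2.le
  have b2 : |H343E.pi1 x * Real.log x / x - 1| * (1 / (Nat.totient Q : ℝ)) ≤ ε / 2 := by
    have : 1 / (Nat.totient Q : ℝ) ≤ 1 := by
      rw [div_le_one (by linarith)]
      exact hφ
    nlinarith [abs_nonneg (H343E.pi1 x * Real.log x / x - 1), k1]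
  linarith

/-- a lower bound for the number of primes in a residue class, uniform in the class -/
lemma ap_low (Q : ℕ) (hQ : 1 ≤ Q) : ∃ x0 : ℕ, ∀ x : ℕ, x0 ≤ x → ∀ a : ℕ, a < Q → a.Coprime Q →
    (x : ℝ) / (2 * Nat.totient Q * Real.log x) ≤ H343E.piAP x Q a := by
  have hφ : (1 : ℝ) ≤ (Nat.totient Q : ℝ) := by
    exact_mod_cast Nat.totient_pos.2 hQ
  obtain ⟨x0, h⟩ := ap_close Q hQ (1 / (2 * Nat.totient Q)) (by positivity)
  refine ⟨max x0 3, fun x hx a ha hac => ?_⟩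
  have h1 := h x ((le_max_left _ _).trans hx) a ha hac
  have hx3 : 3 ≤ x := (le_max_right _ _).trans hx
  have hx0 : (0 : ℝ) < x := by exact_mod_cast (by omega : 0 < x)
  have hL : 0 < Real.log (x : ℝ) := Real.log_pos (by exact_mod_cast (by omega : 1 < x))
  have h2 := (abs_le.1 h1).1
  have h3 : 1 / (2 * (Nat.totient Q : ℝ)) ≤ H343E.piAP x Q a * Real.log x / x := by
    have e : 1 / (Nat.totient Q : ℝ) = 2 * (1 / (2 * (Nat.totient Q : ℝ))) := by
      field_simp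
    rw [e] at h2
    linarith
  rw [le_div_iff₀ hx0] at h3
  rw [div_le_iff₀ (by positivity)]
  have h4 : (x : ℝ) = 1 / (2 * (Nat.totient Q : ℝ)) * x * (2 * Nat.totient Q) := by
    field_simp
  calc (x : ℝ) = 1 / (2 * (Nat.totient Q : ℝ)) * x * (2 * Nat.totient Q) := h4
    _ ≤ H343E.piAP x Q a * Real.log x * (2 * Nat.totient Q) :=
        mul_le_mul_of_nonneg_right h3 (by positivity)
    _ = H343E.piAP x Q a * (2 * Nat.totient Q * Real.log x) := by ring

lemma piAP_eight (x c : ℕ) (hc : c < 8) :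
    H343E.piAP x 8 c = (((Icc 1 x).filter (fun p => p.Prime ∧ p % 8 = c)).card : ℝ) := by
  unfold H343E.piAP
  congr 2
  ext p
  simp only [mem_filter, Nat.ModEq, Nat.mod_eq_of_lt hc]

lemma card_PB (i c : ℕ) (hc : c < 8) :
    ((PB i c).card : ℝ) = H343E.piAP (2 ^ (i + 1)) 8 c - H343E.piAP (2 ^ i) 8 c := by
  have hle : 2 ^ i ≤ 2 ^ (i + 1) := Nat.pow_le_pow_right (by norm_num) (by omega)
  have hdisj : Disjoint ((Icc 1 (2 ^ i)).filter (fun p => p.Prime ∧ p % 8 = c)) (PB i c) := by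
    rw [Finset.disjoint_left]
    intro p hp hp'
    have h1 := (mem_Icc.1 (mem_filter.1 hp).1).2
    have h2 := (mem_Ioc.1 (mem_filter.1 hp').1).1
    omega
  have hun : (Icc 1 (2 ^ (i + 1))).filter (fun p => p.Prime ∧ p % 8 = c) =
      (Icc 1 (2 ^ i)).filter (fun p => p.Prime ∧ p % 8 = c) ∪ PB i c := by
    ext p
    simp only [PB, mem_union, mem_filter, mem_Icc, mem_Ioc]
    constructor
    · rintro ⟨⟨h1, h2⟩, h3⟩
      rcases le_or_gt p (2 ^ i) with h | h
      · exact Or.inl ⟨⟨h1, h⟩, h3⟩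
      · exact Or.inr ⟨⟨h, h2⟩, h3⟩
    · rintro (⟨⟨h1, h2⟩, h3⟩ | ⟨⟨h1, h2⟩, h3⟩)
      · exact ⟨⟨h1, h2.trans hle⟩, h3⟩
      · exact ⟨⟨by omega, h2⟩, h3⟩
  rw [piAP_eight _ _ hc, piAP_eight _ _ hc, hun, card_union_of_disjoint hdisj]
  push_cast
  ring

/-- the mass of the primes of a class modulo 8 in a dyadic block -/
lemma mass_low : ∃ i0 : ℕ, 1 ≤ i0 ∧ ∀ i : ℕ, i0 ≤ i → ∀ c : ℕ, c = 3 ∨ c = 5 →
    1 / (32 * (i : ℝ)) ≤ ∑ p ∈ PB i c, (1 : ℝ) / p := by
  have htot : (Nat.totient 8 : ℝ) = 4 := by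
    have : Nat.totient 8 = 4 := by decide
    rw [this]; norm_num
  obtain ⟨x0, h⟩ := ap_close 8 (by norm_num) (1 / 100) (by norm_num)
  refine ⟨max x0 30, (by omega), fun i hi c hc => ?_⟩
  have hc8 : c < 8 := by rcases hc with rfl | rfl <;> norm_num
  have hcop : c.Coprime 8 := by rcases hc with rfl | rfl <;> decide
  have hi0 : x0 ≤ i := (le_max_left _ _).trans hi
  have hi30 : 30 ≤ i := (le_max_right _ _).trans hi
  have hi2 : i < 2 ^ i := Nat.lt_two_pow_self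
  have hi3 : 2 ^ i ≤ 2 ^ (i + 1) := Nat.pow_le_pow_right (by norm_num) (by omega)
  have h1 := h (2 ^ i) (by omega) c hc8 hcop
  have h2 := h (2 ^ (i + 1)) (by omega) c hc8 hcop
  rw [htot] at h1 h2
  have l1 : Real.log (((2 ^ i : ℕ)) : ℝ) = i * Real.log 2 := by
    push_cast
    rw [Real.log_pow]
  have l2 : Real.log (((2 ^ (i + 1) : ℕ)) : ℝ) = (i + 1) * Real.log 2 := by
    push_cast
    rw [Real.log_pow]
    push_cast
    ring
  rw [l1] at h1
  rw [l2] at h2
  have hiR : (30 : ℝ) ≤ i := by exact_mod_cast hi30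
  have hl2 := Real.log_two_lt_d9
  have hl2' := Real.log_two_gt_d9
  have hP : (0 : ℝ) < 2 ^ i := by positivity
  -- bounds for the two counts
  have u1 : H343E.piAP (2 ^ i) 8 c * (i * Real.log 2) ≤ 26 / 100 * 2 ^ i := by
    have := (abs_le.1 h1).2
    have h3 : H343E.piAP (2 ^ i) 8 c * (i * Real.log 2) / ((2 ^ i : ℕ) : ℝ) ≤ 26 / 100 := by
      linarith
    rw [div_le_iff₀ (by positivity)] at h3
    push_cast at h3
    exact h3
  have u2 : 24 / 100 * (2 * 2 ^ i) ≤ H343E.piAP (2 ^ (i + 1)) 8 c * ((i + 1) * Real.log 2) := by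
    have := (abs_le.1 h2).1
    have h3 : 24 / 100 ≤ H343E.piAP (2 ^ (i + 1)) 8 c * ((i + 1) * Real.log 2) /
        ((2 ^ (i + 1) : ℕ) : ℝ) := by linarith
    rw [le_div_iff₀ (by positivity)] at h3
    push_cast at h3
    rw [pow_succ (2 : ℝ) i] at h3
    linarith
  have hpos1 : 0 ≤ H343E.piAP (2 ^ i) 8 c := by unfold H343E.piAP; positivity
  have hpos2 : 0 ≤ H343E.piAP (2 ^ (i + 1)) 8 c := by unfold H343E.piAP; positivity
  have hcard : (2 : ℝ) ^ i / (16 * i) ≤ ((PB i c).card : ℝ) := by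
    rw [card_PB _ _ hc8, div_le_iff₀ (by positivity)]
    have hil : 0 < (i : ℝ) * Real.log 2 := by positivity
    -- multiply by `i log 2`
    have v2 : 24 / 100 * (2 * 2 ^ i) * i ≤
        H343E.piAP (2 ^ (i + 1)) 8 c * (i * Real.log 2) * (i + 1) := by
      have := mul_le_mul_of_nonneg_right u2 (show (0 : ℝ) ≤ i by linarith)
      linarith
    have v3 : 24 / 100 * (2 * 2 ^ i) * (30 / 31) ≤
        H343E.piAP (2 ^ (i + 1)) 8 c * (i * Real.log 2) := by
      by_contra hcon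
      push Not at hcon
      have h5 := mul_lt_mul_of_pos_right hcon (show (0 : ℝ) < i + 1 by linarith)
      have h6 : (30 : ℝ) / 31 * (i + 1) ≤ i := by linarith
      have h7 : 24 / 100 * (2 * (2 : ℝ) ^ i) * (30 / 31 * (i + 1)) ≤ 24 / 100 * (2 * 2 ^ i) * i :=
        mul_le_mul_of_nonneg_left h6 (by positivity)
      linarith
    have v4 : 0.2 * (2 : ℝ) ^ i ≤
        (H343E.piAP (2 ^ (i + 1)) 8 c - H343E.piAP (2 ^ i) 8 c) * (i * Real.log 2) := by
      rw [sub_mul]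
      linarith
    have v5 : (H343E.piAP (2 ^ (i + 1)) 8 c - H343E.piAP (2 ^ i) 8 c) * (i * Real.log 2) ≤
        (H343E.piAP (2 ^ (i + 1)) 8 c - H343E.piAP (2 ^ i) 8 c) * (i * 1) := by
      apply mul_le_mul_of_nonneg_left
      · apply mul_le_mul_of_nonneg_left (by linarith) (by linarith)
      · rw [← card_PB _ _ hc8]; positivity
    linarith
  have hsum : ((PB i c).card : ℝ) * (1 / 2 ^ (i + 1)) ≤ ∑ p ∈ PB i c, (1 : ℝ) / p := by
    rw [← nsmul_eq_mul]
    apply Finset.card_nsmul_le_sum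
    intro p hp
    have hp' := mem_Ioc.1 (mem_filter.1 hp).1
    have h0 : 0 < 2 ^ i := by positivity
    apply one_div_le_one_div_of_le
    · exact_mod_cast (by omega : 0 < p)
    · exact_mod_cast hp'.2
  refine le_trans ?_ hsum
  calc 1 / (32 * (i : ℝ)) = (2 : ℝ) ^ i / (16 * i) * (1 / 2 ^ (i + 1)) := by
        rw [pow_succ]; field_simp; norm_num
    _ ≤ _ := mul_le_mul_of_nonneg_right hcard (by positivity)

/-- the primes of a class modulo 8 in a union of dyadic blocks -/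
def RB (a b c : ℕ) : Finset ℕ := (Ioc (2 ^ a) (2 ^ b)).filter (fun p => p.Prime ∧ p % 8 = c)

lemma mem_RB {a b c p : ℕ} : p ∈ RB a b c ↔ (2 ^ a < p ∧ p ≤ 2 ^ b) ∧ p.Prime ∧ p % 8 = c := by
  unfold RB
  rw [mem_filter, mem_Ioc]

lemma sum_RB_succ (a b c : ℕ) (h : a ≤ b) : ∑ p ∈ RB a (b + 1) c, (1 : ℝ) / p =
    ∑ p ∈ RB a b c, (1 : ℝ) / p + ∑ p ∈ PB b c, (1 : ℝ) / p := by
  have h1 : 2 ^ a ≤ 2 ^ b := Nat.pow_le_pow_right (by norm_num) h
  have h2 : 2 ^ b ≤ 2 ^ (b + 1) := Nat.pow_le_pow_right (by norm_num) (by omega)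
  rw [← Finset.sum_union]
  · apply Finset.sum_congr _ fun _ _ => rfl
    ext p
    rw [mem_union, mem_RB, mem_RB]
    simp only [PB, mem_filter, mem_Ioc]
    constructor
    · rintro ⟨⟨h3, h4⟩, h5⟩
      rcases le_or_gt p (2 ^ b) with h | h
      · exact Or.inl ⟨⟨h3, h⟩, h5⟩
      · exact Or.inr ⟨⟨h, h4⟩, h5⟩
    · rintro (⟨⟨h3, h4⟩, h5⟩ | ⟨⟨h3, h4⟩, h5⟩)
      · exact ⟨⟨h3, by omega⟩, h5⟩
      · exact ⟨⟨by omega, h4⟩, h5⟩
  · rw [Finset.disjoint_left]
    intro p hp hp'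
    have h3 := (mem_RB.1 hp).1.2
    have h4 := (mem_Ioc.1 (mem_filter.1 hp').1).1
    omega

lemma log_succ_le (b : ℕ) (hb : 1 ≤ b) : Real.log (b + 1 : ℝ) - Real.log b ≤ 1 / (b : ℝ) := by
  have hb0 : (0 : ℝ) < b := by exact_mod_cast hb
  rw [← Real.log_div (by positivity) (by positivity)]
  have := Real.log_le_sub_one_of_pos (show (0 : ℝ) < (b + 1 : ℝ) / b by positivity)
  refine this.trans (le_of_eq ?_)
  field_simp
  ring

/-- the mass of the primes of a class modulo 8 in `(2 ^ a, 2 ^ b]` -/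
lemma sum_RB_low : ∃ i0 : ℕ, 1 ≤ i0 ∧ ∀ a b : ℕ, i0 ≤ a → a ≤ b → ∀ c : ℕ, c = 3 ∨ c = 5 →
    (Real.log b - Real.log a) / 32 ≤ ∑ p ∈ RB a b c, (1 : ℝ) / p := by
  obtain ⟨i0, hi0, h⟩ := mass_low
  refine ⟨i0, hi0, fun a b ha hab c hc => ?_⟩
  induction b, hab using Nat.le_induction with
  | base =>
    rw [sub_self, zero_div]
    exact Finset.sum_nonneg fun _ _ => by positivity
  | succ b hab ih =>
    rw [sum_RB_succ a b c hab]
    have h1 := h b (by omega) c hc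
    have h2 := log_succ_le b (by omega)
    have e : 1 / (32 * (b : ℝ)) = (1 / (b : ℝ)) / 32 := by rw [div_div, mul_comm]
    rw [e] at h1
    push_cast
    linarith

end Pool.Agent.Q41.PT
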