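import Pool.Agent.Q41.PT.Core
import Pool.Agent.H413R3.Part.Pt
import Pool.Agent.H397R2.PP.TH

set_option autoImplicit false

/-!
# From the coefficients of powers of the discriminant to linear patterns of multipartition numbers
-/

namespace Pool.Agent.Q41.PT

open PowerSeries Pool.Agent.H397R2.PP Pool.Agent.H397R2.PP.TH Filter Topology
open Pool.Agent.H307R2.OP (S)
open Pool.Agent.H413R3.Part (mp coeff_pow_eq)

/-- the generating function of the partitions modulo 2 -/
noncomputable def F1 : S := PowerSeries.mk fun n => (Fintype.card (Nat.Partition n) : ZMod 2)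

/-- its inverse -/
noncomputable def f1 : S := pentagonalSeries (ZMod 2)

lemma F1_mul_f1 : F1 * f1 = 1 := mk_card_mul_pentagonalSeries (ZMod 2)

lemma coeff_F1_pow (t n : ℕ) : coeff n (F1 ^ t) = (mp t n : ZMod 2) := coeff_pow_eq t n

lemma coeff_D (m n : ℕ) : coeff (8 * n + m) (Db ^ m) = coeff n (f1 ^ (3 * m)) := by
  have h1 : Db ^ m = X ^ m * PowerSeries.expand 8 (by norm_num) (f1 ^ (3 * m)) := by
    rw [← pow_eq_expand' 8 3 (by norm_num) (by norm_num), Db, mul_pow, ← pow_mul, ← pow_mul]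
    congr 2
    ring
  rw [h1, coeff_X_pow_mul, coeff_expand_mul]

lemma F1_pow_mul (t m N : ℕ) (h : 3 * m + t = N) : F1 ^ t * f1 ^ N = f1 ^ (3 * m) := by
  rw [← h, pow_add, mul_comm (f1 ^ (3 * m)), ← mul_assoc, ← mul_pow, F1_mul_f1, one_pow, one_mul]

/-- the exponents of the multiplier -/
lemma supp_sq (a : ℕ) (ha : a = 1 ∨ a = 3) (n : ℕ) (h : coeff n (f1 ^ a) ≠ 0) :
    ∃ u : ℕ, u ^ 2 = (24 / a) * n + 1 := by
  classical
  rcases ha with rfl | rfl
  · rw [pow_one, f1, pent_eq, coeff_ind] at h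
    have h1 : isPent n := by
      by_contra hn
      rw [if_neg hn] at h
      exact h rfl
    obtain ⟨j, rfl⟩ := h1
    refine ⟨(6 * j - 1).natAbs, ?_⟩
    have h4 := pent_sq j
    have : (((6 * j - 1).natAbs ^ 2 : ℕ) : ℤ) = ((24 / 1 * pentagonal j + 1 : ℕ) : ℤ) := by
      push_cast
      rw [sq_abs, ← h4]
    exact_mod_cast this
  · rw [f1, pent_eq, ← psi_eq, coeff_ind] at h
    have h1 : isTri n := by
      by_contra hn
      rw [if_neg hn] at h
      exact h rfl
    obtain ⟨i, hi⟩ := h1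
    refine ⟨2 * i + 1, ?_⟩
    have e : (24 / 3 : ℕ) = 8 := by norm_num
    rw [e]
    nlinarith

lemma card_supp (a : ℕ) (ha : a = 1 ∨ a = 3) (Y : ℕ) :
    ((Finset.range (Y + 1)).filter (fun n => coeff n (f1 ^ a) ≠ 0)).card ≤
      Nat.sqrt (24 * Y + 1) + 1 := by
  rw [← Finset.card_range (Nat.sqrt (24 * Y + 1) + 1)]
  apply Finset.card_le_card_of_injOn (fun n => Nat.sqrt ((24 / a) * n + 1))
  · intro n hn
    rw [Finset.mem_coe, Finset.mem_filter, Finset.mem_range] at hn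
    rw [Finset.mem_coe, Finset.mem_range]
    have h1 : (24 / a) * n + 1 ≤ 24 * Y + 1 := by
      have h2 : 24 / a ≤ 24 := Nat.div_le_self 24 a
      have h3 : n ≤ Y := by omega
      have := Nat.mul_le_mul h2 h3
      omega
    have := Nat.sqrt_le_sqrt h1
    simp only
    omega
  · intro n hn n' hn' h
    rw [Finset.mem_coe, Finset.mem_filter] at hn hn'
    obtain ⟨u, hu⟩ := supp_sq a ha n hn.2
    obtain ⟨u', hu'⟩ := supp_sq a ha n' hn'.2
    simp only at h
    rw [← hu, ← hu', Nat.sqrt_eq', Nat.sqrt_eq'] at h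
    rw [h, hu'] at hu
    have h0 : 0 < 24 / a := by rcases ha with rfl | rfl <;> norm_num
    have h1 : (24 / a) * n' = (24 / a) * n := by omega
    exact (Nat.eq_of_mul_eq_mul_left h0 h1).symm

/-- the linear pattern -/
def pat (𝒯 : Finset ℕ) (L : ℕ) (c : ℕ → ℕ → ZMod 2) (n : ℕ) : ZMod 2 :=
  ∑ t ∈ 𝒯, ∑ i ∈ Finset.range (L + 1), c t i * (mp t (n + i) : ZMod 2)

/-- the generating function of the pattern, shifted by `L` -/
noncomputable def Pat (𝒯 : Finset ℕ) (L : ℕ) (c : ℕ → ℕ → ZMod 2) : S :=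
  ∑ t ∈ 𝒯, ∑ i ∈ Finset.range (L + 1), C (c t i) * (X ^ (L - i) * F1 ^ t)

lemma coeff_shift (L i n : ℕ) (hi : i ≤ L) (φ : S) : coeff (n + L) (X ^ (L - i) * φ) =
    coeff (n + i) φ := by
  have h : n + L = n + i + (L - i) := by omega
  rw [h, coeff_X_pow_mul]

lemma coeff_Pat (𝒯 : Finset ℕ) (L : ℕ) (c : ℕ → ℕ → ZMod 2) (n : ℕ) :
    coeff (n + L) (Pat 𝒯 L c) = pat 𝒯 L c n := by
  unfold Pat pat
  rw [map_sum]
  refine Finset.sum_congr rfl fun t _ => ?_
  rw [map_sum]
  refine Finset.sum_congr rfl fun i hi => ?_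
  rw [Finset.mem_range] at hi
  rw [coeff_C_mul, coeff_shift L i n (by omega), coeff_F1_pow]

section transfer

variable {𝒯 : Finset ℕ} {L : ℕ} {c : ℕ → ℕ → ZMod 2} {a e : ℕ} {k : ℕ → ℕ}

lemma coeff_Pat_mul (hk : ∀ t ∈ 𝒯, 3 * k t + t = a * 2 ^ e) (n : ℕ) :
    coeff (n + L) (Pat 𝒯 L c * f1 ^ (a * 2 ^ e)) =
      ∑ t ∈ 𝒯, ∑ i ∈ Finset.range (L + 1), c t i * coeff (8 * (n + i) + k t) (Db ^ k t) := by
  unfold Pat
  rw [Finset.sum_mul, map_sum]
  refine Finset.sum_congr rfl fun t ht => ?_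
  rw [Finset.sum_mul, map_sum]
  refine Finset.sum_congr rfl fun i hi => ?_
  rw [Finset.mem_range] at hi
  rw [mul_assoc, coeff_C_mul, mul_assoc, F1_pow_mul t (k t) _ (hk t ht),
    coeff_shift L i n (by omega), coeff_D]

/-- the pairs of the pattern -/
def prs (𝒯 : Finset ℕ) (L : ℕ) (c : ℕ → ℕ → ZMod 2) (k : ℕ → ℕ) : Finset (ℕ × ℕ) :=
  ((𝒯 ×ˢ Finset.range (L + 1)).filter fun x => c x.1 x.2 ≠ 0).image fun x => (k x.1 / 2, x.2)

lemma zmod_cases (z : ZMod 2) : z = 0 ∨ z = 1 := by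
  revert z
  decide

lemma Hs_prs (hk : ∀ t ∈ 𝒯, 3 * k t + t = a * 2 ^ e) (hodd : ∀ t ∈ 𝒯, k t % 2 = 1) (n : ℕ) :
    Hs (prs 𝒯 L c k) n = coeff (n + L) (Pat 𝒯 L c * f1 ^ (a * 2 ^ e)) := by
  rw [coeff_Pat_mul hk]
  unfold Hs prs
  rw [Finset.sum_image, Finset.sum_filter, Finset.sum_product]
  · refine Finset.sum_congr rfl fun t ht => Finset.sum_congr rfl fun i _ => ?_
    have h1 : 2 * (k t / 2) + 1 = k t := by
      have := hodd t ht
      omega
    simp only
    rw [h1]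
    rcases zmod_cases (c t i) with h | h
    · rw [h, if_neg (by simp), zero_mul]
    · rw [h, if_pos one_ne_zero, one_mul]
  · rintro ⟨t, i⟩ hx ⟨t', i'⟩ hx' h
    rw [Finset.mem_coe, Finset.mem_filter, Finset.mem_product] at hx hx'
    simp only [Prod.mk.injEq] at h
    have h1 := hk t hx.1.1
    have h2 := hk t' hx'.1.1
    have h3 := hodd t hx.1.1
    have h4 := hodd t' hx'.1.1
    have h5 : k t = k t' := by omega
    have h6 : t = t' := by omega
    rw [h6, h.2]

/-- the elements with pattern one come from the numbers with an odd coefficient -/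
lemma exists_pair {n : ℕ} (h : coeff (n + L) (Pat 𝒯 L c * f1 ^ (a * 2 ^ e)) = 1) :
    ∃ u v : ℕ, u + 2 ^ e * v = n + L ∧ coeff u (Pat 𝒯 L c) ≠ 0 ∧ coeff v (f1 ^ a) ≠ 0 := by
  have hM : (2 ^ e : ℕ) ≠ 0 := by positivity
  rw [pow_mul f1 a (2 ^ e), pow_eq_expand' (2 ^ e) e hM rfl, coeff_mul] at h
  have hne : (∑ p ∈ Finset.HasAntidiagonal.antidiagonal (n + L), coeff p.1 (Pat 𝒯 L c) *
      coeff p.2 (PowerSeries.expand (2 ^ e) hM (f1 ^ a))) ≠ 0 := by
    rw [h]
    exact one_ne_zero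
  obtain ⟨⟨u, w⟩, hp, hne2⟩ := Finset.exists_ne_zero_of_sum_ne_zero hne
  rw [Finset.HasAntidiagonal.mem_antidiagonal] at hp
  simp only at hp hne2
  have h1 := left_ne_zero_of_mul hne2
  have h2 := right_ne_zero_of_mul hne2
  rw [coeff_expand] at h2
  split_ifs at h2 with hd
  · obtain ⟨v, rfl⟩ := hd
    rw [Nat.mul_div_cancel_left _ (Nat.pos_of_ne_zero hM)] at h2
    exact ⟨u, v, hp, h1, h2⟩
  · exact absurd rfl h2

/-- the numbers up to `x` in a class modulo a power of two with pattern one -/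
def good (𝒯 : Finset ℕ) (L : ℕ) (c : ℕ → ℕ → ZMod 2) (b ρ : ℕ) (κ : ZMod 2) (x : ℕ) : Finset ℕ :=
  (Finset.range (x + 1)).filter fun n => n % 2 ^ b = ρ % 2 ^ b ∧ pat 𝒯 L c n = κ

/-- the comparison of the counts -/
lemma card_le (ha : a = 1 ∨ a = 3) (hk : ∀ t ∈ 𝒯, 3 * k t + t = a * 2 ^ e)
    (hodd : ∀ t ∈ 𝒯, k t % 2 = 1) {b ρ x : ℕ} (hb : b ≤ e) (T : Finset ℕ)
    (hT : ∀ n ∈ T, n ≤ x ∧ n % 2 ^ b = ρ % 2 ^ b ∧ Hs (prs 𝒯 L c k) n = 1) :
    T.card ≤ ((good 𝒯 L c b ρ 1 x).card + L) * (Nat.sqrt (24 * (x + L) + 1) + 1) := by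
  classical
  have hch : ∀ n : ℕ, ∃ p : ℕ × ℕ, n ∈ T → p.1 + 2 ^ e * p.2 = n + L ∧
      coeff p.1 (Pat 𝒯 L c) ≠ 0 ∧ coeff p.2 (f1 ^ a) ≠ 0 := by
    intro n
    by_cases hn : n ∈ T
    · have h1 := (hT n hn).2.2
      rw [Hs_prs hk hodd] at h1
      obtain ⟨u, v, h2, h3, h4⟩ := exists_pair h1
      exact ⟨(u, v), fun _ => ⟨h2, h3, h4⟩⟩
    · exact ⟨(0, 0), fun h => absurd h hn⟩
  choose g hg using hch
  set U : Finset ℕ := Finset.range L ∪ (good 𝒯 L c b ρ 1 x).image (· + L) with hU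
  set V : Finset ℕ := (Finset.range (x + L + 1)).filter fun n => coeff n (f1 ^ a) ≠ 0 with hV
  have hUc : U.card ≤ (good 𝒯 L c b ρ 1 x).card + L := by
    refine (Finset.card_union_le _ _).trans ?_
    rw [Finset.card_range, add_comm]
    exact Nat.add_le_add_right Finset.card_image_le _
  have hVc : V.card ≤ Nat.sqrt (24 * (x + L) + 1) + 1 := card_supp a ha (x + L)
  calc T.card ≤ (U ×ˢ V).card := by
        apply Finset.card_le_card_of_injOn g
        · intro n hn
          have hn' : n ∈ T := hn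
          obtain ⟨h1, h2, h3⟩ := hg n hn'
          obtain ⟨h4, h5, -⟩ := hT n hn'
          rw [Finset.mem_coe, Finset.mem_product]
          constructor
          · rw [hU, Finset.mem_union]
            rcases lt_or_ge (g n).1 L with h | h
            · exact Or.inl (Finset.mem_range.2 h)
            · right
              rw [Finset.mem_image]
              obtain ⟨m, hm⟩ : ∃ m, (g n).1 = m + L := ⟨(g n).1 - L, by omega⟩
              refine ⟨m, ?_, hm.symm⟩
              unfold good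
              rw [Finset.mem_filter, Finset.mem_range]
              have h6 : m + 2 ^ e * (g n).2 = n := by omega
              refine ⟨by
                have : 0 ≤ 2 ^ e * (g n).2 := Nat.zero_le _
                omega, ?_, ?_⟩
              · rw [← h5, ← h6]
                obtain ⟨d, hd⟩ : (2 ^ b : ℕ) ∣ 2 ^ e := pow_dvd_pow 2 hb
                rw [hd, mul_assoc, Nat.add_mul_mod_self_left]
              · rw [← coeff_Pat, ← hm]
                rcases zmod_cases (coeff (g n).1 (Pat 𝒯 L c)) with h7 | h7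
                · exact absurd h7 h2
                · exact h7
          · rw [hV, Finset.mem_filter, Finset.mem_range]
            refine ⟨?_, h3⟩
            have h7 : (g n).2 ≤ 2 ^ e * (g n).2 := Nat.le_mul_of_pos_left _ (by positivity)
            omega
        · intro n hn n' hn' h
          have h1 := (hg n hn).1
          have h2 := (hg n' hn').1
          rw [h] at h1
          omega
    _ = U.card * V.card := Finset.card_product _ _
    _ ≤ _ := Nat.mul_le_mul hUc hVc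

end transfer

end Pool.Agent.Q41.PT
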