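import Pool.Agent.H307R2.OP.AlgMain

set_option autoImplicit false

/-!
# Coefficients of polynomials in the discriminant modulo 2 at products of primes
-/

namespace Pool.Agent.Q41.PT

open PowerSeries Pool.Agent.H397R2.PP Pool.Agent.H307R2.OP

/-- the Hecke algebra maps a series of exact content `c` to the discriminant, by a word in `T_3`
and `T_5` -/
theorem exists_word (c : ℕ) : ∀ G : S, G ∈ NIL.WW (c + 1) → G ∉ NIL.WW c →
    ∃ e : List ℕ, e.length = c ∧ (∀ a ∈ e, a = 3 ∨ a = 5) ∧ (e.map TO).prod G = Db := by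
  induction c with
  | zero =>
    intro G h1 h0
    refine ⟨[], rfl, by simp, ?_⟩
    rw [List.map_nil, List.prod_nil, Module.End.one_apply]
    have h5 : NIL.WW 1 ≤ Submodule.span (ZMod 2) {Db} := by
      apply Submodule.span_mono
      rintro φ ⟨j, hj, rfl⟩
      have : j = 0 := NIL.cont_eq_zero (by omega)
      subst this
      simp
    have h6 := h5 h1
    rw [Submodule.mem_span_singleton] at h6
    obtain ⟨a, ha⟩ := h6
    have ha0 : a = 0 ∨ a = 1 := by
      clear ha
      revert a
      decide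
    rcases ha0 with rfl | rfl
    · exfalso
      apply h0
      rw [← ha, zero_smul]
      exact Submodule.zero_mem _
    · rw [← ha, one_smul]
  | succ c ih =>
    intro G h1 h0
    have hFF : G ∈ FF := FQaux.WW_le_FF _ h1
    have hex : ∃ a, (a = 3 ∨ a = 5) ∧ TO a G ∉ NIL.WW c ∧ TO a G ∈ NIL.WW (c + 1) := by
      by_contra hcon
      push Not at hcon
      have hf3 : Fil (-1) (TO 3) := (fq_main.q3 3 (by norm_num) (by norm_num)).1
      have hf5 : Fil (-1) (TO 5) := (fq_main.q5 5 (by norm_num) (by norm_num)).1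
      have m3 : TO 3 G ∈ NIL.WW (c + 1) := by
        have := hf3 _ _ h1
        have e : (((c + 1 + 1 : ℕ) : ℤ) + -1).toNat = c + 1 := by omega
        rwa [e] at this
      have m5 : TO 5 G ∈ NIL.WW (c + 1) := by
        have := hf5 _ _ h1
        have e : (((c + 1 + 1 : ℕ) : ℤ) + -1).toNat = c + 1 := by omega
        rwa [e] at this
      apply h0
      apply ji_main c G hFF
      · by_contra h
        exact hcon 3 (Or.inl rfl) h m3
      · by_contra h
        exact hcon 5 (Or.inr rfl) h m5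
    obtain ⟨a, ha, ha0, ha1⟩ := hex
    obtain ⟨e, he1, he2, he3⟩ := ih _ ha1 ha0
    refine ⟨e ++ [a], by simp [he1], ?_, ?_⟩
    · intro b hb
      rcases List.mem_append.1 hb with h | h
      · exact he2 b h
      · rw [List.mem_singleton] at h
        rw [h]; exact ha
    · rw [List.map_append, List.prod_append, Module.End.mul_apply]
      simpa using he3

/-- the coefficients at products of distinct primes of given classes modulo 8 are odd -/
theorem coeff_word (c : ℕ) (G : S) (h1 : G ∈ NIL.WW (c + 1)) (h0 : G ∉ NIL.WW c) :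
    ∃ e : List ℕ, e.length = c ∧ (∀ a ∈ e, a = 3 ∨ a = 5) ∧
      ∀ l : List ℕ, l.Nodup → (∀ q ∈ l, q.Prime) → l.map (· % 8) = e → coeff l.prod G = 1 := by
  obtain ⟨e, he1, he2, he3⟩ := exists_word c G h1 h0
  refine ⟨e, he1, he2, fun l hnd hpr hl => ?_⟩
  have hpr' : ∀ q ∈ l, q.Prime ∧ (q % 8 = 3 ∨ q % 8 = 5) := by
    intro q hq
    refine ⟨hpr q hq, he2 _ ?_⟩
    rw [← hl]
    exact List.mem_map.2 ⟨q, hq, rfl⟩
  have hlen : l.length = c := by rw [← he1, ← hl, List.length_map]
  have hd := OC.fil_diff fq_main l hpr' (c + 1) G h1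
  have e0 : (((c + 1 : ℕ) : ℤ) + (-(l.length : ℤ) - 1)).toNat = 0 := by rw [hlen]; omega
  rw [e0] at hd
  have hz := OC.WW_zero hd
  have hmap : (l.map fun q => TO (OC.rp q)) = e.map TO := by
    rw [← hl, List.map_map]
    apply List.map_congr_left
    intro q hq
    rw [Function.comp_apply]
    congr 1
    unfold OC.rp
    rcases (hpr' q hq).2 with h | h <;> simp [h]
  rw [hmap, LinearMap.add_apply, he3] at hz
  have hz' : (l.map TO).prod G = Db := by
    have h2 := OC.add_self Db
    calc (l.map TO).prod G = (l.map TO).prod G + (Db + Db) := by rw [h2, add_zero]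
      _ = ((l.map TO).prod G + Db) + Db := by rw [add_assoc]
      _ = Db := by rw [hz, zero_add]
  have h3 := OC.coeff_list l hnd hpr 1 (fun q hq h => by
    have := (hpr q hq).one_lt
    have := Nat.le_of_dvd one_pos h
    omega) G
  rw [hz', OC.coeff_one_Db', one_mul] at h3
  exact h3.symm

/-- the coefficients at the numbers exactly divisible by `c` distinct primes `≡ 3 (mod 8)` vanish -/
theorem coeff_vanish (c : ℕ) (G : S) (h1 : G ∈ NIL.WW c) (l : List ℕ) (hnd : l.Nodup)
    (hl : ∀ q ∈ l, q.Prime ∧ q % 8 = 3) (hlen : l.length = c) (n : ℕ) (hn : ∀ q ∈ l, ¬ q ∣ n) :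
    coeff (n * l.prod) G = 0 := by
  rw [← OC.coeff_list l hnd (fun q hq => (hl q hq).1) n hn G]
  have h := OC.fil_prod fq_main l (fun q hq => ⟨(hl q hq).1, Or.inl (hl q hq).2⟩) c G h1
  have e0 : ((c : ℤ) + -(l.length : ℤ)).toNat = 0 := by rw [hlen]; omega
  rw [e0] at h
  rw [OC.WW_zero h, map_zero]

/-! ### contents of sums of odd powers -/

theorem coeff_Db_pow_self (k : ℕ) : coeff k (Db ^ k) = 1 := by
  rw [Db, mul_pow, coeff_X_pow_mul', if_pos le_rfl, Nat.sub_self,
    coeff_zero_eq_constantCoeff_apply, map_pow, map_pow]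
  have : constantCoeff (pentagonalSeries (ZMod 2)) = 1 := JI.cc_pent
  rw [this, one_pow, one_pow]

theorem coeff_Db_pow_lt (k n : ℕ) (h : n < k) : coeff n (Db ^ k) = 0 := by
  rw [Db, mul_pow, coeff_X_pow_mul', if_neg (by omega)]

theorem linInd : LinearIndependent (ZMod 2) (fun k : ℕ => Db ^ k) := by
  rw [linearIndependent_iff']
  intro s g hg i hi
  by_contra hne
  -- the least index with a nonzero coefficient
  have hex : ∃ k, k ∈ s ∧ g k ≠ 0 := ⟨i, hi, hne⟩
  classical
  obtain ⟨hk1, hk2⟩ := Nat.find_spec hex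
  have hmin := fun j (hj : j < Nat.find hex) => Nat.find_min hex hj
  set k := Nat.find hex
  have h1 : coeff k (∑ j ∈ s, g j • Db ^ j) = 0 := by rw [hg, map_zero]
  rw [map_sum, Finset.sum_eq_single k] at h1
  · rw [map_smul, coeff_Db_pow_self, smul_eq_mul, mul_one] at h1
    exact hk2 h1
  · intro j hj hjk
    rw [map_smul]
    rcases lt_or_gt_of_ne hjk with h | h
    · have := hmin j h
      push Not at this
      rw [this hj, zero_smul]
    · rw [coeff_Db_pow_lt _ _ h, smul_zero]
  · intro h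
    exact absurd hk1 h

theorem WW_eq (c : ℕ) : NIL.WW c =
    Submodule.span (ZMod 2) ((fun k : ℕ => Db ^ k) '' {k | ∃ j, cont j < c ∧ k = 2 * j + 1}) := by
  unfold NIL.WW
  congr 1
  ext φ
  constructor
  · rintro ⟨j, hj, rfl⟩
    exact ⟨2 * j + 1, ⟨j, hj, rfl⟩, rfl⟩
  · rintro ⟨k, ⟨j, hj, rfl⟩, rfl⟩
    exact ⟨j, hj, rfl⟩

/-- a sum of distinct odd powers is in `WW c` only if all of them are -/
theorem mem_WW_sum (c : ℕ) (J : Finset ℕ) (h : ∑ j ∈ J, Db ^ (2 * j + 1) ∈ NIL.WW c) :
    ∀ j ∈ J, cont j < c := by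
  intro j hj
  rw [WW_eq, Finsupp.mem_span_image_iff_linearCombination] at h
  obtain ⟨f, hf, hf2⟩ := h
  have h2 : Finsupp.linearCombination (ZMod 2) (fun k : ℕ => Db ^ k)
      (∑ j ∈ J, Finsupp.single (2 * j + 1) (1 : ZMod 2)) = ∑ j ∈ J, Db ^ (2 * j + 1) := by
    rw [map_sum]
    refine Finset.sum_congr rfl fun j _ => ?_
    rw [Finsupp.linearCombination_single, one_smul]
  have h3 : f = ∑ j ∈ J, Finsupp.single (2 * j + 1) (1 : ZMod 2) :=
    linInd (hf2.trans h2.symm)
  have h4 : f (2 * j + 1) = 1 := by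
    rw [h3, Finsupp.finsetSum_apply, Finset.sum_eq_single j]
    · rw [Finsupp.single_eq_same]
    · intro i _ hij
      rw [Finsupp.single_apply, if_neg (by omega)]
    · intro h
      exact absurd hj h
  have h5 : 2 * j + 1 ∈ f.support := by
    rw [Finsupp.mem_support_iff, h4]
    exact one_ne_zero
  rw [Finsupp.mem_supported] at hf
  obtain ⟨i, hi, hij⟩ := hf h5
  have : j = i := by omega
  rw [this]
  exact hi

/-- a nonempty sum of distinct odd powers has an exact content, at least that of every summand -/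
theorem exists_content (J : Finset ℕ) (hJ : J.Nonempty) :
    ∃ c, (∀ j ∈ J, cont j ≤ c) ∧ (∃ j ∈ J, cont j = c) ∧
      ∑ j ∈ J, Db ^ (2 * j + 1) ∈ NIL.WW (c + 1) ∧ ∑ j ∈ J, Db ^ (2 * j + 1) ∉ NIL.WW c := by
  obtain ⟨j0, hj0, hmax⟩ := J.exists_max_image cont hJ
  refine ⟨cont j0, hmax, ⟨j0, hj0, rfl⟩, ?_, ?_⟩
  · apply Submodule.sum_mem
    intro j hj
    apply NIL.WW_mem
    have := hmax j hj
    omega
  · intro h
    have := mem_WW_sum _ J h j0 hj0
    omega

theorem cont_ge (n : ℕ) : n < 4 ^ (cont n) := by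
  induction n using Nat.strong_induction_on with
  | _ n ih =>
    obtain ⟨m, d, hd, rfl⟩ := NIL.split4 n
    by_cases h0 : m = 0
    · subst h0
      by_cases hd0 : d = 0
      · subst hd0
        simp
      · rw [NIL.cont_digit _ _ hd, NIL.cont_zero]
        have hw : 1 ≤ wdig d := by
          unfold wdig
          split_ifs <;> omega
        calc 4 * 0 + d < 4 ^ 1 := by omega
          _ ≤ 4 ^ (wdig d + 2 * 0) := Nat.pow_le_pow_right (by norm_num) (by omega)
    · have h1 := ih m (by omega)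
      rw [NIL.cont_digit _ _ hd]
      have hc : 1 ≤ cont m := by
        rcases Nat.eq_zero_or_pos (cont m) with h | h
        · exact absurd (NIL.cont_eq_zero h) h0
        · exact h
      calc 4 * m + d < 4 ^ (cont m + 1) := by rw [pow_succ]; omega
        _ ≤ 4 ^ (wdig d + 2 * cont m) := Nat.pow_le_pow_right (by norm_num) (by omega)

end Pool.Agent.Q41.PT
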