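import Pool.Agent.Q41.PT.Primes

set_option autoImplicit false

/-!
# Products of primes of given classes in a progression
-/

namespace Pool.Agent.Q41.PT

open Finset Filter Topology

variable {c : ℕ}

/-- the choices of the small primes -/
def Fam (e : Fin c → ℕ) (y : ℕ) : Finset (Fin c → ℕ) :=
  Fintype.piFinset fun i => RB (y ^ ((i : ℕ) + 1)) (y ^ ((i : ℕ) + 2)) (e i)

lemma mem_Fam {e : Fin c → ℕ} {y : ℕ} {q : Fin c → ℕ} : q ∈ Fam e y ↔
    ∀ i : Fin c, (2 ^ (y ^ ((i : ℕ) + 1)) < q i ∧ q i ≤ 2 ^ (y ^ ((i : ℕ) + 2))) ∧ (q i).Prime ∧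
      q i % 8 = e i := by
  unfold Fam
  rw [Fintype.mem_piFinset]
  exact forall_congr' fun i => mem_RB

lemma range_eq {y : ℕ} (hy : 1 ≤ y) {i j : ℕ} {q : ℕ} (h1 : 2 ^ (y ^ (i + 1)) < q)
    (h2 : q ≤ 2 ^ (y ^ (i + 2))) (h3 : 2 ^ (y ^ (j + 1)) < q) (h4 : q ≤ 2 ^ (y ^ (j + 2))) :
    i = j := by
  have a1 : y ^ (i + 1) < y ^ (j + 2) := (Nat.pow_lt_pow_iff_right (by norm_num)).1 (h1.trans_le h4)
  have a2 : y ^ (j + 1) < y ^ (i + 2) := (Nat.pow_lt_pow_iff_right (by norm_num)).1 (h3.trans_le h2)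
  have b1 : i + 1 < j + 2 := by
    by_contra h
    exact absurd (Nat.pow_le_pow_right hy (not_lt.1 h)) (not_le.2 a1)
  have b2 : j + 1 < i + 2 := by
    by_contra h
    exact absurd (Nat.pow_le_pow_right hy (not_lt.1 h)) (not_le.2 a2)
  omega

lemma Fam_inj {e : Fin c → ℕ} {y : ℕ} (hy : 1 ≤ y) {q : Fin c → ℕ} (hq : q ∈ Fam e y) :
    Function.Injective q := by
  intro i j hij
  rw [mem_Fam] at hq
  obtain ⟨⟨h1, h2⟩, -⟩ := hq i
  obtain ⟨⟨h3, h4⟩, -⟩ := hq j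
  rw [← hij] at h3 h4
  exact Fin.ext (range_eq hy h1 h2 h3 h4)

lemma Fam_le {e : Fin c → ℕ} {y : ℕ} (hy : 1 ≤ y) {q : Fin c → ℕ} (hq : q ∈ Fam e y) (i : Fin c) :
    q i ≤ 2 ^ (y ^ (c + 1)) := by
  rw [mem_Fam] at hq
  refine (hq i).1.2.trans ?_
  apply Nat.pow_le_pow_right (by norm_num)
  apply Nat.pow_le_pow_right hy
  have := i.2
  omega

lemma prod_le {e : Fin c → ℕ} {y : ℕ} (hy : 1 ≤ y) {q : Fin c → ℕ} (hq : q ∈ Fam e y) :
    ∏ i, q i ≤ 2 ^ (c * y ^ (c + 1)) := by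
  calc ∏ i, q i ≤ ∏ _i : Fin c, 2 ^ (y ^ (c + 1)) := Finset.prod_le_prod' fun i _ => Fam_le hy hq i
    _ = 2 ^ (c * y ^ (c + 1)) := by
        rw [Finset.prod_const, Finset.card_univ, Fintype.card_fin, ← pow_mul, mul_comm]

lemma prod_pos' {e : Fin c → ℕ} {y : ℕ} {q : Fin c → ℕ} (hq : q ∈ Fam e y) :
    0 < ∏ i, q i := by
  rw [mem_Fam] at hq
  exact Finset.prod_pos fun i _ => (hq i).2.1.pos

/-- the residue class of the last prime -/
lemma exists_class (Q A P : ℕ) (hQ : 1 ≤ Q) (hA : A.Coprime Q) (hP : P.Coprime Q) :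
    ∃ a, a < Q ∧ a.Coprime Q ∧ (P * a) % Q = A % Q := by
  haveI : NeZero Q := ⟨by omega⟩
  have hu : IsUnit (P : ZMod Q) := (ZMod.isUnit_iff_coprime P Q).2 hP
  have hA' : IsUnit (A : ZMod Q) := (ZMod.isUnit_iff_coprime A Q).2 hA
  obtain ⟨u, hu'⟩ := hu
  obtain ⟨v, hv'⟩ := hA'
  refine ⟨((u⁻¹ * v : (ZMod Q)ˣ) : ZMod Q).val, ZMod.val_lt _, ?_, ?_⟩
  · rw [← ZMod.isUnit_iff_coprime, ZMod.natCast_zmod_val]
    exact (u⁻¹ * v).isUnit
  · have h1 : ((P * ((u⁻¹ * v : (ZMod Q)ˣ) : ZMod Q).val : ℕ) : ZMod Q) = (A : ZMod Q) := by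
      push_cast
      rw [ZMod.natCast_zmod_val, ← hu', ← hv']
      push_cast
      rw [← mul_assoc, Units.mul_inv, one_mul]
    exact (ZMod.natCast_eq_natCast_iff' _ _ _).1 h1

open Classical in
/-- the class of the last prime -/
noncomputable def cls (Q A P : ℕ) : ℕ :=
  if h : ∃ a, a < Q ∧ a.Coprime Q ∧ (P * a) % Q = A % Q then h.choose else 0

lemma cls_spec (Q A P : ℕ) (hQ : 1 ≤ Q) (hA : A.Coprime Q) (hP : P.Coprime Q) :
    cls Q A P < Q ∧ (cls Q A P).Coprime Q ∧ (P * cls Q A P) % Q = A % Q := by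
  have h := exists_class Q A P hQ hA hP
  unfold cls
  rw [dif_pos h]
  exact h.choose_spec

open Classical in
/-- the choices of the last prime -/
noncomputable def Last (Q A y x : ℕ) (c : ℕ) (P : ℕ) : Finset ℕ :=
  (Ioc (2 ^ (y ^ (c + 1))) (x / P)).filter fun p => p.Prime ∧ p ≡ cls Q A P [MOD Q]

/-- the set of the tuples -/
noncomputable def Tup (e : Fin c → ℕ) (Q A y x : ℕ) : Finset (Σ _ : Fin c → ℕ, ℕ) :=
  (Fam e y).sigma fun q => Last Q A y x c (∏ i, q i)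

lemma mem_Tup {e : Fin c → ℕ} {Q A y x : ℕ} {t : Σ _ : Fin c → ℕ, ℕ} :
    t ∈ Tup e Q A y x ↔ t.1 ∈ Fam e y ∧ (2 ^ (y ^ (c + 1)) < t.2 ∧ t.2 ≤ x / ∏ i, t.1 i) ∧
      t.2.Prime ∧ t.2 ≡ cls Q A (∏ i, t.1 i) [MOD Q] := by
  unfold Tup Last
  rw [Finset.mem_sigma, mem_filter, mem_Ioc]

lemma Tup_injOn (e : Fin c → ℕ) (Q A y x : ℕ) (hy : 1 ≤ y) :
    Set.InjOn (fun t : Σ _ : Fin c → ℕ, ℕ => (∏ i, t.1 i) * t.2) (Tup e Q A y x) := by
  -- divisibility determines the small primes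
  have key : ∀ t t' : Σ _ : Fin c → ℕ, ℕ, t ∈ Tup e Q A y x → t' ∈ Tup e Q A y x →
      (∏ i, t.1 i) * t.2 = (∏ i, t'.1 i) * t'.2 → t.1 = t'.1 := by
    intro t t' ht ht' h
    rw [mem_Tup] at ht ht'
    funext i
    have hi := (mem_Fam.1 ht.1) i
    have hd : t.1 i ∣ (∏ i, t'.1 i) * t'.2 := by
      rw [← h]
      exact (Finset.dvd_prod_of_mem _ (Finset.mem_univ i)).mul_right _
    rcases (Nat.Prime.dvd_mul hi.2.1).1 hd with h1 | h1
    · obtain ⟨j, _, hj⟩ := (Prime.dvd_finsetProd_iff hi.2.1.prime _).mp h1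
      have hj' := (mem_Fam.1 ht'.1) j
      have he : t.1 i = t'.1 j := (Nat.prime_dvd_prime_iff_eq hi.2.1 hj'.2.1).mp hj
      have hij : i = j := by
        obtain ⟨⟨a1, a2⟩, -⟩ := hi
        obtain ⟨⟨a3, a4⟩, -⟩ := hj'
        rw [← he] at a3 a4
        exact Fin.ext (range_eq hy a1 a2 a3 a4)
      rw [he, hij]
    · exfalso
      have he : t.1 i = t'.2 := (Nat.prime_dvd_prime_iff_eq hi.2.1 ht'.2.2.1).mp h1
      have h2 := Fam_le hy ht.1 i
      have h3 := ht'.2.1.1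
      omega
  rintro ⟨q, p⟩ ht ⟨q', p'⟩ ht' h
  have h1 := key _ _ ht ht' h
  simp only at h1 h
  subst h1
  have h2 : p = p' := Nat.eq_of_mul_eq_mul_left (prod_pos' (mem_Tup.1 ht).1) h
  rw [h2]

lemma coprime_prod {e : Fin c → ℕ} {y Q : ℕ} (hQ : 1 ≤ Q) (hQy : Q ≤ 2 ^ y) (hy : 1 ≤ y)
    {q : Fin c → ℕ} (hq : q ∈ Fam e y) : (∏ i, q i).Coprime Q ∧ ∀ i, Q < q i := by
  have hgt : ∀ i, Q < q i := by
    intro i
    have h1 := ((mem_Fam.1 hq) i).1.1
    have h2 : y ≤ y ^ ((i : ℕ) + 1) := Nat.le_self_pow (by omega) y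
    have h3 : 2 ^ y ≤ 2 ^ (y ^ ((i : ℕ) + 1)) := Nat.pow_le_pow_right (by norm_num) h2
    omega
  refine ⟨Nat.Coprime.prod_left fun i _ => ?_, hgt⟩
  rw [Nat.Prime.coprime_iff_not_dvd ((mem_Fam.1 hq) i).2.1]
  intro h
  have := Nat.le_of_dvd hQ h
  have := hgt i
  omega

/-- lower bound for the number of choices of the last prime -/
lemma Last_low (c : ℕ) (Q : ℕ) (hQ : 1 ≤ Q) : ∃ y0 : ℕ, ∀ y : ℕ, y0 ≤ y → ∀ x : ℕ,
    2 ^ (y ^ (c + 2)) ≤ x → ∀ A : ℕ, A.Coprime Q → ∀ P : ℕ, P.Coprime Q → 0 < P →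
    P ≤ 2 ^ (c * y ^ (c + 1)) →
    (x : ℝ) / (8 * Nat.totient Q * P * Real.log x) ≤ ((Last Q A y x c P).card : ℝ) := by
  obtain ⟨x0, hx0⟩ := ap_low Q hQ
  have hφ : (1 : ℝ) ≤ (Nat.totient Q : ℝ) := by
    exact_mod_cast Nat.totient_pos.2 hQ
  -- `8 φ(Q) log x ≤ √x` for large `x`
  have hl : ∃ n1 : ℕ, ∀ x : ℕ, n1 ≤ x →
      8 * (Nat.totient Q : ℝ) * Real.log x ≤ Real.sqrt x := by
    have h1 := (isLittleO_log_rpow_atTop (show (0 : ℝ) < 1 / 2 by norm_num)).bound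
      (show (0 : ℝ) < 1 / (8 * Nat.totient Q) by positivity)
    obtain ⟨r, hr⟩ := eventually_atTop.1 h1
    refine ⟨⌈max r 1⌉₊, fun x hx => ?_⟩
    have hx1 : max r 1 ≤ (x : ℝ) := (Nat.le_ceil _).trans (by exact_mod_cast hx)
    have h2 := hr x ((le_max_left _ _).trans hx1)
    have hx2 : (1 : ℝ) ≤ x := (le_max_right _ _).trans hx1
    rw [Real.norm_of_nonneg (Real.log_nonneg hx2), Real.norm_of_nonneg (by positivity),
      ← Real.sqrt_eq_rpow] at h2
    calc 8 * (Nat.totient Q : ℝ) * Real.log x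
        ≤ 8 * (Nat.totient Q : ℝ) * (1 / (8 * Nat.totient Q) * Real.sqrt x) :=
          mul_le_mul_of_nonneg_left h2 (by positivity)
      _ = Real.sqrt x := by field_simp
  obtain ⟨n1, hn1⟩ := hl
  refine ⟨max (max x0 n1) (max (2 * (c + 1)) 4), fun y hy x hx A hA P hP hP0 hPle => ?_⟩
  have y1 : x0 ≤ y := (le_max_left _ _).trans ((le_max_left _ _).trans hy)
  have y2 : n1 ≤ y := (le_max_right _ _).trans ((le_max_left _ _).trans hy)
  have y3 : 2 * (c + 1) ≤ y := (le_max_left _ _).trans ((le_max_right _ _).trans hy)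
  have y4 : 4 ≤ y := (le_max_right _ _).trans ((le_max_right _ _).trans hy)
  set W : ℕ := y ^ (c + 1) with hW
  have hWy : y ≤ W := Nat.le_self_pow (by omega) y
  have hyx : 2 ^ W ≤ x := by
    refine le_trans (Nat.pow_le_pow_right (by norm_num) ?_) hx
    rw [pow_succ y (c + 1)]
    exact Nat.le_mul_of_pos_right _ (by omega)
  have hWx : W < 2 ^ W := Nat.lt_two_pow_self
  have hxpos : 0 < x := by omega
  have hxR : (0 : ℝ) < x := by exact_mod_cast hxpos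
  have hx16 : 2 ^ 4 ≤ x := le_trans (Nat.pow_le_pow_right (by norm_num) (by omega)) hyx
  have hL : 0 < Real.log (x : ℝ) := Real.log_pos (by exact_mod_cast (by omega : 1 < x))
  -- `(2 ^ W * P) ^ 2 ≤ x`
  have hsq : (2 ^ W * P) ^ 2 ≤ x := by
    refine le_trans ?_ hx
    calc (2 ^ W * P) ^ 2 ≤ (2 ^ W * 2 ^ (c * W)) ^ 2 :=
          Nat.pow_le_pow_left (Nat.mul_le_mul_left _ hPle) 2
      _ = 2 ^ (2 * (c + 1) * W) := by rw [← pow_add, ← pow_mul]; congr 1; ring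
      _ ≤ 2 ^ (y ^ (c + 2)) := by
          apply Nat.pow_le_pow_right (by norm_num)
          rw [pow_succ y (c + 1), mul_comm W y]
          exact Nat.mul_le_mul_right _ y3
  have hsq' : (2 : ℝ) ^ W * P ≤ Real.sqrt x := by
    apply Real.le_sqrt_of_sq_le
    exact_mod_cast hsq
  have hP0' : (1 : ℝ) ≤ P := by exact_mod_cast hP0
  have hsx : Real.sqrt x * Real.sqrt x = x := Real.mul_self_sqrt hxR.le
  have hs0 : 0 < Real.sqrt x := Real.sqrt_pos.2 hxR
  -- size of `x / P`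
  have hPx : P ≤ x := by
    have h1 : P ≤ 2 ^ W * P := Nat.le_mul_of_pos_left _ (by positivity)
    have h2 : 2 ^ W * P ≤ (2 ^ W * P) ^ 2 := Nat.le_self_pow (by norm_num) _
    omega
  have hdiv : 2 ^ W ≤ x / P := by
    rw [Nat.le_div_iff_mul_le hP0]
    exact (Nat.le_self_pow (by norm_num) _).trans hsq
  have hdivR : (x : ℝ) / (2 * P) ≤ ((x / P : ℕ) : ℝ) := by
    have h1 : x < (x / P + 1) * P := by
      have := Nat.lt_div_mul_add (a := x) hP0
      nlinarith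
    have h2 : (x : ℝ) < (((x / P : ℕ) : ℝ) + 1) * P := by exact_mod_cast h1
    have h3 : (1 : ℝ) ≤ ((x / P : ℕ) : ℝ) := by
      exact_mod_cast (by omega : 1 ≤ x / P)
    rw [div_le_iff₀ (by positivity)]
    nlinarith
  have hcls := cls_spec Q A P hQ hA hP
  have hlow := hx0 (x / P) (by omega) (cls Q A P) hcls.1 hcls.2.1
  -- removal of the primes up to `2 ^ W`
  have hcard : H343E.piAP (x / P) Q (cls Q A P) ≤ 2 ^ W + ((Last Q A y x c P).card : ℝ) := by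
    unfold H343E.piAP
    have hsub : (Icc 1 (x / P)).filter (fun p => p.Prime ∧ p ≡ cls Q A P [MOD Q]) ⊆
        Icc 1 (2 ^ W) ∪ Last Q A y x c P := by
      intro p hp
      rw [mem_filter, mem_Icc] at hp
      rw [mem_union, mem_Icc]
      rcases le_or_gt p (2 ^ W) with h | h
      · exact Or.inl ⟨hp.1.1, h⟩
      · right
        unfold Last
        rw [mem_filter, mem_Ioc]
        exact ⟨⟨h, hp.1.2⟩, hp.2⟩
    have h1 := (Finset.card_le_card hsub).trans (Finset.card_union_le _ _)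
    rw [Nat.card_Icc, Nat.add_sub_cancel] at h1
    exact_mod_cast h1
  have hdpos : (0 : ℝ) < ((x / P : ℕ) : ℝ) := by
    exact_mod_cast (by omega : 0 < x / P)
  have hlogle : Real.log ((x / P : ℕ) : ℝ) ≤ Real.log x := by
    apply Real.log_le_log hdpos
    exact_mod_cast Nat.div_le_self x P
  have hlogpos : 0 < Real.log ((x / P : ℕ) : ℝ) := by
    apply Real.log_pos
    have : 2 ^ 1 ≤ 2 ^ W := Nat.pow_le_pow_right (by norm_num) (by omega)
    exact_mod_cast (by omega : 1 < x / P)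
  have h1 : (x : ℝ) / (2 * P) / (2 * Nat.totient Q * Real.log x) ≤
      H343E.piAP (x / P) Q (cls Q A P) := by
    refine le_trans ?_ hlow
    apply div_le_div₀ hdpos.le hdivR (by positivity)
    exact mul_le_mul_of_nonneg_left hlogle (by positivity)
  have h2 : (2 : ℝ) ^ W ≤ (x : ℝ) / (8 * Nat.totient Q * P * Real.log x) := by
    rw [le_div_iff₀ (by positivity)]
    have h3 := hn1 x (by omega)
    calc (2 : ℝ) ^ W * (8 * Nat.totient Q * P * Real.log x)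
        = (2 ^ W * P) * (8 * Nat.totient Q * Real.log x) := by ring
      _ ≤ Real.sqrt x * Real.sqrt x := mul_le_mul hsq' h3 (by positivity) hs0.le
      _ = x := hsx
  have h3 : (x : ℝ) / (2 * P) / (2 * Nat.totient Q * Real.log x) =
      2 * ((x : ℝ) / (8 * Nat.totient Q * P * Real.log x)) := by
    field_simp
    norm_num
  rw [h3] at h1
  linarith

/-- **the number of the products** -/
theorem count_main (e : Fin c → ℕ) (he : ∀ i, e i = 3 ∨ e i = 5) (Q : ℕ) (hQ : 1 ≤ Q) :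
    ∃ y0 : ℕ, ∀ y : ℕ, y0 ≤ y → ∀ x : ℕ, 2 ^ (y ^ (c + 2)) ≤ x → ∀ A : ℕ, A.Coprime Q →
    ∃ T : Finset ℕ,
      (∀ N ∈ T, N ≤ x ∧ N % Q = A % Q ∧ ∃ (l : List ℕ) (p : ℕ), (l ++ [p]).Nodup ∧
        (∀ q ∈ l ++ [p], q.Prime ∧ Q < q) ∧ l.map (· % 8) = List.ofFn e ∧ N = l.prod * p) ∧
      (x : ℝ) / (8 * Nat.totient Q * Real.log x) * (Real.log y / 32) ^ c ≤ (T.card : ℝ) := by
  obtain ⟨y1, hy1⟩ := Last_low c Q hQ
  obtain ⟨i0, hi0, hmass⟩ := sum_RB_low
  refine ⟨max (max y1 i0) (max Q 4), fun y hy x hx A hA => ?_⟩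
  have g1 : y1 ≤ y := (le_max_left _ _).trans ((le_max_left _ _).trans hy)
  have g2 : i0 ≤ y := (le_max_right _ _).trans ((le_max_left _ _).trans hy)
  have g3 : Q ≤ y := (le_max_left _ _).trans ((le_max_right _ _).trans hy)
  have g4 : 4 ≤ y := (le_max_right _ _).trans ((le_max_right _ _).trans hy)
  have hyp : 1 ≤ y := by omega
  have hQy : Q ≤ 2 ^ y := g3.trans Nat.lt_two_pow_self.le
  have hyR : (0 : ℝ) < y := by exact_mod_cast hyp
  refine ⟨(Tup e Q A y x).image fun t => (∏ i, t.1 i) * t.2, ?_, ?_⟩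
  · intro N hN
    rw [mem_image] at hN
    obtain ⟨⟨q, p⟩, ht, rfl⟩ := hN
    rw [mem_Tup] at ht
    obtain ⟨hq, ⟨hp1, hp2⟩, hpp, hpc⟩ := ht
    simp only at hq hp1 hp2 hpp hpc ⊢
    obtain ⟨hcop, hgt⟩ := coprime_prod hQ hQy hyp hq
    refine ⟨?_, ?_, List.ofFn q, p, ?_, ?_, ?_, ?_⟩
    · rw [mul_comm]
      exact (Nat.le_div_iff_mul_le (prod_pos' hq)).1 hp2
    · rw [← (cls_spec Q A _ hQ hA hcop).2.2]
      exact Nat.ModEq.mul_left _ hpc
    · rw [List.nodup_append']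
      refine ⟨List.nodup_ofFn.2 (Fam_inj hyp hq), List.nodup_singleton _, ?_⟩
      intro a ha hb
      rw [List.mem_singleton] at hb
      rw [List.mem_ofFn] at ha
      obtain ⟨i, rfl⟩ := ha
      have := Fam_le hyp hq i
      omega
    · intro a ha
      rw [List.mem_append] at ha
      rcases ha with ha | ha
      · rw [List.mem_ofFn] at ha
        obtain ⟨i, rfl⟩ := ha
        exact ⟨((mem_Fam.1 hq) i).2.1, hgt i⟩
      · rw [List.mem_singleton] at ha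
        rw [ha]
        refine ⟨hpp, ?_⟩
        have h2 : y ≤ y ^ (c + 1) := Nat.le_self_pow (by omega) y
        have h3 : 2 ^ y ≤ 2 ^ (y ^ (c + 1)) := Nat.pow_le_pow_right (by norm_num) h2
        omega
    · rw [List.map_ofFn]
      congr 1
      funext i
      exact ((mem_Fam.1 hq) i).2.2
    · rw [List.prod_ofFn]
  · rw [Finset.card_image_of_injOn (Tup_injOn e Q A y x hyp)]
    unfold Tup
    rw [Finset.card_sigma]
    push_cast
    have h1 : ∀ q ∈ Fam e y, (x : ℝ) / (8 * Nat.totient Q * Real.log x) * ∏ i, (1 / (q i : ℝ)) ≤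
        ((Last Q A y x c (∏ i, q i)).card : ℝ) := by
      intro q hq
      obtain ⟨hcop, -⟩ := coprime_prod hQ hQy hyp hq
      refine le_trans (le_of_eq ?_) (hy1 y g1 x hx A hA _ hcop (prod_pos' hq) (prod_le hyp hq))
      push_cast
      rw [Finset.prod_div_distrib, Finset.prod_const_one]
      have hP : (0 : ℝ) < ∏ i, (q i : ℝ) := by
        have := prod_pos' hq
        exact_mod_cast this
      rw [div_mul_div_comm, mul_one]
      congr 1
      ring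
    refine le_trans ?_ (Finset.sum_le_sum h1)
    rw [← Finset.mul_sum]
    have hx1 : 1 ≤ x := le_trans Nat.one_le_two_pow hx
    have hlog : 0 ≤ Real.log (x : ℝ) := Real.log_nonneg (by exact_mod_cast hx1)
    apply mul_le_mul_of_nonneg_left _ (by positivity)
    unfold Fam
    rw [← Finset.prod_univ_sum (fun i : Fin c => RB (y ^ ((i : ℕ) + 1)) (y ^ ((i : ℕ) + 2)) (e i))
      (fun _ q => 1 / (q : ℝ))]
    have h2 : ∀ i : Fin c, Real.log y / 32 ≤
        ∑ q ∈ RB (y ^ ((i : ℕ) + 1)) (y ^ ((i : ℕ) + 2)) (e i), (1 : ℝ) / q := by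
      intro i
      refine le_trans (le_of_eq ?_) (hmass (y ^ ((i : ℕ) + 1)) (y ^ ((i : ℕ) + 2))
        (g2.trans (Nat.le_self_pow (by omega) y)) (Nat.pow_le_pow_right hyp (by omega)) (e i)
        (he i))
      push_cast
      rw [Real.log_pow, Real.log_pow]
      push_cast
      ring
    have h0 : 0 ≤ Real.log (y : ℝ) / 32 := by
      have : 0 ≤ Real.log (y : ℝ) := Real.log_nonneg (by exact_mod_cast hyp)
      positivity
    calc (Real.log y / 32) ^ c = ∏ _i : Fin c, (Real.log y / 32) := by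
          rw [Finset.prod_const, Finset.card_univ, Fintype.card_fin]
      _ ≤ _ := Finset.prod_le_prod (fun i _ => h0) (fun i _ => h2 i)

end Pool.Agent.Q41.PT
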