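import Mathlib

set_option autoImplicit false

/-!
# A residue class in which given numbers have many prime factors
-/

namespace Pool.Agent.Q41.PT

open Finset

lemma infinite_three (M : ℕ) : {p : ℕ | (p.Prime ∧ p % 8 = 3) ∧ M < p}.Infinite := by
  apply Set.infinite_of_forall_exists_gt
  intro a
  obtain ⟨p, hp1, hp2, hp3⟩ := Nat.forall_exists_prime_gt_and_modEq (max a M) (q := 8) (a := 3)
    (by norm_num) (by decide)
  refine ⟨p, ⟨⟨hp2, ?_⟩, ?_⟩, ?_⟩
  · have := hp3
    unfold Nat.ModEq at this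
    omega
  · exact (le_max_right _ _).trans_lt hp1
  · exact (le_max_left _ _).trans_lt hp1

lemma idx_inj {C s k s' k' : ℕ} (hk : k < C) (hk' : k' < C) (h : s * C + k = s' * C + k') :
    s = s' ∧ k = k' := by
  have h1 : (s * C + k) / C = s := by
    rw [Nat.add_comm, Nat.add_mul_div_right _ _ (by omega), Nat.div_eq_of_lt hk, Nat.zero_add]
  have h2 : (s' * C + k') / C = s' := by
    rw [Nat.add_comm, Nat.add_mul_div_right _ _ (by omega), Nat.div_eq_of_lt hk', Nat.zero_add]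
  have h3 : s = s' := by rw [← h1, ← h2, h]
  subst h3
  exact ⟨rfl, by omega⟩

/-- arithmetic of one prime -/
lemma one_prime {f s0 s n : ℕ} (hf : 1 < f)
    (h : 8 * n + s0 ≡ f + s0 + (f ^ 2 - 1) * s [MOD f ^ 2]) : 8 * n + s ≡ f [MOD f ^ 2] := by
  have h1 : 8 * n + s0 + s ≡ f + s0 + (f ^ 2 - 1) * s + s [MOD f ^ 2] := Nat.ModEq.add_right s h
  have h2 : f + s0 + (f ^ 2 - 1) * s + s = f + s0 + f ^ 2 * s := by
    obtain ⟨t, ht⟩ : ∃ t, f ^ 2 = t + 1 := ⟨f ^ 2 - 1, by
      have : 0 < f ^ 2 := by positivity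
      omega⟩
    rw [ht, Nat.add_sub_cancel]
    ring
  rw [h2] at h1
  have h3 : f + s0 + f ^ 2 * s ≡ f + s0 [MOD f ^ 2] := by
    unfold Nat.ModEq
    rw [Nat.add_mul_mod_self_left]
  have h4 := h1.trans h3
  have h5 : 8 * n + s + s0 ≡ f + s0 [MOD f ^ 2] := by
    have e : 8 * n + s + s0 = 8 * n + s0 + s := by ring
    rw [e]
    exact h4
  exact Nat.ModEq.add_right_cancel' s0 h5

theorem exists_AQ (S : Finset ℕ) (s0 : ℕ) (hs0 : s0 % 2 = 1) (C b ρ : ℕ) :
    ∃ Q A : ℕ, s0 < Q ∧ A.Coprime Q ∧ ∀ N, N % Q = A % Q → s0 ≤ N →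
      ∃ n, N = 8 * n + s0 ∧ n % 2 ^ b = ρ % 2 ^ b ∧ ∀ s ∈ S, s ≠ s0 →
        ∃ (l : List ℕ) (r : ℕ), l.Nodup ∧ (∀ q ∈ l, q.Prime ∧ q % 8 = 3) ∧ l.length = C ∧
          8 * n + s = r * l.prod ∧ ∀ q ∈ l, ¬ q ∣ r := by
  classical
  set M : ℕ := S.sup id + s0 with hM
  have hSM : ∀ s ∈ S, s ≤ M := by
    intro s hs
    have : s ≤ S.sup id := Finset.le_sup (f := id) hs
    omega
  set f : ℕ → ℕ := Nat.nth (fun p => (p.Prime ∧ p % 8 = 3) ∧ M < p) with hf
  have hfm : StrictMono f := Nat.nth_strictMono (infinite_three M)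
  have hfp : ∀ k, ((f k).Prime ∧ f k % 8 = 3) ∧ M < f k :=
    fun k => Nat.nth_mem_of_infinite (infinite_three M) k
  set t : Finset (ℕ × ℕ) := (S.erase s0) ×ˢ range C with ht
  set md : ℕ × ℕ → ℕ := fun x => f (x.1 * C + x.2) ^ 2 with hmd
  set rs : ℕ × ℕ → ℕ := fun x => f (x.1 * C + x.2) + s0 + (f (x.1 * C + x.2) ^ 2 - 1) * x.1 with hrs
  have hmd0 : ∀ x ∈ t, md x ≠ 0 := fun x _ => by
    have := (hfp (x.1 * C + x.2)).1.1.pos
    positivity
  have hcop : Set.Pairwise (t : Set (ℕ × ℕ)) (Function.onFun Nat.Coprime md) := by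
    rintro ⟨s, k⟩ hx ⟨s', k'⟩ hx' hne
    rw [Finset.mem_coe, ht, Finset.mem_product, Finset.mem_range] at hx hx'
    show Nat.Coprime (f (s * C + k) ^ 2) (f (s' * C + k') ^ 2)
    apply Nat.Coprime.pow
    rw [Nat.coprime_primes (hfp _).1.1 (hfp _).1.1]
    intro h
    have h1 := hfm.injective h
    obtain ⟨h2, h3⟩ := idx_inj hx.2 hx'.2 h1
    exact hne (Prod.ext h2 h3)
  obtain ⟨k1, hk1⟩ := Nat.chineseRemainderOfFinset rs md t hmd0 hcop
  set Q1 : ℕ := ∏ x ∈ t, md x with hQ1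
  have hQ1pos : 0 < Q1 := Finset.prod_pos fun x hx => Nat.pos_of_ne_zero (hmd0 x hx)
  have hf2 : ∀ k, Nat.Coprime 2 (f k) := by
    intro k
    rw [Nat.coprime_primes Nat.prime_two (hfp k).1.1]
    have := (hfp k).1.2
    omega
  have hc2 : Nat.Coprime (2 ^ (b + s0 + 3)) Q1 := by
    apply Nat.Coprime.pow_left
    apply Nat.Coprime.prod_right
    intro x _
    exact Nat.Coprime.pow_right _ (hf2 _)
  obtain ⟨A, hA1, hA2⟩ := Nat.chineseRemainder hc2 (8 * ρ + s0) k1
  have hdv : ∀ x ∈ t, md x ∣ Q1 := fun x hx => Finset.dvd_prod_of_mem _ hx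
  have h8 : 2 ^ (b + s0 + 3) = 8 * 2 ^ (b + s0) := by rw [pow_add]; ring
  have hAx : ∀ x ∈ t, A ≡ rs x [MOD md x] := fun x hx =>
    (hA2.of_dvd (hdv x hx)).trans (hk1 x hx)
  refine ⟨2 ^ (b + s0 + 3) * Q1, A, ?_, ?_, ?_⟩
  · have h1 : s0 < 2 ^ s0 := Nat.lt_two_pow_self
    have h2 : 2 ^ s0 ≤ 2 ^ (b + s0 + 3) := Nat.pow_le_pow_right (by norm_num) (by omega)
    have h3 : 2 ^ (b + s0 + 3) ≤ 2 ^ (b + s0 + 3) * Q1 := Nat.le_mul_of_pos_right _ hQ1pos
    omega
  · apply Nat.Coprime.mul_right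
    · apply Nat.Coprime.pow_right
      have h1 : A ≡ 8 * ρ + s0 [MOD 2] := hA1.of_dvd (by rw [h8]; exact ⟨4 * 2 ^ (b + s0), by ring⟩)
      rw [Nat.coprime_comm, Nat.Prime.coprime_iff_not_dvd Nat.prime_two]
      unfold Nat.ModEq at h1
      omega
    · apply Nat.Coprime.prod_right
      rintro ⟨s, k⟩ hx
      apply Nat.Coprime.pow_right
      apply Nat.Coprime.symm
      rw [Nat.Prime.coprime_iff_not_dvd (hfp _).1.1]
      intro hd
      have hx' := hx
      rw [ht, Finset.mem_product, Finset.mem_erase] at hx'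
      have h1 := hAx _ hx
      simp only [hmd, hrs] at h1
      simp only at hd
      set F := f (s * C + k) with hF
      have hFM : M < F := (hfp _).2
      have h2 : A ≡ F + s0 + (F ^ 2 - 1) * s [MOD F] :=
        h1.of_dvd (Dvd.intro_left F (by ring))
      have h3 : A + s ≡ s0 [MOD F] := by
        have h4 := Nat.ModEq.add_right s h2
        have h5 : F + s0 + (F ^ 2 - 1) * s + s = s0 + F * (1 + F * s) := by
          obtain ⟨u, hu⟩ : ∃ u, F ^ 2 = u + 1 := ⟨F ^ 2 - 1, by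
            have : 0 < F ^ 2 := by
              have : 0 < F := by omega
              positivity
            omega⟩
          rw [hu, Nat.add_sub_cancel]
          have : F * (1 + F * s) = F + F ^ 2 * s := by ring
          rw [this, hu]
          ring
        rw [h5] at h4
        refine h4.trans ?_
        unfold Nat.ModEq
        rw [Nat.add_mul_mod_self_left]
      have h6 : s ≡ s0 [MOD F] := by
        have h7 : A + s ≡ 0 + s [MOD F] := Nat.ModEq.add_right s ((Nat.modEq_zero_iff_dvd).2 hd)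
        rw [zero_add] at h7
        exact h7.symm.trans h3
      have h8' : s < F := (hSM s hx'.1.2).trans_lt hFM
      have h9 : s0 < F := by omega
      have := Nat.ModEq.eq_of_lt_of_lt h6 h8' h9
      exact hx'.1.1 this
  · intro N hN hsN
    have hNA : N ≡ A [MOD 2 ^ (b + s0 + 3) * Q1] := hN
    have hN1 : N ≡ 8 * ρ + s0 [MOD 2 ^ (b + s0 + 3)] :=
      (hNA.of_dvd (Dvd.intro _ rfl)).trans hA1
    have hN8 : N % 8 = s0 % 8 := by
      have h1 : N ≡ 8 * ρ + s0 [MOD 8] := hN1.of_dvd (by rw [h8]; exact Dvd.intro _ rfl)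
      unfold Nat.ModEq at h1
      omega
    obtain ⟨n, hn⟩ : ∃ n, N = 8 * n + s0 := ⟨(N - s0) / 8, by omega⟩
    refine ⟨n, hn, ?_, ?_⟩
    · rw [hn, h8] at hN1
      have h1 := Nat.ModEq.add_right_cancel' s0 hN1
      have h2 : n ≡ ρ [MOD 2 ^ (b + s0)] := Nat.ModEq.mul_left_cancel' (by norm_num) h1
      exact h2.of_dvd (pow_dvd_pow 2 (by omega))
    · intro s hs hss
      have hmod : ∀ k < C, 8 * n + s ≡ f (s * C + k) [MOD f (s * C + k) ^ 2] := by
        intro k hk
        apply one_prime (hfp _).1.1.one_lt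
        have hx : (s, k) ∈ t := by
          rw [ht, Finset.mem_product, Finset.mem_erase, Finset.mem_range]
          exact ⟨⟨hss, hs⟩, hk⟩
        have h1 := (hNA.of_dvd ((hdv _ hx).mul_left _)).trans (hAx _ hx)
        rw [hn] at h1
        exact h1
      set l : List ℕ := (List.range C).map fun k => f (s * C + k) with hl
      have hlmem : ∀ q ∈ l, ∃ k < C, q = f (s * C + k) := by
        intro q hq
        rw [hl, List.mem_map] at hq
        obtain ⟨k, hk, rfl⟩ := hq
        exact ⟨k, List.mem_range.1 hk, rfl⟩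
      have hlnd : l.Nodup := by
        rw [hl]
        apply List.Nodup.map _ List.nodup_range
        intro k k' h
        have := hfm.injective h
        omega
      have hlp : ∀ q ∈ l, q.Prime ∧ q % 8 = 3 := by
        intro q hq
        obtain ⟨k, hk, rfl⟩ := hlmem q hq
        exact (hfp _).1
      have hdvd : ∀ q ∈ l, q ∣ 8 * n + s := by
        intro q hq
        obtain ⟨k, hk, rfl⟩ := hlmem q hq
        have h1 : 8 * n + s ≡ f (s * C + k) [MOD f (s * C + k)] :=
          (hmod k hk).of_dvd (Dvd.intro_left _ (by ring))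
        exact (Nat.modEq_zero_iff_dvd).1 (h1.trans (by unfold Nat.ModEq; simp))
      have hprod : l.prod ∣ 8 * n + s := by
        have h1 := List.prod_toFinset (fun q : ℕ => q) hlnd
        rw [List.map_id'] at h1
        rw [← h1]
        apply Finset.prod_primes_dvd
        · intro q hq
          exact (hlp q (List.mem_toFinset.1 hq)).1.prime
        · intro q hq
          exact hdvd q (List.mem_toFinset.1 hq)
      obtain ⟨r, hr⟩ := hprod
      refine ⟨l, r, hlnd, hlp, by rw [hl]; simp, by rw [hr]; ring, ?_⟩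
      intro q hq hqr
      obtain ⟨k, hk, hqk⟩ := hlmem q hq
      have hql : q ∣ l.prod := List.dvd_prod hq
      have h1 : q ^ 2 ∣ 8 * n + s := by
        rw [hr, pow_two]
        exact Nat.mul_dvd_mul hql hqr
      have h2 := hmod k hk
      rw [← hqk] at h2
      have h3 : q ≡ 0 [MOD q ^ 2] := h2.symm.trans ((Nat.modEq_zero_iff_dvd).2 h1)
      have h4 := (Nat.modEq_zero_iff_dvd).1 h3
      have h5 := Nat.le_of_dvd (hlp q hq).1.pos h4
      have h6 := (hlp q hq).1.one_lt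
      nlinarith

end Pool.Agent.Q41.PT
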