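import Pool.Agent.Q41.PT.Alg
import Pool.Agent.Q41.PT.Count
import Pool.Agent.Q41.PT.Crt
import Pool.Agent.H397R2.PP.VAN

set_option autoImplicit false

/-!
# Sums of coefficients of odd powers of the discriminant modulo 2 at shifted arguments
-/

namespace Pool.Agent.Q41.PT

open PowerSeries Pool.Agent.H397R2.PP Pool.Agent.H307R2.OP Filter Topology

/-- the sum over the pairs `(j, i)` of the coefficients of `D ^ (2 j + 1)` at `8 (n + i) + 2 j + 1` -/
noncomputable def Hs (P : Finset (ℕ × ℕ)) (n : ℕ) : ZMod 2 :=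
  ∑ x ∈ P, coeff (8 * (n + x.2) + (2 * x.1 + 1)) (Db ^ (2 * x.1 + 1))

/-- the shift of a pair -/
def sg (x : ℕ × ℕ) : ℕ := 8 * x.2 + 2 * x.1 + 1

/-- the form with a given shift -/
noncomputable def GG (P : Finset (ℕ × ℕ)) (s : ℕ) : S :=
  ∑ x ∈ P.filter (fun x => sg x = s), Db ^ (2 * x.1 + 1)

lemma GG_eq (P : Finset (ℕ × ℕ)) (s : ℕ) :
    GG P s = ∑ j ∈ (P.filter (fun x => sg x = s)).image Prod.fst, Db ^ (2 * j + 1) := by
  rw [Finset.sum_image]
  · rfl
  · rintro ⟨j, i⟩ hx ⟨j', i'⟩ hx' h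
    rw [Finset.mem_coe, Finset.mem_filter] at hx hx'
    simp only at h
    subst h
    have h1 := hx.2
    have h2 := hx'.2
    unfold sg at h1 h2
    simp only at h1 h2
    have : i = i' := by omega
    rw [this]

lemma Hs_eq (P : Finset (ℕ × ℕ)) (n : ℕ) : Hs P n = ∑ s ∈ P.image sg, coeff (8 * n + s) (GG P s) := by
  unfold Hs
  rw [← Finset.sum_fiberwise_of_maps_to (fun x hx => Finset.mem_image_of_mem sg hx)]
  refine Finset.sum_congr rfl fun s _ => ?_
  unfold GG
  rw [map_sum]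
  refine Finset.sum_congr rfl fun x hx => ?_
  have h1 := (Finset.mem_filter.1 hx).2
  unfold sg at h1
  rw [← h1]
  congr 2
  ring

lemma GG_support (P : Finset (ℕ × ℕ)) (s N : ℕ) (h : coeff N (GG P s) ≠ 0) : N % 8 = s % 8 := by
  unfold GG at h
  rw [map_sum] at h
  obtain ⟨x, hx, hx2⟩ := Finset.exists_ne_zero_of_sum_ne_zero h
  have h1 := (Finset.mem_filter.1 hx).2
  unfold sg at h1
  by_contra hne
  apply hx2
  apply coeff_Db_pow_of_mod
  omega

/-- distinct primes with given residues `3` or `5` modulo 8 -/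
lemma exists_primes (e : List ℕ) (he : ∀ a ∈ e, a = 3 ∨ a = 5) :
    ∃ l : List ℕ, l.Nodup ∧ (∀ q ∈ l, q.Prime) ∧ l.map (· % 8) = e := by
  induction e with
  | nil => exact ⟨[], List.nodup_nil, by simp, rfl⟩
  | cons a e ih =>
    obtain ⟨l, h1, h2, h3⟩ := ih fun b hb => he b (List.mem_cons_of_mem _ hb)
    have ha := he a (by simp)
    obtain ⟨p, hp1, hp2, hp3⟩ := Nat.forall_exists_prime_gt_and_modEq l.sum (q := 8) (a := a)
      (by norm_num) (by rcases ha with rfl | rfl <;> decide)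
    refine ⟨p :: l, ?_, ?_, ?_⟩
    · rw [List.nodup_cons]
      refine ⟨fun hmem => ?_, h1⟩
      have := List.single_le_sum (by simp) p hmem
      omega
    · intro q hq
      rcases List.mem_cons.1 hq with rfl | hq
      · exact hp2
      · exact h2 q hq
    · rw [List.map_cons, h3]
      congr 1
      unfold Nat.ModEq at hp3
      rcases ha with rfl | rfl <;> omega

lemma prod_map_mod (l : List ℕ) : l.prod % 8 = (l.map (· % 8)).prod % 8 := by
  induction l with
  | nil => rfl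
  | cons a l ih =>
    rw [List.prod_cons, List.map_cons, List.prod_cons, Nat.mul_mod, ih,
      Nat.mul_mod (a % 8) ((l.map (· % 8)).prod), Nat.mod_mod]

lemma cancel_mod (m a b s : ℕ) (hm : m % 2 = 1) (h1 : m * a % 8 = s % 8) (h2 : m * b % 8 = s % 8) :
    a % 8 = b % 8 := by
  have h3 : m * a ≡ m * b [MOD 8] := h1.trans h2.symm
  have hc : Nat.gcd 8 m = 1 := by
    have : Nat.Coprime (2 ^ 3) m := by
      apply Nat.Coprime.pow_left
      rw [Nat.Prime.coprime_iff_not_dvd Nat.prime_two]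
      omega
    exact this
  exact Nat.ModEq.cancel_left_of_coprime hc h3

lemma prod_odd (e : List ℕ) (he : ∀ a ∈ e, a = 3 ∨ a = 5) : e.prod % 2 = 1 := by
  induction e with
  | nil => rfl
  | cons a e ih =>
    rw [List.prod_cons, Nat.mul_mod, ih fun b hb => he b (List.mem_cons_of_mem _ hb)]
    rcases he a (by simp) with rfl | rfl <;> rfl

/-- **the count, in terms of the parameter `y`** -/
theorem core (P : Finset (ℕ × ℕ)) (hP : P.Nonempty) (K : ℕ) (hK : ∀ x ∈ P, K + 1 ≤ cont x.1)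
    (b ρ : ℕ) : ∃ (c : ℕ) (δ : ℝ) (y0 : ℕ), K ≤ c ∧ 0 < δ ∧ ∀ y : ℕ, y0 ≤ y → ∀ X : ℕ,
      2 ^ (y ^ (c + 2)) ≤ X → ∃ T : Finset ℕ,
        (∀ n ∈ T, n ≤ X ∧ n % 2 ^ b = ρ % 2 ^ b ∧ Hs P n = 1) ∧
        δ * (X / Real.log X) * Real.log y ^ c ≤ (T.card : ℝ) := by
  classical
  obtain ⟨x0, hx0⟩ := hP
  set s0 := sg x0 with hs0
  have hs0odd : s0 % 2 = 1 := by rw [hs0]; unfold sg; omega
  set J := (P.filter (fun x => sg x = s0)).image Prod.fst with hJ
  have hJne : J.Nonempty := ⟨x0.1, Finset.mem_image_of_mem _ (Finset.mem_filter.2 ⟨hx0, rfl⟩)⟩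
  obtain ⟨c1, hc1, ⟨j1, hj1, hj1c⟩, hG1, hG0⟩ := exists_content J hJne
  rw [← GG_eq P s0] at hG1 hG0
  have hKc : K + 1 ≤ c1 := by
    rw [hJ, Finset.mem_image] at hj1
    obtain ⟨x, hx, rfl⟩ := hj1
    rw [← hj1c]
    exact hK x (Finset.mem_filter.1 hx).1
  obtain ⟨c, rfl⟩ : ∃ c, c1 = c + 1 := ⟨c1 - 1, by omega⟩
  obtain ⟨e', he1, he2, he3⟩ := coeff_word (c + 1) _ hG1 hG0
  -- split off the last class
  have hne' : e' ≠ [] := by
    intro h
    rw [h] at he1
    simp at he1
  have hsplit := List.dropLast_append_getLast hne'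
  set el := e'.dropLast with hel
  set ea := e'.getLast hne' with hea
  have hell : el.length = c := by rw [hel, List.length_dropLast, he1, Nat.add_sub_cancel]
  have helmem : ∀ a ∈ el, a = 3 ∨ a = 5 := fun a ha => he2 a (by
    rw [← hsplit]; exact List.mem_append_left _ ha)
  -- the total class is the class of `s0`
  have hclass : e'.prod % 8 = s0 % 8 := by
    obtain ⟨l, hl1, hl2, hl3⟩ := exists_primes e' he2
    have h1 := he3 l hl1 hl2 hl3
    have h2 := GG_support P s0 l.prod (by rw [h1]; exact one_ne_zero)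
    rw [prod_map_mod, hl3] at h2
    exact h2
  -- a common bound for the contents
  set Sset := P.image sg with hSset
  have hCex : ∃ C, ∀ s ∈ Sset, GG P s ∈ NIL.WW C := by
    refine ⟨P.sup (fun x => cont x.1) + 1, fun s _ => ?_⟩
    unfold GG
    apply Submodule.sum_mem
    intro x hx
    apply NIL.WW_mem
    have : cont x.1 ≤ P.sup (fun x => cont x.1) :=
      Finset.le_sup (f := fun x : ℕ × ℕ => cont x.1) (Finset.mem_filter.1 hx).1
    omega
  obtain ⟨C, hC⟩ := hCex
  obtain ⟨Q, A, hsQ, hAQ, hN⟩ := exists_AQ Sset s0 hs0odd C b ρ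
  have hQ1 : 1 ≤ Q := by omega
  set ef : Fin c → ℕ := fun i => el.get (i.cast hell.symm) with hef
  have hofn : List.ofFn ef = el := by
    apply List.ext_get
    · simp [hell]
    · intro k h1 h2
      simp [hef]
  obtain ⟨y0, hy0⟩ := count_main ef (fun i => helmem _ (List.get_mem _ _)) Q hQ1
  have hφ : (1 : ℝ) ≤ (Nat.totient Q : ℝ) := by
    exact_mod_cast Nat.totient_pos.2 hQ1
  refine ⟨c, 1 / (8 * Nat.totient Q * 32 ^ c), y0, by omega, by positivity, fun y hy X hX => ?_⟩
  obtain ⟨T, hT1, hT2⟩ := hy0 y hy X hX A hAQ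
  -- the map from `N` to `n`
  have hT3 : ∀ N ∈ T, s0 ≤ N := by
    intro N hNT
    obtain ⟨-, -, l, p, hnd, hpr, -, rfl⟩ := hT1 N hNT
    have h1 : Q < p := (hpr p (by simp)).2
    have h2 : 0 < l.prod := List.prod_pos fun q hq =>
      (hpr q (List.mem_append_left _ hq)).1.pos
    have h3 : p ≤ l.prod * p := Nat.le_mul_of_pos_left _ h2
    omega
  have hT4 : ∀ N ∈ T, ∃ n, N = 8 * n + s0 ∧ n % 2 ^ b = ρ % 2 ^ b ∧ Hs P n = 1 := by
    intro N hNT
    obtain ⟨hNX, hNA, l, p, hnd, hpr, hlm, hNp⟩ := hT1 N hNT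
    obtain ⟨n, hn1, hn2, hn3⟩ := hN N hNA (hT3 N hNT)
    refine ⟨n, hn1, hn2, ?_⟩
    rw [Hs_eq, Finset.sum_eq_single s0]
    · have hp8 : p % 8 = ea := by
        have h1 : (el.prod * p) % 8 = s0 % 8 := by
          have h2 : N % 8 = s0 % 8 := by omega
          rw [hNp, Nat.mul_mod, prod_map_mod l, hlm, hofn, ← Nat.mul_mod] at h2
          exact h2
        have h3 : (el.prod * ea) % 8 = s0 % 8 := by
          rw [← hclass, ← hsplit, List.prod_append]
          simp
        have h4 := cancel_mod el.prod p ea s0 (prod_odd el helmem) h1 h3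
        rw [h4]
        rcases he2 ea (List.getLast_mem hne') with h | h <;> rw [h]
      have h5 := he3 (l ++ [p]) hnd (fun q hq => (hpr q hq).1) (by
        rw [List.map_append, hlm, hofn]
        rw [← hsplit]
        simp [hp8])
      rw [← hn1, hNp]
      rw [List.prod_append] at h5
      simpa using h5
    · intro s hs hss
      obtain ⟨l', r, h1, h2, h3, h4, h5⟩ := hn3 s hs hss
      rw [h4]
      exact coeff_vanish C _ (hC s hs) l' h1 h2 h3 r h5
    · intro h
      exact absurd (Finset.mem_image_of_mem sg hx0) h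
  refine ⟨T.image fun N => (N - s0) / 8, ?_, ?_⟩
  · intro n hn
    rw [Finset.mem_image] at hn
    obtain ⟨N, hNT, rfl⟩ := hn
    obtain ⟨n, h1, h2, h3⟩ := hT4 N hNT
    have h4 : (N - s0) / 8 = n := by omega
    have h5 := (hT1 N hNT).1
    rw [h4]
    exact ⟨by omega, h2, h3⟩
  · rw [Finset.card_image_of_injOn]
    · refine le_trans (le_of_eq ?_) hT2
      rw [div_pow]
      field_simp
    · intro N hNT N' hNT' h
      obtain ⟨n, h1, -⟩ := hT4 N hNT
      obtain ⟨n', h1', -⟩ := hT4 N' hNT'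
      simp only at h
      omega

end Pool.Agent.Q41.PT
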