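import Pool.Agent.Q41.PT.Crt

set_option autoImplicit false

/-!
# A residue class with exact divisibility by powers of primes, with explicit modulus
-/

namespace Pool.Agent.Q41.PT

open Finset

/-- primes `≡ 3 (mod 8)` larger than `L` -/
noncomputable def pr (L : ℕ) : ℕ → ℕ := Nat.nth (fun p => (p.Prime ∧ p % 8 = 3) ∧ L < p)

lemma pr_inj (L : ℕ) : Function.Injective (pr L) := (Nat.nth_strictMono (infinite_three L)).injective

lemma pr_mem (L k : ℕ) : ((pr L k).Prime ∧ pr L k % 8 = 3) ∧ L < pr L k :=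
  Nat.nth_mem_of_infinite (infinite_three L) k

/-- the product of the primes that are used -/
noncomputable def PiL (L : ℕ) : ℕ := ∏ i ∈ range (L + 1), pr L i

lemma one_le_PiL (L : ℕ) : 1 ≤ PiL L := Finset.prod_pos fun i _ => (pr_mem L i).1.1.pos

/-- the modulus -/
noncomputable def Qm (L b r : ℕ) : ℕ := 2 ^ (b + 3) * PiL L ^ (2 ^ r)

lemma one_le_Qm (L b r : ℕ) : 1 ≤ Qm L b r :=
  Nat.mul_pos (by positivity) (pow_pos (one_le_PiL L) _)

theorem exists_A (L i0 b ρ r m : ℕ) (hm : m % 2 = 1) (hr : 1 ≤ r) (hi0 : i0 ≤ L) :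
    ∃ A : ℕ, A.Coprime (Qm L b r) ∧ ∀ N, N % Qm L b r = A % Qm L b r → 8 * i0 + m ≤ N →
      ∃ n, N = 8 * (n + i0) + m ∧ n % 2 ^ b = ρ % 2 ^ b ∧ ∀ i ≤ L, i ≠ i0 →
        ∃ v, ¬ pr L i ∣ v ∧ 8 * (n + i) + m = pr L i ^ (2 ^ r - 1) * v := by
  classical
  set w : ℕ := 2 ^ r with hw
  have hw1 : 1 ≤ w := Nat.one_le_two_pow
  have hw2 : 2 ≤ w := by
    calc 2 = 2 ^ 1 := rfl
      _ ≤ 2 ^ r := Nat.pow_le_pow_right (by norm_num) hr
  set md : ℕ → ℕ := fun i => pr L i ^ w with hmd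
  -- the residues: `N + 8 i ≡ 8 i0 + ℓ ^ (w - 1)`
  set rs : ℕ → ℕ := fun i => if i = i0 then 1 else
    8 * i0 + pr L i ^ (w - 1) + 8 * i * (pr L i ^ w - 1) with hrs
  have hmd0 : ∀ i ∈ range (L + 1), md i ≠ 0 := fun i _ => by
    have := (pr_mem L i).1.1.pos
    positivity
  have hcop : Set.Pairwise (range (L + 1) : Set ℕ) (Function.onFun Nat.Coprime md) := by
    intro i _ j _ hne
    show Nat.Coprime (pr L i ^ w) (pr L j ^ w)
    apply Nat.Coprime.pow
    rw [Nat.coprime_primes (pr_mem L i).1.1 (pr_mem L j).1.1]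
    intro h
    exact hne (pr_inj L h)
  obtain ⟨k1, hk1⟩ := Nat.chineseRemainderOfFinset rs md (range (L + 1)) hmd0 hcop
  have hQ1 : PiL L ^ w = ∏ i ∈ range (L + 1), md i := by
    unfold PiL
    rw [Finset.prod_pow]
  have hf2 : ∀ k, Nat.Coprime 2 (pr L k) := by
    intro k
    rw [Nat.coprime_primes Nat.prime_two (pr_mem L k).1.1]
    have := (pr_mem L k).1.2
    omega
  have hc2 : Nat.Coprime (2 ^ (b + 3)) (PiL L ^ w) := by
    apply Nat.Coprime.pow
    apply Nat.Coprime.prod_right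
    intro x _
    exact hf2 _
  obtain ⟨A, hA1, hA2⟩ := Nat.chineseRemainder hc2 (8 * ρ + 8 * i0 + m) k1
  have hdv : ∀ i ∈ range (L + 1), md i ∣ PiL L ^ w := fun x hx => by
    rw [hQ1]
    exact Finset.dvd_prod_of_mem _ hx
  have h8 : 2 ^ (b + 3) = 8 * 2 ^ b := by rw [pow_add]; ring
  have hAx : ∀ i ∈ range (L + 1), A ≡ rs i [MOD md i] := fun x hx =>
    (hA2.of_dvd (hdv x hx)).trans (hk1 x hx)
  have hpw : ∀ i, pr L i ^ w = pr L i * pr L i ^ (w - 1) := by
    intro i
    rw [← pow_succ']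
    congr 1
    omega
  refine ⟨A, ?_, ?_⟩
  · unfold Qm
    apply Nat.Coprime.mul_right
    · apply Nat.Coprime.pow_right
      have h1 : A ≡ 8 * ρ + 8 * i0 + m [MOD 2] :=
        hA1.of_dvd (by rw [h8]; exact ⟨4 * 2 ^ b, by ring⟩)
      rw [Nat.coprime_comm, Nat.Prime.coprime_iff_not_dvd Nat.prime_two]
      unfold Nat.ModEq at h1
      omega
    · rw [← hw, hQ1]
      apply Nat.Coprime.prod_right
      intro i hi
      apply Nat.Coprime.pow_right
      apply Nat.Coprime.symm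
      rw [Nat.Prime.coprime_iff_not_dvd (pr_mem L i).1.1]
      intro hd
      have h1 := hAx i hi
      have hpi := (pr_mem L i)
      set F := pr L i with hF
      have hFd : F ∣ md i := by
        show F ∣ pr L i ^ w
        exact dvd_pow_self _ (by omega)
      have h2 : 0 ≡ rs i [MOD F] := ((Nat.modEq_zero_iff_dvd).2 hd).symm.trans (h1.of_dvd hFd)
      by_cases hii : i = i0
      · simp only [hrs] at h2
        rw [if_pos hii] at h2
        have h3 := (Nat.modEq_zero_iff_dvd).1 h2.symm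
        exact hpi.1.1.one_lt.ne' (Nat.dvd_one.1 h3)
      · simp only [hrs] at h2
        rw [if_neg hii] at h2
        have hFw : 1 ≤ F ^ w := Nat.one_le_pow _ _ hpi.1.1.pos
        have h3 := Nat.ModEq.add_right (8 * i) h2
        have h4 : 8 * i0 + F ^ (w - 1) + 8 * i * (F ^ w - 1) + 8 * i =
            8 * i0 + F * (F ^ (w - 2) + F ^ (w - 1) * (8 * i)) := by
          obtain ⟨u, hu⟩ : ∃ u, F ^ w = u + 1 := ⟨F ^ w - 1, by omega⟩
          have e1 : F ^ (w - 1) = F * F ^ (w - 2) := by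
            rw [← pow_succ']
            congr 1
            omega
          have e2 : F * (F ^ (w - 2) + F ^ (w - 1) * (8 * i)) =
              F * F ^ (w - 2) + (F * F ^ (w - 1)) * (8 * i) := by ring
          rw [e2, ← hpw i, hu, Nat.add_sub_cancel, ← e1]
          ring
        rw [h4, zero_add] at h3
        have h5 : 8 * i0 + F * (F ^ (w - 2) + F ^ (w - 1) * (8 * i)) ≡ 8 * i0 [MOD F] := by
          unfold Nat.ModEq
          rw [Nat.add_mul_mod_self_left]
        have h6 : 8 * i ≡ 8 * i0 [MOD F] := h3.trans h5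
        have hc : Nat.gcd F 8 = 1 := by
          have : Nat.Coprime (2 ^ 3) F := Nat.Coprime.pow_left _ (hf2 i)
          rw [Nat.gcd_comm]
          exact this
        have h7 : i ≡ i0 [MOD F] := Nat.ModEq.cancel_left_of_coprime hc h6
        have h8' : i < F := by
          have := Finset.mem_range.1 hi
          omega
        have h9 : i0 < F := by omega
        exact hii (Nat.ModEq.eq_of_lt_of_lt h7 h8' h9)
  · intro N hN hsN
    have hNA : N ≡ A [MOD Qm L b r] := hN
    have hN1 : N ≡ 8 * ρ + 8 * i0 + m [MOD 2 ^ (b + 3)] :=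
      (hNA.of_dvd (Dvd.intro _ rfl)).trans hA1
    obtain ⟨n, hn⟩ : ∃ n, N = 8 * (n + i0) + m := by
      have h1 : N ≡ 8 * ρ + 8 * i0 + m [MOD 8] := hN1.of_dvd (by rw [h8]; exact Dvd.intro _ rfl)
      unfold Nat.ModEq at h1
      exact ⟨(N - m) / 8 - i0, by omega⟩
    refine ⟨n, hn, ?_, ?_⟩
    · have e1 : N = 8 * n + (8 * i0 + m) := by rw [hn]; ring
      have e2 : 8 * ρ + 8 * i0 + m = 8 * ρ + (8 * i0 + m) := by ring
      rw [e1, e2, h8] at hN1
      have h1 := Nat.ModEq.add_right_cancel' _ hN1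
      exact Nat.ModEq.mul_left_cancel' (by norm_num) h1
    · intro i hi hne
      have hmem : i ∈ range (L + 1) := Finset.mem_range.2 (by omega)
      have h1 : N ≡ rs i [MOD md i] :=
        (hNA.of_dvd ((hdv i hmem).mul_left _)).trans (hAx i hmem)
      simp only [hrs, hmd] at h1
      rw [if_neg hne] at h1
      set F := pr L i with hF
      have hF1 : 1 < F := (pr_mem L i).1.1.one_lt
      have hFw : 1 ≤ F ^ w := Nat.one_le_pow _ _ (by omega)
      -- `8 (n + i) + m ≡ F ^ (w - 1)`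
      have h2 : 8 * (n + i) + m ≡ F ^ (w - 1) [MOD F ^ w] := by
        have h3 : N + 8 * i ≡ 8 * i0 + F ^ (w - 1) + 8 * i * (F ^ w - 1) + 8 * i [MOD F ^ w] :=
          Nat.ModEq.add_right _ h1
        have h4 : 8 * i0 + F ^ (w - 1) + 8 * i * (F ^ w - 1) + 8 * i =
            8 * i0 + F ^ (w - 1) + F ^ w * (8 * i) := by
          obtain ⟨u, hu⟩ : ∃ u, F ^ w = u + 1 := ⟨F ^ w - 1, by omega⟩
          rw [hu, Nat.add_sub_cancel]
          ring
        rw [h4] at h3
        have h5 : 8 * i0 + F ^ (w - 1) + F ^ w * (8 * i) ≡ 8 * i0 + F ^ (w - 1) [MOD F ^ w] := by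
          unfold Nat.ModEq
          rw [Nat.add_mul_mod_self_left]
        have h6 := h3.trans h5
        have h7 : N + 8 * i = 8 * i0 + (8 * (n + i) + m) := by rw [hn]; ring
        rw [h7] at h6
        exact Nat.ModEq.add_left_cancel' _ h6
      have h3 : F ^ (w - 1) ∣ 8 * (n + i) + m := by
        have h4 : 8 * (n + i) + m ≡ F ^ (w - 1) [MOD F ^ (w - 1)] :=
          h2.of_dvd (pow_dvd_pow F (by omega))
        exact (Nat.modEq_zero_iff_dvd).1 (h4.trans (by unfold Nat.ModEq; simp))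
      obtain ⟨v, hv⟩ := h3
      refine ⟨v, ?_, hv⟩
      rintro ⟨v', rfl⟩
      have h4 : F ^ w ∣ 8 * (n + i) + m := by
        rw [hv, hpw]
        exact ⟨v', by ring⟩
      have h5 : F ^ (w - 1) ≡ 0 [MOD F ^ w] := h2.symm.trans ((Nat.modEq_zero_iff_dvd).2 h4)
      have h6 := (Nat.modEq_zero_iff_dvd).1 h5
      have h7 := Nat.le_of_dvd (by positivity) h6
      have h8 : F ^ (w - 1) < F ^ w := Nat.pow_lt_pow_right hF1 (by omega)
      omega

end Pool.Agent.Q41.PT
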