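import Pool.Agent.Q41.PT.Transfer

set_option autoImplicit false

/-!
# Linear patterns of multipartition numbers modulo 2: the count
-/

namespace Pool.Agent.Q41.PT

open Filter Topology Pool.Agent.H397R2.PP
open Pool.Agent.H413R3.Part (mp)

lemma loglog_tend : Tendsto (fun x : ℕ => Real.log (Real.log (x : ℝ))) atTop atTop :=
  Real.tendsto_log_atTop.comp log_tend

/-- the parameter `y` -/
lemma exists_y (c y0 : ℕ) : ∃ x0 : ℕ, ∀ x : ℕ, x0 ≤ x → ∃ y : ℕ, y0 ≤ y ∧ 2 ^ (y ^ (c + 2)) ≤ x ∧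
    Real.log (Real.log x) / (2 * (c + 2)) ≤ Real.log y := by
  obtain ⟨n1, hn1⟩ := eventually_atTop.1 (log_tend.eventually_ge_atTop 3)
  refine ⟨max n1 (2 ^ ((y0 + 2) ^ (c + 2))), fun x hx => ?_⟩
  have hx1 : 3 ≤ Real.log (x : ℝ) := hn1 x ((le_max_left _ _).trans hx)
  have hx2 : 2 ^ ((y0 + 2) ^ (c + 2)) ≤ x := (le_max_right _ _).trans hx
  have hxpos : 0 < x := lt_of_lt_of_le (by positivity) hx2
  have hxR : (0 : ℝ) < x := by exact_mod_cast hxpos
  set I := Nat.log 2 x with hI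
  have hI1 : 2 ^ I ≤ x := Nat.pow_log_le_self 2 hxpos.ne'
  have hI2 : x < 2 ^ (I + 1) := Nat.lt_pow_succ_log_self (by norm_num) x
  have hI3 : (y0 + 2) ^ (c + 2) ≤ I := Nat.le_log_of_pow_le (by norm_num) hx2
  have hex : ∃ z, I < (z + 1) ^ (c + 2) := ⟨I, by
    have : I + 1 ≤ (I + 1) ^ (c + 2) := Nat.le_self_pow (by omega) _
    omega⟩
  classical
  have hy1 := Nat.find_spec hex
  have hmin := fun j (hj : j < Nat.find hex) => Nat.find_min hex hj
  set y := Nat.find hex with hy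
  have hyy : y0 + 2 ≤ y := by
    by_contra hcon
    push Not at hcon
    have h1 : (y + 1) ^ (c + 2) ≤ (y0 + 2) ^ (c + 2) := Nat.pow_le_pow_left (by omega) _
    omega
  have hyI : y ^ (c + 2) ≤ I := by
    have := hmin (y - 1) (by omega)
    push Not at this
    rwa [show y - 1 + 1 = y by omega] at this
  refine ⟨y, by omega, (Nat.pow_le_pow_right (by norm_num) hyI).trans hI1, ?_⟩
  have hl2 := Real.log_two_lt_d9
  have hl2' := Real.log_two_gt_d9
  -- `log x ≤ I`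
  have hIx : Real.log (x : ℝ) ≤ I := by
    have h1 : Real.log (x : ℝ) ≤ Real.log ((2 : ℝ) ^ (I + 1)) := by
      apply Real.log_le_log hxR
      exact_mod_cast hI2.le
    rw [Real.log_pow] at h1
    push_cast at h1
    nlinarith
  have hypos : (2 : ℝ) ≤ y := by exact_mod_cast (by omega : 2 ≤ y)
  have h1 : Real.log (Real.log x) ≤ Real.log I := Real.log_le_log (by linarith) hIx
  have h2 : Real.log I ≤ Real.log (((y : ℝ) ^ 2) ^ (c + 2)) := by
    apply Real.log_le_log (by linarith)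
    have h3 : (I : ℝ) ≤ ((y : ℝ) + 1) ^ (c + 2) := by exact_mod_cast hy1.le
    refine h3.trans ?_
    apply pow_le_pow_left₀ (by linarith)
    nlinarith
  rw [Real.log_pow, Real.log_pow] at h2
  push_cast at h2
  rw [div_le_iff₀ (by positivity)]
  linarith

/-- the parameters of the transfer -/
lemma exists_param (r : ℕ) (𝒯 : Finset ℕ) (h𝒯 : ∀ t ∈ 𝒯, t % 2 = 1 ∧ t % 3 = r)
    (h0 : 𝒯.Nonempty) (b K : ℕ) : ∃ (a e : ℕ) (k : ℕ → ℕ), (a = 1 ∨ a = 3) ∧ b ≤ e ∧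
      (∀ t ∈ 𝒯, 3 * k t + t = a * 2 ^ e) ∧ (∀ t ∈ 𝒯, k t % 2 = 1) ∧
      ∀ t ∈ 𝒯, K ≤ cont (k t / 2) := by
  set B : ℕ := 2 * K + 6 + b + 𝒯.sup id with hB
  have hr : r < 3 := by
    obtain ⟨t, ht⟩ := h0
    have := (h𝒯 t ht).2
    omega
  have hae : ∃ a e : ℕ, (a = 1 ∨ a = 3) ∧ B ≤ e ∧ (a * 2 ^ e) % 3 = r := by
    have h4 : ∀ u, 2 ^ (2 * u) % 3 = 1 := by
      intro u
      rw [pow_mul, Nat.pow_mod]; simp
    interval_cases r
    · exact ⟨3, B, Or.inr rfl, le_rfl, by omega⟩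
    · refine ⟨1, 2 * B, Or.inl rfl, by omega, ?_⟩
      rw [one_mul, h4]
    · refine ⟨1, 2 * B + 1, Or.inl rfl, by omega, ?_⟩
      rw [one_mul, pow_succ, Nat.mul_mod, h4]
  obtain ⟨a, e, ha, he, hmod⟩ := hae
  have ha1 : 1 ≤ a := by rcases ha with rfl | rfl <;> norm_num
  have hbig : ∀ t ∈ 𝒯, t + 3 + 6 * 4 ^ K ≤ a * 2 ^ e := by
    intro t ht
    have ht1 : t ≤ 𝒯.sup id := Finset.le_sup (f := id) ht
    have h1 : 2 ^ (2 * K + 6 + t) ≤ 2 ^ e := Nat.pow_le_pow_right (by norm_num) (by omega)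
    have h2 : 2 ^ (2 * K + 6 + t) = 64 * 4 ^ K * 2 ^ t := by
      rw [pow_add, pow_add, pow_mul]; ring
    have h3 : t < 2 ^ t := Nat.lt_two_pow_self
    have h4 : 1 ≤ 4 ^ K := Nat.one_le_pow _ _ (by norm_num)
    have h5 : 2 ^ e ≤ a * 2 ^ e := Nat.le_mul_of_pos_left _ ha1
    have h6 : 64 * 4 ^ K * 2 ^ t ≥ t + 3 + 6 * 4 ^ K := by
      have h7 : 1 ≤ 2 ^ t := by omega
      nlinarith
    omega
  have heven : (a * 2 ^ e) % 2 = 0 := by
    obtain ⟨u, hu⟩ : ∃ u, e = u + 1 := ⟨e - 1, by omega⟩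
    rw [hu, pow_succ, ← mul_assoc, Nat.mul_mod_left]
  refine ⟨a, e, fun t => (a * 2 ^ e - t) / 3, ha, by omega, ?_, ?_, ?_⟩
  · intro t ht
    have h1 := hbig t ht
    have h2 := (h𝒯 t ht).2
    show 3 * ((a * 2 ^ e - t) / 3) + t = a * 2 ^ e
    generalize a * 2 ^ e = N at *
    have h3 : 0 ≤ 6 * 4 ^ K := Nat.zero_le _
    generalize 6 * 4 ^ K = W at *
    omega
  · intro t ht
    have h1 := hbig t ht
    have h2 := (h𝒯 t ht)
    show (a * 2 ^ e - t) / 3 % 2 = 1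
    generalize a * 2 ^ e = N at *
    generalize 6 * 4 ^ K = W at *
    omega
  · intro t ht
    have h1 := hbig t ht
    show K ≤ cont ((a * 2 ^ e - t) / 3 / 2)
    have h2 : 4 ^ K ≤ (a * 2 ^ e - t) / 3 / 2 := by
      generalize a * 2 ^ e = N at *
      generalize 4 ^ K = W at *
      omega
    by_contra hcon
    push Not at hcon
    have h3 := cont_ge ((a * 2 ^ e - t) / 3 / 2)
    have h4 : 4 ^ cont ((a * 2 ^ e - t) / 3 / 2) ≤ 4 ^ K :=
      Nat.pow_le_pow_right (by norm_num) (by omega)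
    omega

/-- **patterns with value one** -/
theorem main_one (r : ℕ) (𝒯 : Finset ℕ) (h𝒯 : ∀ t ∈ 𝒯, t % 2 = 1 ∧ t % 3 = r) (L : ℕ)
    (c : ℕ → ℕ → ZMod 2) (hc : ∃ t ∈ 𝒯, ∃ i ≤ L, c t i ≠ 0) (b ρ K : ℕ) :
    ∃ x0 : ℕ, ∀ x : ℕ, x0 ≤ x →
      Real.sqrt x * Real.log (Real.log x) ^ K / Real.log x ≤ ((good 𝒯 L c b ρ 1 x).card : ℝ) := by
  obtain ⟨t0, ht0, i0, hi0, hc0⟩ := hc
  obtain ⟨a, e, k, ha, hbe, hk, hodd, hcont⟩ := exists_param r 𝒯 h𝒯 ⟨t0, ht0⟩ b (K + 2)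
  have hPne : (prs 𝒯 L c k).Nonempty := by
    refine ⟨(k t0 / 2, i0), ?_⟩
    unfold prs
    rw [Finset.mem_image]
    refine ⟨(t0, i0), ?_, rfl⟩
    rw [Finset.mem_filter, Finset.mem_product, Finset.mem_range]
    exact ⟨⟨ht0, by omega⟩, hc0⟩
  have hPK : ∀ x ∈ prs 𝒯 L c k, K + 1 + 1 ≤ cont x.1 := by
    intro x hx
    unfold prs at hx
    rw [Finset.mem_image] at hx
    obtain ⟨⟨t, i⟩, hx1, rfl⟩ := hx
    rw [Finset.mem_filter, Finset.mem_product] at hx1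
    exact hcont t hx1.1.1
  obtain ⟨m, δ, y0, hm, hδ, hcore⟩ := core (prs 𝒯 L c k) hPne (K + 1) hPK b ρ
  obtain ⟨x1, hx1⟩ := exists_y m y0
  set β : ℝ := 1 / (2 * (m + 2)) with hβ
  have hβ0 : 0 < β := by positivity
  -- the conditions on `x`
  have hsl : Tendsto (fun x : ℕ => Real.sqrt (x : ℝ) / Real.log x) atTop atTop := by
    have h1 : Tendsto (fun x : ℝ => Real.log x / x ^ (1 / 2 : ℝ)) atTop (𝓝[>] 0) := by
      rw [tendsto_nhdsWithin_iff]
      refine ⟨(isLittleO_log_rpow_atTop (by norm_num : (0 : ℝ) < 1 / 2)).tendsto_div_nhds_zero, ?_⟩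
      filter_upwards [eventually_gt_atTop 1] with x hx
      have : 0 < Real.log x := Real.log_pos hx
      have hx0 : 0 < x := by linarith
      exact Set.mem_Ioi.2 (by positivity)
    have h2 := h1.inv_tendsto_nhdsGT_zero.comp (tendsto_natCast_atTop_atTop (R := ℝ))
    refine h2.congr fun x => ?_
    simp only [Function.comp, Pi.inv_apply]
    rw [inv_div, ← Real.sqrt_eq_rpow]
  obtain ⟨x2, hx2⟩ := eventually_atTop.1 ((loglog_tend.eventually_ge_atTop
    (max 1 (16 / (δ * β ^ m)))).and ((log_tend.eventually_ge_atTop 1).and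
    (hsl.eventually_ge_atTop (L : ℝ))))
  refine ⟨max (max x1 x2) (L + 1), fun x hx => ?_⟩
  have g1 : x1 ≤ x := (le_max_left _ _).trans ((le_max_left _ _).trans hx)
  have g2 : x2 ≤ x := (le_max_right _ _).trans ((le_max_left _ _).trans hx)
  have g3 : L + 1 ≤ x := (le_max_right _ _).trans hx
  obtain ⟨y, hy0, hyx, hylog⟩ := hx1 x g1
  obtain ⟨hl1, hl2, hl3⟩ := hx2 x g2
  obtain ⟨T, hT1, hT2⟩ := hcore y hy0 x hyx
  have hcard := card_le ha hk hodd hbe T hT1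
  set E := (good 𝒯 L c b ρ 1 x).card with hE
  have hx0 : (1 : ℝ) ≤ x := by exact_mod_cast (by omega : 1 ≤ x)
  have hs0 : 0 < Real.sqrt (x : ℝ) := Real.sqrt_pos.2 (by linarith)
  have hs1 : 1 ≤ Real.sqrt (x : ℝ) := Real.one_le_sqrt.2 hx0
  set lx := Real.log (x : ℝ) with hlx
  set ll := Real.log lx with hll
  have hlx0 : 0 < lx := by linarith
  have hll1 : 1 ≤ ll := (le_max_left _ _).trans hl1
  have hll2 : 16 / (δ * β ^ m) ≤ ll := (le_max_right _ _).trans hl1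
  -- the square root
  have hsq : ((Nat.sqrt (24 * (x + L) + 1) : ℕ) : ℝ) + 1 ≤ 8 * Real.sqrt x := by
    have h1 : ((Nat.sqrt (24 * (x + L) + 1) : ℕ) : ℝ) ≤ 7 * Real.sqrt x := by
      have h2 : ((Nat.sqrt (24 * (x + L) + 1) : ℕ) : ℝ) ^ 2 ≤ 49 * x := by
        have h3 : Nat.sqrt (24 * (x + L) + 1) ^ 2 ≤ 49 * x := by
          have := Nat.sqrt_le' (24 * (x + L) + 1)
          omega
        exact_mod_cast h3
      have h4 : Real.sqrt x ^ 2 = x := Real.sq_sqrt (by linarith)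
      have h5 : ((Nat.sqrt (24 * (x + L) + 1) : ℕ) : ℝ) ^ 2 ≤ (7 * Real.sqrt x) ^ 2 := by
        rw [mul_pow, h4]
        linarith
      exact le_of_sq_le_sq h5 (by positivity)
    linarith
  have hcR : (T.card : ℝ) ≤ ((E : ℝ) + L) * (8 * Real.sqrt x) := by
    calc (T.card : ℝ) ≤ ((E : ℝ) + L) * (((Nat.sqrt (24 * (x + L) + 1) : ℕ) : ℝ) + 1) := by
          exact_mod_cast hcard
      _ ≤ _ := mul_le_mul_of_nonneg_left hsq (by positivity)
  -- the power of `log y`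
  have hylog' : β * ll ≤ Real.log y := by
    refine le_trans (le_of_eq ?_) hylog
    rw [hβ]
    ring
  have hpow : β ^ m * ll ^ (K + 1) ≤ Real.log y ^ m := by
    calc β ^ m * ll ^ (K + 1) ≤ β ^ m * ll ^ m :=
          mul_le_mul_of_nonneg_left (pow_le_pow_right₀ hll1 hm) (by positivity)
      _ = (β * ll) ^ m := by rw [mul_pow]
      _ ≤ Real.log y ^ m := pow_le_pow_left₀ (by positivity) hylog' m
  have h1 : δ * (x / lx) * (β ^ m * ll ^ (K + 1)) ≤ ((E : ℝ) + L) * (8 * Real.sqrt x) :=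
    (mul_le_mul_of_nonneg_left hpow (by positivity)).trans (hT2.trans hcR)
  have hsx : Real.sqrt x * Real.sqrt x = x := Real.mul_self_sqrt (by linarith)
  set s := Real.sqrt (x : ℝ) with hs
  have h2 : δ * β ^ m * ll / 8 * (s * ll ^ K / lx) ≤ (E : ℝ) + L := by
    have h3 : δ * β ^ m * ll / 8 * (s * ll ^ K / lx) * (8 * s) =
        δ * (x / lx) * (β ^ m * ll ^ (K + 1)) := by
      rw [← hsx, pow_succ]
      ring
    rw [← h3] at h1
    exact le_of_mul_le_mul_right h1 (by positivity)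
  have h4 : 2 ≤ δ * β ^ m * ll / 8 := by
    rw [div_le_iff₀ (by positivity)] at hll2
    linarith
  have h5 : (L : ℝ) ≤ s * ll ^ K / lx := by
    refine hl3.trans ?_
    apply div_le_div_of_nonneg_right _ hlx0.le
    exact le_mul_of_one_le_right hs0.le (one_le_pow₀ hll1)
  have h6 : 0 ≤ s * ll ^ K / lx := by positivity
  nlinarith
where
  le_of_sq_le_sq {a b : ℝ} (h : a ^ 2 ≤ b ^ 2) (hb : 0 ≤ b) : a ≤ b := by
    by_contra hc
    push Not at hc
    nlinarith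

/-- the pattern multiplied by `1 + X ^ (2 ^ b)` -/
def twist (L b : ℕ) (c : ℕ → ℕ → ZMod 2) (t i : ℕ) : ZMod 2 :=
  (if i ≤ L then c t i else 0) + (if 2 ^ b ≤ i ∧ i - 2 ^ b ≤ L then c t (i - 2 ^ b) else 0)

lemma sum_shift (L D n : ℕ) (g : ℕ → ZMod 2) (h : ℕ → ZMod 2) :
    ∑ i ∈ Finset.range (L + D + 1), (if D ≤ i ∧ i - D ≤ L then g (i - D) else 0) * h (n + i) =
      ∑ i ∈ Finset.range (L + 1), g i * h (n + D + i) := by
  have h1 : L + D + 1 = D + (L + 1) := by ring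
  rw [h1, Finset.sum_range_add]
  rw [Finset.sum_eq_zero, zero_add]
  · refine Finset.sum_congr rfl fun i hi => ?_
    rw [Finset.mem_range] at hi
    rw [if_pos ⟨by omega, by omega⟩, Nat.add_sub_cancel_left]
    congr 2
    ring
  · intro i hi
    rw [Finset.mem_range] at hi
    rw [if_neg (by omega), zero_mul]

lemma sum_trunc (L D n : ℕ) (g : ℕ → ZMod 2) (h : ℕ → ZMod 2) :
    ∑ i ∈ Finset.range (L + D + 1), (if i ≤ L then g i else 0) * h (n + i) =
      ∑ i ∈ Finset.range (L + 1), g i * h (n + i) := by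
  have h1 : L + D + 1 = (L + 1) + D := by ring
  rw [h1, Finset.sum_range_add]
  have h2 : ∑ i ∈ Finset.range D, (if L + 1 + i ≤ L then g (L + 1 + i) else 0) *
      h (n + (L + 1 + i)) = 0 := by
    apply Finset.sum_eq_zero
    intro i _
    rw [if_neg (by omega), zero_mul]
  rw [h2, add_zero]
  refine Finset.sum_congr rfl fun i hi => ?_
  rw [Finset.mem_range] at hi
  rw [if_pos (by omega)]

lemma pat_twist (𝒯 : Finset ℕ) (L b : ℕ) (c : ℕ → ℕ → ZMod 2) (n : ℕ) :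
    pat 𝒯 (L + 2 ^ b) (twist L b c) n = pat 𝒯 L c n + pat 𝒯 L c (n + 2 ^ b) := by
  unfold pat twist
  rw [← Finset.sum_add_distrib]
  refine Finset.sum_congr rfl fun t _ => ?_
  rw [← sum_trunc L (2 ^ b) n (c t) (fun j => (mp t j : ZMod 2)),
    ← sum_shift L (2 ^ b) n (c t) (fun j => (mp t j : ZMod 2)), ← Finset.sum_add_distrib]
  refine Finset.sum_congr rfl fun i _ => ?_
  rw [add_mul]

/-- **all patterns** -/
theorem main (r : ℕ) (𝒯 : Finset ℕ) (h𝒯 : ∀ t ∈ 𝒯, t % 2 = 1 ∧ t % 3 = r) (L : ℕ)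
    (c : ℕ → ℕ → ZMod 2) (hc : ∃ t ∈ 𝒯, ∃ i ≤ L, c t i ≠ 0) (κ : ZMod 2) (b ρ K : ℕ) :
    ∃ x0 : ℕ, ∀ x : ℕ, x0 ≤ x →
      Real.sqrt x * Real.log (Real.log x) ^ K / Real.log x ≤ ((good 𝒯 L c b ρ κ x).card : ℝ) := by
  classical
  rcases zmod_cases κ with rfl | rfl
  swap
  · exact main_one r 𝒯 h𝒯 L c hc b ρ K
  -- the twisted pattern is not zero
  have hc' : ∃ t ∈ 𝒯, ∃ i ≤ L + 2 ^ b, twist L b c t i ≠ 0 := by
    obtain ⟨t, ht, hi⟩ := hc
    obtain ⟨i, ⟨h1, h2⟩, hmin⟩ : ∃ i, (i ≤ L ∧ c t i ≠ 0) ∧ ∀ j < i, ¬ (j ≤ L ∧ c t j ≠ 0) :=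
      ⟨Nat.find hi, Nat.find_spec hi, fun j hj => Nat.find_min hi hj⟩
    refine ⟨t, ht, i, h1.trans (Nat.le_add_right _ _), ?_⟩
    unfold twist
    rw [if_pos h1]
    split_ifs with h3
    · have h4 : 0 < 2 ^ b := by positivity
      have h5 := hmin (i - 2 ^ b) (by omega)
      push Not at h5
      rw [h5 h3.2, add_zero]
      exact h2
    · rw [add_zero]
      exact h2
  obtain ⟨x1, hx1⟩ := main_one r 𝒯 h𝒯 (L + 2 ^ b) (twist L b c) hc' b ρ (K + 1)
  have hsl : Tendsto (fun x : ℕ => Real.sqrt (x : ℝ) / Real.log x) atTop atTop := by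
    have h1 : Tendsto (fun x : ℝ => Real.log x / x ^ (1 / 2 : ℝ)) atTop (𝓝[>] 0) := by
      rw [tendsto_nhdsWithin_iff]
      refine ⟨(isLittleO_log_rpow_atTop (by norm_num : (0 : ℝ) < 1 / 2)).tendsto_div_nhds_zero, ?_⟩
      filter_upwards [eventually_gt_atTop 1] with x hx
      have : 0 < Real.log x := Real.log_pos hx
      have hx0 : 0 < x := by linarith
      exact Set.mem_Ioi.2 (by positivity)
    have h2 := h1.inv_tendsto_nhdsGT_zero.comp (tendsto_natCast_atTop_atTop (R := ℝ))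
    refine h2.congr fun x => ?_
    simp only [Function.comp, Pi.inv_apply]
    rw [inv_div, ← Real.sqrt_eq_rpow]
  obtain ⟨x2, hx2⟩ := eventually_atTop.1 ((loglog_tend.eventually_ge_atTop 3).and
    ((log_tend.eventually_ge_atTop 1).and (hsl.eventually_ge_atTop ((2 : ℝ) ^ b))))
  refine ⟨max x1 x2, fun x hx => ?_⟩
  have g1 := hx1 x ((le_max_left _ _).trans hx)
  obtain ⟨hl1, hl2, hl3⟩ := hx2 x ((le_max_right _ _).trans hx)
  -- comparison of the counts
  have hsub : good 𝒯 (L + 2 ^ b) (twist L b c) b ρ 1 x ⊆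
      good 𝒯 L c b ρ 0 x ∪ ((good 𝒯 L c b ρ 0 x ∪ Finset.Ioc x (x + 2 ^ b)).filter
        (fun n => 2 ^ b ≤ n)).image (fun n => n - 2 ^ b) := by
    intro n hn
    unfold good at hn ⊢
    rw [Finset.mem_filter, Finset.mem_range, pat_twist] at hn
    obtain ⟨h1, h2, h3⟩ := hn
    rw [Finset.mem_union]
    rcases zmod_cases (pat 𝒯 L c n) with h4 | h4
    · left
      rw [Finset.mem_filter, Finset.mem_range]
      exact ⟨h1, h2, h4⟩
    · right
      have h5 : pat 𝒯 L c (n + 2 ^ b) = 0 := by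
        rw [h4] at h3
        rcases zmod_cases (pat 𝒯 L c (n + 2 ^ b)) with h6 | h6
        · exact h6
        · rw [h6] at h3
          exact absurd h3 (by decide)
      rw [Finset.mem_image]
      refine ⟨n + 2 ^ b, ?_, by simp⟩
      rw [Finset.mem_filter, Finset.mem_union, Finset.mem_filter, Finset.mem_range,
        Finset.mem_Ioc]
      refine ⟨?_, by omega⟩
      rcases le_or_gt (n + 2 ^ b) x with h7 | h7
      · left
        refine ⟨by omega, ?_, h5⟩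
        rw [Nat.add_mod_right]
        exact h2
      · right
        exact ⟨h7, by omega⟩
  have hcard : (good 𝒯 (L + 2 ^ b) (twist L b c) b ρ 1 x).card ≤
      2 * (good 𝒯 L c b ρ 0 x).card + 2 ^ b := by
    refine (Finset.card_le_card hsub).trans ?_
    refine (Finset.card_union_le _ _).trans ?_
    have h1 := (Finset.card_image_le (s := (good 𝒯 L c b ρ 0 x ∪ Finset.Ioc x (x + 2 ^ b)).filter
      (fun n => 2 ^ b ≤ n)) (f := fun n => n - 2 ^ b))
    have h2 := Finset.card_filter_le (good 𝒯 L c b ρ 0 x ∪ Finset.Ioc x (x + 2 ^ b))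
      (fun n => 2 ^ b ≤ n)
    have h3 := Finset.card_union_le (good 𝒯 L c b ρ 0 x) (Finset.Ioc x (x + 2 ^ b))
    rw [Nat.card_Ioc, Nat.add_sub_cancel_left] at h3
    omega
  have hcR : ((good 𝒯 (L + 2 ^ b) (twist L b c) b ρ 1 x).card : ℝ) ≤
      2 * (good 𝒯 L c b ρ 0 x).card + 2 ^ b := by exact_mod_cast hcard
  have hlx0 : 0 < Real.log (x : ℝ) := by linarith
  set ll := Real.log (Real.log (x : ℝ)) with hll
  set W := Real.sqrt x * ll ^ K / Real.log x with hW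
  have hW1 : (2 : ℝ) ^ b ≤ W := by
    refine hl3.trans ?_
    apply div_le_div_of_nonneg_right _ hlx0.le
    exact le_mul_of_one_le_right (Real.sqrt_nonneg _) (one_le_pow₀ (by linarith))
  have hW0 : 0 ≤ W := le_trans (by positivity) hW1
  have hW2 : Real.sqrt x * ll ^ (K + 1) / Real.log x = ll * W := by
    rw [hW, pow_succ]
    ring
  rw [hW2] at g1
  nlinarith

end Pool.Agent.Q41.PT
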