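import Pool.Agent.Q41.PT.Count
import Pool.Agent.Q41.PT.Crt2
import Pool.Agent.H307R2.OP.ES

set_option autoImplicit false

/-!
# Products of many primes `≡ 5 (mod 8)` in a progression with a growing modulus
-/

namespace Pool.Agent.Q41.PT

open Finset Filter Topology

/-- primes in progressions with growing modulus -/
lemma ap_low_unif : ∃ y0 : ℕ, ∀ y : ℕ, y0 ≤ y → ∀ Q : ℕ, 1 ≤ Q → (Q : ℝ) ≤ Real.log y →
    ∀ a : ℕ, a < Q → a.Coprime Q → (y : ℝ) / (4 * Q * Real.log y) ≤ H343E.piAP y Q a := by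
  obtain ⟨x0, h⟩ := Pool.Agent.H387R2.Uni.siegel
  have h1 := (Metric.tendsto_atTop.1 pi_tend) (1 / 2) (by norm_num)
  obtain ⟨n1, hn1⟩ := h1
  obtain ⟨n3, hn3⟩ := eventually_atTop.1 (log_tend.eventually_ge_atTop (2 : ℝ))
  refine ⟨max (max x0 1) (max n1 n3), fun y hy Q hQ hQy a ha hac => ?_⟩
  have g0 : x0 ≤ y := (le_max_left _ _).trans ((le_max_left _ _).trans hy)
  have g1 : 1 ≤ y := (le_max_right _ _).trans ((le_max_left _ _).trans hy)
  have g2 : n1 ≤ y := (le_max_left _ _).trans ((le_max_right _ _).trans hy)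
  have g3 : n3 ≤ y := (le_max_right _ _).trans ((le_max_right _ _).trans hy)
  have hL : 2 ≤ Real.log (y : ℝ) := hn3 y g3
  have hy0 : (0 : ℝ) < y := by exact_mod_cast g1
  have hQ0 : (1 : ℝ) ≤ Q := by exact_mod_cast hQ
  have hφ : (1 : ℝ) ≤ (Nat.totient Q : ℝ) := by exact_mod_cast Nat.totient_pos.2 hQ
  have hφQ : (Nat.totient Q : ℝ) ≤ Q := by exact_mod_cast Nat.totient_le Q
  have h8 := h y g0 Q hQ (by nlinarith) a ha hac
  have k1 := hn1 y g2
  rw [Real.dist_eq] at k1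
  have k2 := (abs_lt.1 k1).1
  set l := Real.log (y : ℝ) with hl
  have hl0 : 0 < l := by linarith
  have k3 : (y : ℝ) / (2 * l) ≤ H343E.pi1 y := by
    have : (1 : ℝ) / 2 ≤ H343E.pi1 y * l / y := by linarith
    rw [le_div_iff₀ hy0] at this
    rw [div_le_iff₀ (by positivity)]
    linarith
  have k4 : (y : ℝ) / (2 * Q * l) ≤ H343E.pi1 y / (Nat.totient Q : ℝ) := by
    rw [le_div_iff₀ (by linarith)]
    calc (y : ℝ) / (2 * Q * l) * (Nat.totient Q : ℝ) ≤ (y : ℝ) / (2 * Q * l) * Q :=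
          mul_le_mul_of_nonneg_left hφQ (by positivity)
      _ = (y : ℝ) / (2 * l) := by field_simp
      _ ≤ H343E.pi1 y := k3
  have k5 : (y : ℝ) / l ^ 6 ≤ (y : ℝ) / (4 * Q * l) := by
    apply div_le_div_of_nonneg_left hy0.le (by positivity)
    have e1 : (16 : ℝ) ≤ l ^ 4 := by
      calc (16 : ℝ) = 2 ^ 4 := by norm_num
        _ ≤ l ^ 4 := pow_le_pow_left₀ (by norm_num) hL 4
    calc 4 * (Q : ℝ) * l ≤ 16 * l * l := by nlinarith
      _ ≤ l ^ 4 * l * l := by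
          apply mul_le_mul_of_nonneg_right _ hl0.le
          exact mul_le_mul_of_nonneg_right e1 hl0.le
      _ = l ^ 6 := by ring
  have k6 := (abs_le.1 h8).1
  have k7 : (y : ℝ) / (2 * Q * l) = 2 * ((y : ℝ) / (4 * Q * l)) := by
    field_simp
    norm_num
  linarith

/-- the last primes -/
lemma last_low : ∃ x0 : ℕ, ∀ x : ℕ, x0 ≤ x → ∀ Q : ℕ, 1 ≤ Q → (Q : ℝ) ≤ Real.log x / 3 →
    ∀ d P : ℕ, 0 < P → (2 ^ d * P) ^ 2 ≤ x → ∀ a : ℕ, a < Q → a.Coprime Q →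
    (x : ℝ) / (16 * Q * P * Real.log x) ≤
      (((Ioc (2 ^ d) (x / P)).filter fun p => p.Prime ∧ p ≡ a [MOD Q]).card : ℝ) := by
  obtain ⟨y0, hy0⟩ := ap_low_unif
  have hl : ∃ n1 : ℕ, ∀ x : ℕ, n1 ≤ x → 16 * Real.log x * Real.log x ≤ Real.sqrt x := by
    have h1 := (isLittleO_log_rpow_atTop (show (0 : ℝ) < 1 / 4 by norm_num)).bound
      (show (0 : ℝ) < 1 / 4 by positivity)
    obtain ⟨r, hr⟩ := eventually_atTop.1 h1
    refine ⟨⌈max r 1⌉₊, fun x hx => ?_⟩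
    have hx1 : max r 1 ≤ (x : ℝ) := (Nat.le_ceil _).trans (by exact_mod_cast hx)
    have h2 := hr x ((le_max_left _ _).trans hx1)
    have hx2 : (1 : ℝ) ≤ x := (le_max_right _ _).trans hx1
    have hlog0 : 0 ≤ Real.log (x : ℝ) := Real.log_nonneg hx2
    rw [Real.norm_of_nonneg hlog0, Real.norm_of_nonneg (by positivity)] at h2
    have h3 : Real.sqrt (x : ℝ) = (x : ℝ) ^ (1 / 4 : ℝ) * (x : ℝ) ^ (1 / 4 : ℝ) := by
      rw [← Real.rpow_add (by linarith), Real.sqrt_eq_rpow]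
      norm_num
    rw [h3]
    have h4 : 0 ≤ (x : ℝ) ^ (1 / 4 : ℝ) := by positivity
    nlinarith
  obtain ⟨n1, hn1⟩ := hl
  obtain ⟨n2, hn2⟩ := eventually_atTop.1 (log_tend.eventually_ge_atTop (6 : ℝ))
  refine ⟨max (max n1 n2) ((2 * y0 + 4) ^ 2), fun x hx Q hQ hQx d P hP hsq a ha hac => ?_⟩
  have g1 : n1 ≤ x := (le_max_left _ _).trans ((le_max_left _ _).trans hx)
  have g2 : n2 ≤ x := (le_max_right _ _).trans ((le_max_left _ _).trans hx)
  have g3 : (2 * y0 + 4) ^ 2 ≤ x := (le_max_right _ _).trans hx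
  have hlx : 6 ≤ Real.log (x : ℝ) := hn2 x g2
  have hx16 : 4 ^ 2 ≤ x := (Nat.pow_le_pow_left (by omega) 2).trans g3
  have hxR : (0 : ℝ) < x := by exact_mod_cast (by omega : 0 < x)
  have hQ0 : (1 : ℝ) ≤ Q := by exact_mod_cast hQ
  have hP0 : (1 : ℝ) ≤ P := by exact_mod_cast hP
  have hs0 : 0 < Real.sqrt x := Real.sqrt_pos.2 hxR
  have hsx : Real.sqrt x * Real.sqrt x = x := Real.mul_self_sqrt hxR.le
  have hsq' : (2 : ℝ) ^ d * P ≤ Real.sqrt x := by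
    apply Real.le_sqrt_of_sq_le
    exact_mod_cast hsq
  have h2d : (1 : ℝ) ≤ 2 ^ d := one_le_pow₀ (by norm_num)
  have hPs : (P : ℝ) ≤ Real.sqrt x := by nlinarith
  have hs4 : 2 * (y0 : ℝ) + 4 ≤ Real.sqrt x := by
    apply Real.le_sqrt_of_sq_le
    exact_mod_cast g3
  -- the size of `x / P`
  set y := x / P with hy
  have hlt : (x : ℝ) < ((y : ℝ) + 1) * P := by
    have h1 : x < (y + 1) * P := by
      have := Nat.lt_div_mul_add (a := x) hP
      rw [← hy] at this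
      nlinarith
    exact_mod_cast h1
  have hys : Real.sqrt x < (y : ℝ) + 1 := by
    by_contra hcon
    push Not at hcon
    nlinarith
  have hyhalf : (x : ℝ) / (2 * P) ≤ (y : ℝ) := by
    rw [div_le_iff₀ (by positivity)]
    nlinarith
  have hys2 : Real.sqrt x / 2 ≤ (y : ℝ) := by linarith
  have hyy0 : y0 ≤ y := by
    have : (y0 : ℝ) ≤ y := by linarith
    exact_mod_cast this
  have hypos : (0 : ℝ) < y := by linarith
  have hlogle : Real.log (y : ℝ) ≤ Real.log x := by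
    apply Real.log_le_log hypos
    exact_mod_cast Nat.div_le_self x P
  have hloglow : Real.log x / 3 ≤ Real.log (y : ℝ) := by
    have h1 : Real.log (Real.sqrt x / 2) ≤ Real.log y := Real.log_le_log (by positivity) hys2
    rw [Real.log_div hs0.ne' (by norm_num), Real.log_sqrt hxR.le] at h1
    have := Real.log_two_lt_d9
    linarith
  have hlow := hy0 y hyy0 Q hQ (hQx.trans hloglow) a ha hac
  have hcard : H343E.piAP y Q a ≤ 2 ^ d +
      (((Ioc (2 ^ d) y).filter fun p => p.Prime ∧ p ≡ a [MOD Q]).card : ℝ) := by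
    unfold H343E.piAP
    have hsub : (Icc 1 y).filter (fun p => p.Prime ∧ p ≡ a [MOD Q]) ⊆
        Icc 1 (2 ^ d) ∪ (Ioc (2 ^ d) y).filter fun p => p.Prime ∧ p ≡ a [MOD Q] := by
      intro p hp
      rw [mem_filter, mem_Icc] at hp
      rw [mem_union, mem_Icc, mem_filter, mem_Ioc]
      rcases le_or_gt p (2 ^ d) with h | h
      · exact Or.inl ⟨hp.1.1, h⟩
      · exact Or.inr ⟨⟨h, hp.1.2⟩, hp.2⟩
    have h1 := (Finset.card_le_card hsub).trans (Finset.card_union_le _ _)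
    rw [Nat.card_Icc, Nat.add_sub_cancel] at h1
    exact_mod_cast h1
  have hlogy : 0 < Real.log (y : ℝ) := by linarith
  have h1 : (x : ℝ) / (2 * P) / (4 * Q * Real.log x) ≤ H343E.piAP y Q a := by
    refine le_trans ?_ hlow
    apply div_le_div₀ hypos.le hyhalf (by positivity)
    exact mul_le_mul_of_nonneg_left hlogle (by positivity)
  have h2 : (2 : ℝ) ^ d ≤ (x : ℝ) / (16 * Q * P * Real.log x) := by
    rw [le_div_iff₀ (by positivity)]
    have h3 := hn1 x g1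
    have h4 : 16 * (Q : ℝ) * Real.log x ≤ Real.sqrt x := by nlinarith
    calc (2 : ℝ) ^ d * (16 * Q * P * Real.log x)
        = (2 ^ d * P) * (16 * Q * Real.log x) := by ring
      _ ≤ Real.sqrt x * Real.sqrt x := mul_le_mul hsq' h4 (by positivity) hs0.le
      _ = x := hsx
  have h3 : (x : ℝ) / (2 * P) / (4 * Q * Real.log x) =
      2 * ((x : ℝ) / (16 * Q * P * Real.log x)) := by
    field_simp
    norm_num
  rw [h3] at h1
  linarith

/-! ### the tuples -/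

/-- the tuples: `h` primes `≡ 5 (mod 8)` from `(2 ^ a, 2 ^ d]`, and a large prime -/
noncomputable def Tp2 (Q A x a d h : ℕ) : Finset (Σ _ : Finset ℕ, ℕ) :=
  (powersetCard h (RB a d 5)).sigma fun s =>
    (Ioc (2 ^ d) (x / ∏ q ∈ s, q)).filter fun p => p.Prime ∧ p ≡ cls Q A (∏ q ∈ s, q) [MOD Q]

lemma mem_Tp2 {Q A x a d h : ℕ} {t : Σ _ : Finset ℕ, ℕ} : t ∈ Tp2 Q A x a d h ↔
    (t.1 ⊆ RB a d 5 ∧ t.1.card = h) ∧ (2 ^ d < t.2 ∧ t.2 ≤ x / ∏ q ∈ t.1, q) ∧ t.2.Prime ∧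
      t.2 ≡ cls Q A (∏ q ∈ t.1, q) [MOD Q] := by
  unfold Tp2
  rw [Finset.mem_sigma, mem_powersetCard, mem_filter, mem_Ioc]

lemma Tp2_sub {Q A x a d h : ℕ} {t t' : Σ _ : Finset ℕ, ℕ} (ht : t ∈ Tp2 Q A x a d h)
    (ht' : t' ∈ Tp2 Q A x a d h) (he : (∏ q ∈ t.1, q) * t.2 = (∏ q ∈ t'.1, q) * t'.2) :
    t.1 ⊆ t'.1 := by
  rw [mem_Tp2] at ht ht'
  intro q hq
  have hq1 := mem_RB.1 (ht.1.1 hq)
  have hd : q ∣ (∏ q ∈ t'.1, q) * t'.2 := by
    rw [← he]
    exact (Finset.dvd_prod_of_mem (fun q => q) hq).mul_right _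
  rcases (Nat.Prime.dvd_mul hq1.2.1).1 hd with h1 | h1
  · obtain ⟨q', hq', hj⟩ := (Prime.dvd_finsetProd_iff hq1.2.1.prime _).mp h1
    have hq2 := mem_RB.1 (ht'.1.1 hq')
    have he : q = q' := (Nat.prime_dvd_prime_iff_eq hq1.2.1 hq2.2.1).mp hj
    rw [he]
    exact hq'
  · exfalso
    have he : q = t'.2 := (Nat.prime_dvd_prime_iff_eq hq1.2.1 ht'.2.2.1).mp h1
    have h2 := hq1.1.2
    have h3 := ht'.2.1.1
    omega

lemma Tp2_injOn (Q A x a d h : ℕ) :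
    Set.InjOn (fun t : Σ _ : Finset ℕ, ℕ => (∏ q ∈ t.1, q) * t.2) (Tp2 Q A x a d h) := by
  rintro ⟨s, p⟩ ht ⟨s', p'⟩ ht' he
  have h1 : s = s' := Finset.Subset.antisymm (Tp2_sub ht ht' he) (Tp2_sub ht' ht he.symm)
  subst h1
  simp only at he
  have hpos : 0 < ∏ q ∈ s, q :=
    Finset.prod_pos fun q hq => (mem_RB.1 ((mem_Tp2.1 ht).1.1 hq)).2.1.pos
  have h2 : p = p' := Nat.eq_of_mul_eq_mul_left hpos he
  rw [h2]

lemma prod_five_mod (s : Finset ℕ) (hs : ∀ q ∈ s, q % 8 = 5) :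
    (∏ q ∈ s, q) % 8 = 5 ^ s.card % 8 := by
  classical
  induction s using Finset.induction_on with
  | empty => rfl
  | insert q s hq ih =>
    rw [Finset.prod_insert hq, Finset.card_insert_of_notMem hq, pow_succ']
    have h1 : q ≡ 5 [MOD 8] := hs q (Finset.mem_insert_self _ _)
    have h2 : ∏ q ∈ s, q ≡ 5 ^ s.card [MOD 8] := ih fun q' hq' => hs q' (Finset.mem_insert_of_mem hq')
    exact Nat.ModEq.mul h1 h2

/-- **the count** -/
theorem count_pow (L b : ℕ) : ∃ x0 i0 : ℕ, 1 ≤ i0 ∧ ∀ x : ℕ, x0 ≤ x → ∀ r h d a : ℕ,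
    (Qm L b r : ℝ) ≤ Real.log x / 3 → i0 ≤ a → a ≤ d → (h + 1) * d * 2 ≤ Nat.log 2 x →
    PiL L < 2 ^ a → (h : ℝ) / 2 ^ a ≤ (Real.log d - Real.log a) / 32 →
    ∀ A : ℕ, A.Coprime (Qm L b r) → ∃ T : Finset ℕ,
      (∀ N ∈ T, N ≤ x ∧ N % Qm L b r = A % Qm L b r ∧ x ≤ x ∧ ∃ (s : Finset ℕ) (p : ℕ),
        (∀ q ∈ s, q.Prime ∧ q % 8 = 5) ∧ s.card = h ∧ p.Prime ∧ p ∉ s ∧ 2 ^ d < p ∧
        N = (∏ q ∈ s, q) * p) ∧
      (x : ℝ) / (16 * Qm L b r * Real.log x) *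
        (((Real.log d - Real.log a) / 32 - h / 2 ^ a) ^ h / (h.factorial : ℝ)) ≤ (T.card : ℝ) := by
  obtain ⟨x0, hx0⟩ := last_low
  obtain ⟨i0, hi0, hmass⟩ := sum_RB_low
  refine ⟨max x0 2, i0, hi0, fun x hx r h d a hQx hia had hId hPi hha A hA => ?_⟩
  have hx1 : x0 ≤ x := (le_max_left _ _).trans hx
  have hx2 : 2 ≤ x := (le_max_right _ _).trans hx
  set Q := Qm L b r with hQ
  have hQ1 : 1 ≤ Q := one_le_Qm L b r
  -- the primes are coprime to `Q`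
  have hcop : ∀ s ⊆ RB a d 5, (∏ q ∈ s, q).Coprime Q := by
    intro s hs
    apply Nat.Coprime.prod_left
    intro q hq
    have hq1 := mem_RB.1 (hs hq)
    rw [hQ]
    unfold Qm
    apply Nat.Coprime.mul_right
    · apply Nat.Coprime.pow_right
      rw [Nat.coprime_primes hq1.2.1 Nat.prime_two]
      have := hq1.2.2
      omega
    · apply Nat.Coprime.pow_right
      rw [Nat.Prime.coprime_iff_not_dvd hq1.2.1]
      intro hd
      have := Nat.le_of_dvd (one_le_PiL L) hd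
      have := hq1.1.1
      omega
  refine ⟨(Tp2 Q A x a d h).image fun t => (∏ q ∈ t.1, q) * t.2, ?_, ?_⟩
  · intro N hN
    rw [mem_image] at hN
    obtain ⟨⟨s, p⟩, ht, rfl⟩ := hN
    rw [mem_Tp2] at ht
    obtain ⟨⟨hs1, hs2⟩, ⟨hp1, hp2⟩, hpp, hpc⟩ := ht
    simp only at hs1 hs2 hp1 hp2 hpp hpc ⊢
    have hpos : 0 < ∏ q ∈ s, q := Finset.prod_pos fun q hq => (mem_RB.1 (hs1 hq)).2.1.pos
    refine ⟨?_, ?_, le_rfl, s, p, fun q hq => (mem_RB.1 (hs1 hq)).2, hs2, hpp, ?_, hp1, rfl⟩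
    · rw [mul_comm]
      exact (Nat.le_div_iff_mul_le hpos).1 hp2
    · rw [← (cls_spec Q A _ hQ1 hA (hcop s hs1)).2.2]
      exact Nat.ModEq.mul_left _ hpc
    · intro hmem
      have := (mem_RB.1 (hs1 hmem)).1.2
      omega
  · rw [Finset.card_image_of_injOn (Tp2_injOn Q A x a d h)]
    unfold Tp2
    rw [Finset.card_sigma]
    push_cast
    have hlog : 0 ≤ Real.log (x : ℝ) := Real.log_nonneg (by exact_mod_cast (by omega : 1 ≤ x))
    have h1 : ∀ s ∈ powersetCard h (RB a d 5),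
        (x : ℝ) / (16 * Q * Real.log x) * ∏ q ∈ s, (1 / (q : ℝ)) ≤
        (((Ioc (2 ^ d) (x / ∏ q ∈ s, q)).filter fun p => p.Prime ∧
          p ≡ cls Q A (∏ q ∈ s, q) [MOD Q]).card : ℝ) := by
      intro s hs
      rw [mem_powersetCard] at hs
      have hpos : 0 < ∏ q ∈ s, q := Finset.prod_pos fun q hq => (mem_RB.1 (hs.1 hq)).2.1.pos
      have hle : ∏ q ∈ s, q ≤ (2 ^ d) ^ h := by
        rw [← hs.2]
        exact Finset.prod_le_pow_card _ _ _ fun q hq => (mem_RB.1 (hs.1 hq)).1.2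
      have hsq : (2 ^ d * ∏ q ∈ s, q) ^ 2 ≤ x := by
        calc (2 ^ d * ∏ q ∈ s, q) ^ 2 ≤ (2 ^ d * (2 ^ d) ^ h) ^ 2 :=
              Nat.pow_le_pow_left (Nat.mul_le_mul_left _ hle) 2
          _ = 2 ^ ((h + 1) * d * 2) := by rw [← pow_succ', ← pow_mul, ← pow_mul]; congr 1; ring
          _ ≤ 2 ^ Nat.log 2 x := Nat.pow_le_pow_right (by norm_num) hId
          _ ≤ x := Nat.pow_log_le_self 2 (by omega)
      have hcl := cls_spec Q A _ hQ1 hA (hcop s hs.1)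
      refine le_trans (le_of_eq ?_) (hx0 x hx1 Q hQ1 hQx d _ hpos hsq _ hcl.1 hcl.2.1)
      rw [Finset.prod_div_distrib, Finset.prod_const_one]
      push_cast
      rw [div_mul_div_comm, mul_one]
      congr 1
      ring
    refine le_trans ?_ (Finset.sum_le_sum h1)
    rw [← Finset.mul_sum]
    apply mul_le_mul_of_nonneg_left _ (by positivity)
    have hS := hmass a d hia had 5 (Or.inr rfl)
    have hτ : ∀ q ∈ RB a d 5, 0 ≤ 1 / (q : ℝ) ∧ 1 / (q : ℝ) ≤ 1 / 2 ^ a := by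
      intro q hq
      have hq1 := (mem_RB.1 hq).1.1
      refine ⟨by positivity, ?_⟩
      apply one_div_le_one_div_of_le (by positivity)
      exact_mod_cast hq1.le
    have e1 : (h : ℝ) / 2 ^ a = h * (1 / 2 ^ a) := by ring
    rw [e1] at hha ⊢
    have hes := Pool.Agent.H307R2.OP.es.low (RB a d 5) (fun q => 1 / (q : ℝ)) h (1 / 2 ^ a)
      (by positivity) hτ (hha.trans hS)
    refine le_trans ?_ hes
    apply div_le_div_of_nonneg_right _ (by positivity)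
    apply pow_le_pow_left₀ (by linarith)
    linarith

end Pool.Agent.Q41.PT
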