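import Pool.Agent.Q41.PT.Alg

set_option autoImplicit false

/-!
# Coefficients at numbers exactly divisible by a power of a prime `≡ 3 (mod 8)`
-/

namespace Pool.Agent.Q41.PT

open PowerSeries Pool.Agent.H397R2.PP Pool.Agent.H307R2.OP

/-- the Chebyshev relation for the Hecke operator at `ℓ` -/
theorem coeff_aeval (p r : ℕ) (hp : p.Prime) (hr : ¬ p ∣ r) (n : ℕ) :
    ∀ φ : S, coeff r ((Polynomial.aeval (TO p) (SP n)) φ) = coeff (p ^ n * r) φ := by
  induction n using Nat.strong_induction_on with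
  | _ n ih =>
    intro φ
    rcases n with _ | _ | n
    · rw [SP_zero]; simp
    · rw [show 0 + 1 = 1 from rfl, SP_one]
      simp only [Polynomial.aeval_X]
      show coeff r (Tp p φ) = _
      rw [Tp, coeff_mk, if_neg hr, add_zero, pow_one]
    · have h1 := ih (n + 1) (by omega) (TO p φ)
      have h2 := ih n (by omega) φ
      rw [show n + 1 + 1 = n + 2 from rfl, SP_succ, mul_comm]
      simp only [map_add, map_mul, Polynomial.aeval_X, LinearMap.add_apply, Module.End.mul_apply,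
        map_add]
      rw [h1, h2]
      show coeff _ (Tp p φ) + _ = _
      have h3 : p ∣ p ^ (n + 1) * r := ⟨p ^ n * r, by ring⟩
      rw [Tp, coeff_mk, if_pos h3]
      have h4 : p ^ (n + 1) * r / p = p ^ n * r := by
        rw [pow_succ, mul_comm (p ^ n) p, mul_assoc, Nat.mul_div_cancel_left _ hp.pos]
      rw [h4, add_assoc, CharTwo.add_self_eq_zero, add_zero]
      congr 1
      rw [show p * (p ^ (n + 1) * r) = p ^ (n + 2) * r by ring]

theorem coeff_iterate (p s r : ℕ) (hp : p.Prime) (hr : ¬ p ∣ r) (φ : S) :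
    coeff r ((TO p ^ (2 ^ s - 1)) φ) = coeff (p ^ (2 ^ s - 1) * r) φ := by
  rw [← coeff_aeval p r hp hr (2 ^ s - 1) φ, SP_pow_two, map_pow, Polynomial.aeval_X]

/-- vanishing of the coefficients -/
theorem coeff_vanish_pow (p s r C : ℕ) (hp : p.Prime) (hp3 : p % 8 = 3) (hr : ¬ p ∣ r)
    (hC : C ≤ 2 ^ s - 1) (G : S) (hG : G ∈ NIL.WW C) : coeff (p ^ (2 ^ s - 1) * r) G = 0 := by
  rw [← coeff_iterate p s r hp hr G]
  have h := OC.Fil_pow (fq_main.q3 p hp hp3).1 (2 ^ s - 1) C G hG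
  have e0 : ((C : ℤ) + ((2 ^ s - 1 : ℕ) : ℤ) * -1).toNat = 0 := by omega
  rw [e0] at h
  rw [OC.WW_zero h, map_zero]

/-- the content of `D ^ m`, `m = (4 ^ r - 1) / 3` -/
theorem mem_WW_m (r m : ℕ) (hr : 1 ≤ r) (hm : 3 * m + 1 = 4 ^ r) :
    Db ^ m ∈ NIL.WW (2 ^ r - 1) := by
  obtain ⟨k, rfl⟩ : ∃ k, r = k + 1 := ⟨r - 1, by omega⟩
  obtain ⟨m', h1, h2⟩ := NIL.cont_m k
  have hmm : m = 2 * m' + 1 := by omega
  rw [hmm]
  apply NIL.WW_mem
  have : 1 ≤ 2 ^ k := Nat.one_le_two_pow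
  rw [pow_succ]
  omega

theorem m_mod (r m : ℕ) (hr : 2 ≤ r) (hm : 3 * m + 1 = 4 ^ r) : m % 8 = 5 := by
  obtain ⟨t, rfl⟩ : ∃ t, r = t + 2 := ⟨r - 2, by omega⟩
  have h3 : 4 ^ (t + 2) = 16 * 4 ^ t := by rw [pow_add]; ring
  have h4 : ∃ s, 4 ^ t = 3 * s + 1 := by
    have h5 : 4 ^ t % 3 = 1 := by rw [Nat.pow_mod]; simp
    exact ⟨4 ^ t / 3, by have := Nat.div_add_mod (4 ^ t) 3; omega⟩
  obtain ⟨s, hs⟩ := h4
  rcases Nat.eq_zero_or_pos t with rfl | ht
  · norm_num at hm; omega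
  · obtain ⟨v, rfl⟩ : ∃ v, t = v + 1 := ⟨t - 1, by omega⟩
    rw [pow_succ] at hs
    omega

end Pool.Agent.Q41.PT
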