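import Pool.Agent.Q41.PT.Final
import Pool.Agent.Q41.PT.PCount
import Pool.Agent.Q41.PT.PowVan

set_option autoImplicit false

/-!
# Linear patterns of the partition function modulo 2: a power of the logarithm
-/

namespace Pool.Agent.Q41.PT

open PowerSeries Filter Topology Pool.Agent.H397R2.PP Pool.Agent.H307R2.OP

/-- one good number -/
lemma Hs_one {L i0 r m h : ℕ} (c : ℕ → ℕ → ZMod 2) (hr : 3 ≤ r) (hm : 3 * m + 1 = 4 ^ r)
    (hi0 : i0 ≤ L) (hc : c 1 i0 ≠ 0) (hh : h + 2 = 2 ^ (r - 1)) {N n p : ℕ} {s : Finset ℕ}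
    (hN : N = 8 * (n + i0) + m) (hNp : N = (∏ q ∈ s, q) * p)
    (hs : ∀ q ∈ s, q.Prime ∧ q % 8 = 5) (hsc : s.card = h) (hp : p.Prime) (hps : p ∉ s)
    (hv : ∀ i ≤ L, i ≠ i0 → ∃ v, ¬ pr L i ∣ v ∧ 8 * (n + i) + m = pr L i ^ (2 ^ r - 1) * v) :
    Hs (prs {1} L c fun _ => m) n = 1 := by
  have hk : ∀ t ∈ ({1} : Finset ℕ), 3 * (fun _ : ℕ => m) t + t = 1 * 2 ^ (2 * r) := by
    intro t ht
    rw [Finset.mem_singleton] at ht
    subst ht
    rw [pow_mul, one_mul]
    exact hm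
  have hmod := m_mod r m (by omega) hm
  have hodd : ∀ t ∈ ({1} : Finset ℕ), (fun _ : ℕ => m) t % 2 = 1 := by
    intro t _
    show m % 2 = 1
    omega
  rw [Hs_prs hk hodd, coeff_Pat_mul hk, Finset.sum_singleton, Finset.sum_eq_single i0]
  · have hc1 : c 1 i0 = 1 := by
      rcases zmod_cases (c 1 i0) with h | h
      · exact absurd h hc
      · exact h
    rw [hc1, one_mul, ← hN]
    -- the class of the large prime
    have heven : h % 2 = 0 := by
      obtain ⟨u, hu⟩ : ∃ u, r - 1 = u + 1 := ⟨r - 2, by omega⟩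
      rw [hu, pow_succ] at hh
      omega
    have h1 : (∏ q ∈ s, q) % 8 = 1 := by
      rw [prod_five_mod s fun q hq => (hs q hq).2, hsc]
      obtain ⟨u, hu⟩ : ∃ u, h = 2 * u := ⟨h / 2, by omega⟩
      rw [hu, pow_mul, Nat.pow_mod]
      norm_num
    have hp8 : p % 8 = 5 := by
      have h2 : N % 8 = 5 := by omega
      rw [hNp, Nat.mul_mod, h1, one_mul, Nat.mod_mod] at h2
      exact h2
    have hins : ∀ q ∈ insert p s, q.Prime ∧ q % 8 = 5 := by
      intro q hq
      rcases Finset.mem_insert.1 hq with rfl | hq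
      · exact ⟨hp, hp8⟩
      · exact hs q hq
    have h3 := oc_main r m hr hm (insert p s)
      (fun q hq => ⟨(hins q hq).1, Or.inr (hins q hq).2⟩)
      (by rw [Finset.card_insert_of_notMem hps, hsc]; omega)
      (Or.inl (by
        rw [Finset.card_eq_zero, Finset.filter_eq_empty_iff]
        intro q hq
        have := (hins q hq).2
        omega))
    rw [Finset.prod_insert hps, mul_comm, ← hNp] at h3
    exact h3
  · intro i hi hne
    rw [Finset.mem_range] at hi
    obtain ⟨v, hv1, hv2⟩ := hv i (by omega) hne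
    rw [hv2, coeff_vanish_pow (pr L i) r v (2 ^ r - 1) (pr_mem L i).1.1 (pr_mem L i).1.2 hv1 le_rfl
      _ (mem_WW_m r m (by omega) hm), mul_zero]
  · intro hnot
    exact absurd (Finset.mem_range.2 (by omega)) hnot

/-- the constant -/
noncomputable def C1 (L : ℕ) : ℝ := 1000 * (PiL L : ℝ) ^ 2

lemma one_le_PiLR (L : ℕ) : (1 : ℝ) ≤ PiL L := by exact_mod_cast one_le_PiL L

lemma C1_ge (L : ℕ) : 1000 ≤ C1 L := by
  unfold C1
  have := one_le_PiLR L
  nlinarith

lemma hsl_tend : Tendsto (fun x : ℕ => Real.sqrt (x : ℝ) / Real.log x) atTop atTop := by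
  have h1 : Tendsto (fun x : ℝ => Real.log x / x ^ (1 / 2 : ℝ)) atTop (𝓝[>] 0) := by
    rw [tendsto_nhdsWithin_iff]
    refine ⟨(isLittleO_log_rpow_atTop (by norm_num : (0 : ℝ) < 1 / 2)).tendsto_div_nhds_zero, ?_⟩
    filter_upwards [eventually_gt_atTop 1] with x hx
    have : 0 < Real.log x := Real.log_pos hx
    have hx0 : 0 < x := by linarith
    exact Set.mem_Ioi.2 (by positivity)
  have h2 := h1.inv_tendsto_nhdsGT_zero.comp (tendsto_natCast_atTop_atTop (R := ℝ))
  refine h2.congr fun x => ?_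
  simp only [Function.comp, Pi.inv_apply]
  rw [inv_div, ← Real.sqrt_eq_rpow]

/-- the choice of the number of primes -/
lemma exists_r (Λ : ℝ) (hΛ : 4 ≤ Λ) : ∃ r h : ℕ, 3 ≤ r ∧ h + 2 = 2 ^ (r - 1) ∧ 2 ≤ h ∧
    (h : ℝ) + 2 ≤ Λ ∧ Λ / 2 - 2 ≤ (h : ℝ) := by
  set N := ⌊Λ⌋₊ with hN
  have hN4 : 4 ≤ N := Nat.le_floor (by exact_mod_cast hΛ)
  have hNle : (N : ℝ) ≤ Λ := Nat.floor_le (by linarith)
  have hNlt : Λ < N + 1 := Nat.lt_floor_add_one Λ
  set u := Nat.log 2 N with hu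
  have h1 : 2 ^ u ≤ N := Nat.pow_log_le_self 2 (by omega)
  have h2 : N < 2 ^ (u + 1) := Nat.lt_pow_succ_log_self (by norm_num) N
  have hu2 : 2 ≤ u := by
    rw [hu]
    exact Nat.le_log_of_pow_le (by norm_num) (by norm_num; exact hN4)
  have h4 : 4 ≤ 2 ^ u := by
    calc 4 = 2 ^ 2 := by norm_num
      _ ≤ 2 ^ u := Nat.pow_le_pow_right (by norm_num) hu2
  refine ⟨u + 1, 2 ^ u - 2, by omega, by rw [Nat.add_sub_cancel]; omega, by omega, ?_, ?_⟩
  · have h3 : ((2 ^ u - 2 : ℕ) : ℝ) + 2 ≤ N := by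
      have : 2 ^ u - 2 + 2 ≤ N := by omega
      exact_mod_cast this
    linarith
  · have h3 : (N : ℝ) + 1 ≤ 2 * 2 ^ u := by
      have : N + 1 ≤ 2 * 2 ^ u := by rw [pow_succ] at h2; omega
      exact_mod_cast this
    have h5 : ((2 ^ u - 2 : ℕ) : ℝ) = 2 ^ u - 2 := by
      rw [Nat.cast_sub (by omega)]
      push_cast
      ring
    rw [h5]
    linarith

/-- **patterns of the partition function with value one** -/
theorem pow_one' (L b : ℕ) : ∃ δ : ℝ, 0 < δ ∧ δ ≤ 1 ∧ ∀ c : ℕ → ℕ → ZMod 2, (∃ i ≤ L, c 1 i ≠ 0) →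
    ∀ ρ : ℕ, ∃ x0 : ℕ, ∀ x : ℕ, x0 ≤ x →
      Real.sqrt x * Real.exp ((δ - 1) * Real.log (Real.log x)) ≤
        ((good {1} L c b ρ 1 x).card : ℝ) := by
  obtain ⟨x1, j0, hj0, hcount⟩ := count_pow L b
  set PP : ℝ := (PiL L : ℝ) with hPP
  have hPP1 : 1 ≤ PP := one_le_PiLR L
  have hC1 := C1_ge L
  have hC1' : C1 L = 1000 * PP ^ 2 := rfl
  set K0 : ℝ := 2 ^ (b + 3) * PP ^ 4 with hK0
  have hK01 : 1 ≤ K0 := by
    have h1 : (1 : ℝ) ≤ 2 ^ (b + 3) := one_le_pow₀ (by norm_num)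
    have h2 : (1 : ℝ) ≤ PP ^ 4 := one_le_pow₀ hPP1
    nlinarith
  set C3 : ℝ := 16 * K0 * 8 * Real.exp 2 with hC3
  have hC30 : 0 < C3 := by positivity
  refine ⟨1 / (4 * C1 L), by positivity, ?_, ?_⟩
  · rw [div_le_one (by positivity)]
    linarith
  intro c hc ρ
  obtain ⟨i0, hi0, hc0⟩ := hc
  set a : ℕ := j0 + PiL L with ha
  have ha1 : 1 ≤ a := by omega
  have hPa : PiL L < 2 ^ a := by
    have h1 : PiL L < 2 ^ (PiL L) := Nat.lt_two_pow_self
    have h2 : 2 ^ (PiL L) ≤ 2 ^ a := Nat.pow_le_pow_right (by norm_num) (by omega)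
    omega
  obtain ⟨x2, hx2⟩ := eventually_atTop.1 ((loglog_tend.eventually_ge_atTop
    (max (max (4 * C1 L) (6 * K0)) (max (10 * Real.log a + 100)
      (max (max (8 * (a : ℝ) + 4) (2 * C1 L * 2 ^ b)) (4 * C1 L * (2 * C3)))))).and
    (hsl_tend.eventually_ge_atTop (L : ℝ)))
  refine ⟨max (max x1 x2) (L + 4), fun x hx => ?_⟩
  have g1 : x1 ≤ x := (le_max_left _ _).trans ((le_max_left _ _).trans hx)
  have g2 : x2 ≤ x := (le_max_right _ _).trans ((le_max_left _ _).trans hx)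
  have g3 : L + 4 ≤ x := (le_max_right _ _).trans hx
  obtain ⟨hl, hsL⟩ := hx2 x g2
  set lx := Real.log (x : ℝ) with hlx
  set ll := Real.log lx with hll
  have l1 : 4 * C1 L ≤ ll := (le_max_left _ _).trans ((le_max_left _ _).trans hl)
  have l2 : 6 * K0 ≤ ll := (le_max_right _ _).trans ((le_max_left _ _).trans hl)
  have l3 : 10 * Real.log a + 100 ≤ ll := (le_max_left _ _).trans ((le_max_right _ _).trans hl)
  have l4 : 8 * (a : ℝ) + 4 ≤ ll := (le_max_left _ _).trans
    ((le_max_left _ _).trans ((le_max_right _ _).trans ((le_max_right _ _).trans hl)))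
  have l6 : 2 * C1 L * 2 ^ b ≤ ll := (le_max_right _ _).trans
    ((le_max_left _ _).trans ((le_max_right _ _).trans ((le_max_right _ _).trans hl)))
  have l5 : 4 * C1 L * (2 * C3) ≤ ll :=
    (le_max_right _ _).trans ((le_max_right _ _).trans ((le_max_right _ _).trans hl))
  have hll4000 : 4000 ≤ ll := by linarith
  have hlxpos : 0 < lx := by
    by_contra hcon
    push Not at hcon
    have : ll ≤ 0 ∨ lx = 0 ∨ True := Or.inr (Or.inr trivial)
    -- `log x ≥ 0`
    have hx1 : (1 : ℝ) ≤ x := by exact_mod_cast (by omega : 1 ≤ x)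
    have h0 : 0 ≤ lx := Real.log_nonneg hx1
    have h1 : lx = 0 := le_antisymm hcon h0
    rw [hll, h1, Real.log_zero] at hll4000
    linarith
  have hexp : Real.exp ll = lx := by rw [hll, Real.exp_log hlxpos]
  have hx1 : (1 : ℝ) ≤ x := by exact_mod_cast (by omega : 1 ≤ x)
  have hx0 : (0 : ℝ) < x := by linarith
  -- the parameters
  obtain ⟨r, h, hr, hh, hh2, hhle, hhge⟩ := exists_r (ll / C1 L) (by
    rw [le_div_iff₀ (by positivity)]; linarith)
  obtain ⟨m, hm⟩ : ∃ m, 3 * m + 1 = 4 ^ r := by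
    have h1 : 4 ^ r % 3 = 1 := by rw [Nat.pow_mod]; simp
    exact ⟨4 ^ r / 3, by have := Nat.div_add_mod (4 ^ r) 3; omega⟩
  have hhC : ((h : ℝ) + 2) * C1 L ≤ ll := by
    rwa [le_div_iff₀ (by positivity)] at hhle
  have hh0 : (2 : ℝ) ≤ h := by exact_mod_cast hh2
  have hhll : (h : ℝ) * 1000 ≤ ll := by nlinarith
  set I := Nat.log 2 x with hI
  have hI2 : x < 2 ^ (I + 1) := Nat.lt_pow_succ_log_self (by norm_num) x
  have hl2 := Real.log_two_lt_d9
  have hl2' := Real.log_two_gt_d9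
  have hlx4000 : 4000 ≤ lx := by
    rw [← hexp]
    have := Real.add_one_le_exp ll
    linarith
  have hIx : lx ≤ I := by
    have h1 : lx ≤ Real.log ((2 : ℝ) ^ (I + 1)) := by
      apply Real.log_le_log hx0
      exact_mod_cast hI2.le
    rw [Real.log_pow] at h1
    push_cast at h1
    nlinarith
  set d := Nat.sqrt I with hd
  have hdI : d * d ≤ I := Nat.sqrt_le I
  have hId : I < (d + 1) * (d + 1) := by have := Nat.lt_succ_sqrt I; rw [← hd] at this; exact this
  have hdlow : Real.exp (ll / 2) ≤ (d : ℝ) + 1 := by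
    have h1 : (I : ℝ) ≤ ((d : ℝ) + 1) * (d + 1) := by exact_mod_cast hId.le
    have h2 : Real.exp (ll / 2) * Real.exp (ll / 2) = lx := by
      rw [← Real.exp_add, ← hexp]
      congr 1
      ring
    by_contra hcon
    push Not at hcon
    have h3 : (0 : ℝ) ≤ (d : ℝ) + 1 := by positivity
    nlinarith
  -- `exp (ll / 2) ≥ 1 + ll / 2 + (ll / 2) ^ 2 / 2`
  have hquad : 1 + ll / 2 + (ll / 2) ^ 2 / 2 ≤ Real.exp (ll / 2) :=
    Real.quadratic_le_exp_of_nonneg (by linarith)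
  have hdll : 4 * ll ≤ (d : ℝ) := by nlinarith
  have had : a ≤ d := by
    have : (a : ℝ) ≤ d := by linarith
    exact_mod_cast this
  have hdbound : (h + 1) * d * 2 ≤ I := by
    have h1 : (h + 1) * 2 ≤ d := by
      have : ((h : ℝ) + 1) * 2 ≤ d := by linarith
      exact_mod_cast this
    calc (h + 1) * d * 2 = ((h + 1) * 2) * d := by ring
      _ ≤ d * d := Nat.mul_le_mul_right _ h1
      _ ≤ I := hdI
  have hdpos : (0 : ℝ) < d := by linarith
  have hlogd : ll / 2 - Real.log 2 ≤ Real.log d := by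
    have h1 : Real.exp (ll / 2) / 2 ≤ d := by linarith
    have h2 := Real.log_le_log (by positivity) h1
    rw [Real.log_div (Real.exp_pos _).ne' (by norm_num), Real.log_exp] at h2
    exact h2
  have hmain : ll / 200 ≤ (Real.log d - Real.log a) / 32 - h / 2 ^ a := by
    have h1 : (h : ℝ) / 2 ^ a ≤ h := div_le_self (by linarith) (one_le_pow₀ (by norm_num))
    linarith
  have hha : (h : ℝ) / 2 ^ a ≤ (Real.log d - Real.log a) / 32 := by linarith
  -- the modulus
  have hQ : (Qm L b r : ℝ) = K0 * (PP ^ 2) ^ h := by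
    unfold Qm
    push_cast
    have h1 : 2 ^ r = 2 * h + 4 := by
      obtain ⟨u, hu⟩ : ∃ u, r = u + 1 := ⟨r - 1, by omega⟩
      rw [hu, Nat.add_sub_cancel] at hh
      rw [hu, pow_succ]
      omega
    have h2 : PP ^ (2 * h + 4) = (PP ^ 2) ^ h * PP ^ 4 := by rw [pow_add, pow_mul]
    rw [h1, hK0, h2]
    ring
  have hQx : (Qm L b r : ℝ) ≤ lx / 3 := by
    rw [hQ]
    have h1 : (PP ^ 2) ^ h ≤ Real.exp (ll / 2) := by
      have h2 : PP ^ 2 ≤ Real.exp (PP ^ 2) := by
        have := Real.add_one_le_exp (PP ^ 2)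
        linarith
      calc (PP ^ 2) ^ h ≤ Real.exp (PP ^ 2) ^ h := pow_le_pow_left₀ (by positivity) h2 h
        _ = Real.exp (h * PP ^ 2) := by rw [← Real.exp_nat_mul]
        _ ≤ Real.exp (ll / 2) := by
            apply Real.exp_le_exp.2
            have h3 : (h : ℝ) * (1000 * PP ^ 2) ≤ ll := by
              rw [hC1'] at hhC
              nlinarith [sq_nonneg PP]
            nlinarith [sq_nonneg PP]
    have h2 : 3 * K0 ≤ Real.exp (ll / 2) := by
      have := Real.add_one_le_exp (ll / 2)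
      linarith
    have h3 : Real.exp (ll / 2) * Real.exp (ll / 2) = lx := by
      rw [← Real.exp_add, ← hexp]
      congr 1
      ring
    have h4 : 0 < Real.exp (ll / 2) := Real.exp_pos _
    calc K0 * (PP ^ 2) ^ h ≤ K0 * Real.exp (ll / 2) := mul_le_mul_of_nonneg_left h1 (by positivity)
      _ ≤ lx / 3 := by rw [← h3]; nlinarith
  have hmmod := m_mod r m (by omega) hm
  obtain ⟨A, hA1, hA2⟩ := exists_A L i0 b ρ r m (by omega) (by omega) hi0
  obtain ⟨T, hT1, hT2⟩ := hcount x g1 r h d a hQx (by omega) had hdbound hPa hha A hA1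
  -- the numbers `N` are large
  have hLP : L < PiL L := by
    have h1 : pr L 0 ∣ PiL L := Finset.dvd_prod_of_mem (fun i => pr L i) (Finset.mem_range.2 (by omega))
    have h2 := Nat.le_of_dvd (one_le_PiL L) h1
    have h3 := (pr_mem L 0).2
    omega
  have h2r : 2 ^ r = 2 * h + 4 := by
    obtain ⟨u, hu⟩ : ∃ u, r = u + 1 := ⟨r - 1, by omega⟩
    rw [hu, Nat.add_sub_cancel] at hh
    rw [hu, pow_succ]
    omega
  have hbig : 8 * i0 + m ≤ 2 ^ d := by
    have h1 : 3 * m + 1 = (2 * h + 4) ^ 2 := by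
      rw [hm, ← h2r, ← pow_mul, mul_comm, pow_mul]
      norm_num
    have h3 : (2 * h + 4) * 4 ≤ d := by
      have : (2 * (h : ℝ) + 4) * 4 ≤ d := by linarith
      exact_mod_cast this
    have h4 : 16 * a ≤ d := by
      have : 16 * (a : ℝ) ≤ d := by linarith
      exact_mod_cast this
    set u := d / 2 with hu
    have h5 : 2 * h + 4 ≤ u := by omega
    have h6 : 8 * i0 ≤ u := by omega
    have h7 : u < 2 ^ u := Nat.lt_two_pow_self
    have h8 : 2 ^ u * 2 ^ u ≤ 2 ^ d := by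
      rw [← pow_add]
      exact Nat.pow_le_pow_right (by norm_num) (by omega)
    have h9 : u * u ≤ 2 ^ u * 2 ^ u := Nat.mul_le_mul h7.le h7.le
    have h10 : (2 * h + 4) ^ 2 ≤ u * u := by
      rw [pow_two]
      exact Nat.mul_le_mul h5 h5
    have h11 : 4 * u ≤ u * u := Nat.mul_le_mul_right _ (by omega)
    omega
  have hT3 : ∀ N ∈ T, ∃ n, N = 8 * (n + i0) + m ∧ n % 2 ^ b = ρ % 2 ^ b ∧
      Hs (prs {1} L c fun _ => m) n = 1 := by
    intro N hN
    obtain ⟨hNx, hNA, -, s, p, hs1, hs2, hp, hps, hpd, hNp⟩ := hT1 N hN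
    have hpos : 0 < ∏ q ∈ s, q := Finset.prod_pos fun q hq => (hs1 q hq).1.pos
    have hNbig : 8 * i0 + m ≤ N := by
      have : p ≤ (∏ q ∈ s, q) * p := Nat.le_mul_of_pos_left _ hpos
      omega
    obtain ⟨n, hn1, hn2, hn3⟩ := hA2 N hNA hNbig
    exact ⟨n, hn1, hn2, Hs_one c hr hm hi0 hc0 hh hn1 hNp hs1 hs2 hp hps hn3⟩
  have hbr : b ≤ 2 * r := by
    have h1 : (2 : ℝ) ^ b ≤ 2 ^ (r - 1) := by
      have h2 : (2 : ℝ) ^ (r - 1) = h + 2 := by
        have : ((2 ^ (r - 1) : ℕ) : ℝ) = ((h + 2 : ℕ) : ℝ) := by rw [hh]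
        push_cast at this
        exact this
      rw [h2]
      have h3 : (2 : ℝ) ^ b ≤ ll / C1 L / 2 := by
        rw [div_div, le_div_iff₀ (by positivity)]
        linarith
      linarith
    have h2 : 2 ^ b ≤ 2 ^ (r - 1) := by exact_mod_cast h1
    have h3 := (Nat.pow_le_pow_iff_right (by norm_num)).1 h2
    omega
  have hk : ∀ t ∈ ({1} : Finset ℕ), 3 * (fun _ : ℕ => m) t + t = 1 * 2 ^ (2 * r) := by
    intro t ht
    rw [Finset.mem_singleton] at ht
    subst ht
    rw [pow_mul, one_mul]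
    exact hm
  have hodd : ∀ t ∈ ({1} : Finset ℕ), (fun _ : ℕ => m) t % 2 = 1 := by
    intro t _
    show m % 2 = 1
    omega
  have hcard := card_le (x := x) (Or.inl rfl) hk hodd hbr (T.image fun N => (N - m) / 8 - i0) (by
    intro n hn
    rw [Finset.mem_image] at hn
    obtain ⟨N, hNT, rfl⟩ := hn
    obtain ⟨n, h1, h2, h3⟩ := hT3 N hNT
    have h4 : (N - m) / 8 - i0 = n := by omega
    have h5 := (hT1 N hNT).1
    rw [h4]
    exact ⟨by omega, h2, h3⟩)
  rw [Finset.card_image_of_injOn (by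
    intro N hNT N' hNT' he
    obtain ⟨n, h1, -⟩ := hT3 N hNT
    obtain ⟨n', h1', -⟩ := hT3 N' hNT'
    simp only at he
    omega)] at hcard
  set E := (good {1} L c b ρ 1 x).card with hE
  have hs0 : 0 < Real.sqrt (x : ℝ) := Real.sqrt_pos.2 (by linarith)
  have hs1 : 1 ≤ Real.sqrt (x : ℝ) := Real.one_le_sqrt.2 hx1
  have hsq : ((Nat.sqrt (24 * (x + L) + 1) : ℕ) : ℝ) + 1 ≤ 8 * Real.sqrt x := by
    have h1 : ((Nat.sqrt (24 * (x + L) + 1) : ℕ) : ℝ) ≤ 7 * Real.sqrt x := by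
      have h2 : ((Nat.sqrt (24 * (x + L) + 1) : ℕ) : ℝ) ^ 2 ≤ 49 * x := by
        have h3 : Nat.sqrt (24 * (x + L) + 1) ^ 2 ≤ 49 * x := by
          have := Nat.sqrt_le' (24 * (x + L) + 1)
          omega
        exact_mod_cast h3
      have h4 : Real.sqrt x ^ 2 = x := Real.sq_sqrt (by linarith)
      have h5 : ((Nat.sqrt (24 * (x + L) + 1) : ℕ) : ℝ) ^ 2 ≤ (7 * Real.sqrt x) ^ 2 := by
        rw [mul_pow, h4]
        linarith
      exact main_one.le_of_sq_le_sq h5 (by positivity)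
    linarith
  have hcR : (T.card : ℝ) ≤ ((E : ℝ) + L) * (8 * Real.sqrt x) := by
    calc (T.card : ℝ) ≤ ((E : ℝ) + L) * (((Nat.sqrt (24 * (x + L) + 1) : ℕ) : ℝ) + 1) := by
          exact_mod_cast hcard
      _ ≤ _ := mul_le_mul_of_nonneg_left hsq (by positivity)
  -- the size of the main term
  have hPP0 : 0 < PP ^ 2 := by positivity
  have hfact : Real.exp h ≤
      ((Real.log d - Real.log a) / 32 - h / 2 ^ a) ^ h / (h.factorial : ℝ) / (PP ^ 2) ^ h := by
    have h1 : (ll / 200) ^ h ≤ ((Real.log d - Real.log a) / 32 - h / 2 ^ a) ^ h :=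
      pow_le_pow_left₀ (by linarith) hmain h
    have h2 : (h.factorial : ℝ) ≤ (h : ℝ) ^ h := by exact_mod_cast Nat.factorial_le_pow h
    have h3 : (0 : ℝ) < h.factorial := by exact_mod_cast Nat.factorial_pos h
    have hh0' : (0 : ℝ) < h := by linarith
    rw [le_div_iff₀ (by positivity), le_div_iff₀ h3]
    calc Real.exp h * (PP ^ 2) ^ h * (h.factorial : ℝ)
        ≤ Real.exp h * (PP ^ 2) ^ h * (h : ℝ) ^ h :=
          mul_le_mul_of_nonneg_left h2 (by positivity)
      _ = (Real.exp 1 * PP ^ 2 * h) ^ h := by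
          rw [mul_pow, mul_pow, ← Real.exp_nat_mul, mul_one]
      _ ≤ (ll / 200) ^ h := by
          apply pow_le_pow_left₀ (by positivity)
          have h5 : Real.exp 1 ≤ 3 := Real.exp_one_lt_d9.le.trans (by norm_num)
          have h6 : (h : ℝ) * (1000 * PP ^ 2) ≤ ll := by
            rw [hC1'] at hhC
            nlinarith [sq_nonneg PP]
          have h7 : Real.exp 1 * PP ^ 2 * h ≤ 3 * PP ^ 2 * h := by
            apply mul_le_mul_of_nonneg_right _ hh0'.le
            exact mul_le_mul_of_nonneg_right h5 hPP0.le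
          nlinarith [mul_pos hPP0 hh0']
      _ ≤ _ := h1
  have hT4 : (x : ℝ) / (16 * K0 * lx) * Real.exp h ≤ (T.card : ℝ) := by
    refine le_trans (le_trans (mul_le_mul_of_nonneg_left hfact (by positivity)) (le_of_eq ?_)) hT2
    rw [hQ, ← hlx]
    have h1 : (0 : ℝ) < (PP ^ 2) ^ h := by positivity
    field_simp
  have hexph : Real.exp (ll / (2 * C1 L)) / Real.exp 2 ≤ Real.exp h := by
    rw [← Real.exp_sub]
    apply Real.exp_le_exp.2
    have : ll / (2 * C1 L) = ll / C1 L / 2 := by rw [div_div]; ring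
    rw [this]
    exact hhge
  have hsx : Real.sqrt x * Real.sqrt x = x := Real.mul_self_sqrt hx0.le
  set s := Real.sqrt (x : ℝ) with hs
  set δ : ℝ := 1 / (4 * C1 L) with hδ
  have hδll : Real.exp (ll / (2 * C1 L)) = Real.exp (δ * ll) * Real.exp (δ * ll) := by
    rw [← Real.exp_add]
    congr 1
    rw [hδ]
    field_simp
    norm_num
  have h2C : 2 * C3 ≤ Real.exp (δ * ll) := by
    have h1 : 2 * C3 ≤ δ * ll := by
      rw [hδ, div_mul_eq_mul_div, one_mul, le_div_iff₀ (by positivity)]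
      linarith
    have := Real.add_one_le_exp (δ * ll)
    linarith
  have hW : s * Real.exp ((δ - 1) * ll) = s * Real.exp (δ * ll) / lx := by
    have : (δ - 1) * ll = δ * ll - ll := by ring
    rw [this, Real.exp_sub, hexp]
    ring
  rw [hW]
  set W := s * Real.exp (δ * ll) / lx with hWdef
  have hW0 : 0 < W := by positivity
  have hLW : (L : ℝ) ≤ W := by
    refine hsL.trans ?_
    apply div_le_div_of_nonneg_right _ hlxpos.le
    apply le_mul_of_one_le_right hs0.le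
    apply Real.one_le_exp
    have : 0 ≤ δ := by rw [hδ]; positivity
    nlinarith
  have hfin : 2 * W ≤ (E : ℝ) + L := by
    have h1 : (x : ℝ) / (16 * K0 * lx) * (Real.exp (ll / (2 * C1 L)) / Real.exp 2) ≤
        ((E : ℝ) + L) * (8 * s) :=
      (mul_le_mul_of_nonneg_left hexph (by positivity)).trans (hT4.trans hcR)
    have h2 : (x : ℝ) / (16 * K0 * lx) * (Real.exp (ll / (2 * C1 L)) / Real.exp 2) =
        (s * Real.exp (δ * ll) / lx) * (Real.exp (δ * ll) / C3) * (8 * s) := by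
      rw [hδll, ← hsx, hC3]
      field_simp
    rw [h2] at h1
    have h3 := le_of_mul_le_mul_right h1 (by positivity)
    have h4 : 2 ≤ Real.exp (δ * ll) / C3 := by
      rw [le_div_iff₀ hC30]
      exact h2C
    calc 2 * W ≤ W * (Real.exp (δ * ll) / C3) := by
          rw [mul_comm]
          exact mul_le_mul_of_nonneg_left h4 hW0.le
      _ ≤ _ := h3
  linarith

end Pool.Agent.Q41.PT
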