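import Pool.Agent.Q41.PT.PFinal

set_option autoImplicit false

/-!
# Linear patterns of the partition function modulo 2: both values
-/

namespace Pool.Agent.Q41.PT

open PowerSeries Filter Topology Pool.Agent.H397R2.PP Pool.Agent.H307R2.OP

lemma twist_ne (L b : ℕ) (c : ℕ → ℕ → ZMod 2) (t : ℕ) (hi : ∃ i ≤ L, c t i ≠ 0) :
    ∃ i ≤ L + 2 ^ b, twist L b c t i ≠ 0 := by
  classical
  obtain ⟨i, ⟨h1, h2⟩, hmin⟩ : ∃ i, (i ≤ L ∧ c t i ≠ 0) ∧ ∀ j < i, ¬ (j ≤ L ∧ c t j ≠ 0) :=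
    ⟨Nat.find hi, Nat.find_spec hi, fun j hj => Nat.find_min hi hj⟩
  refine ⟨i, h1.trans (Nat.le_add_right _ _), ?_⟩
  unfold twist
  rw [if_pos h1]
  split_ifs with h3
  · have h4 : 0 < 2 ^ b := by positivity
    have h5 := hmin (i - 2 ^ b) (by omega)
    push Not at h5
    rw [h5 h3.2, add_zero]
    exact h2
  · rw [add_zero]
    exact h2

lemma card_twist (𝒯 : Finset ℕ) (L b : ℕ) (c : ℕ → ℕ → ZMod 2) (ρ x : ℕ) :
    (good 𝒯 (L + 2 ^ b) (twist L b c) b ρ 1 x).card ≤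
      2 * (good 𝒯 L c b ρ 0 x).card + 2 ^ b := by
  classical
  have hsub : good 𝒯 (L + 2 ^ b) (twist L b c) b ρ 1 x ⊆
      good 𝒯 L c b ρ 0 x ∪ ((good 𝒯 L c b ρ 0 x ∪ Finset.Ioc x (x + 2 ^ b)).filter
        (fun n => 2 ^ b ≤ n)).image (fun n => n - 2 ^ b) := by
    intro n hn
    unfold good at hn ⊢
    rw [Finset.mem_filter, Finset.mem_range, pat_twist] at hn
    obtain ⟨h1, h2, h3⟩ := hn
    rw [Finset.mem_union]
    rcases zmod_cases (pat 𝒯 L c n) with h4 | h4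
    · left
      rw [Finset.mem_filter, Finset.mem_range]
      exact ⟨h1, h2, h4⟩
    · right
      have h5 : pat 𝒯 L c (n + 2 ^ b) = 0 := by
        rw [h4] at h3
        rcases zmod_cases (pat 𝒯 L c (n + 2 ^ b)) with h6 | h6
        · exact h6
        · rw [h6] at h3
          exact absurd h3 (by decide)
      rw [Finset.mem_image]
      refine ⟨n + 2 ^ b, ?_, by simp⟩
      rw [Finset.mem_filter, Finset.mem_union, Finset.mem_filter, Finset.mem_range,
        Finset.mem_Ioc]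
      refine ⟨?_, by omega⟩
      rcases le_or_gt (n + 2 ^ b) x with h7 | h7
      · left
        refine ⟨by omega, ?_, h5⟩
        rw [Nat.add_mod_right]
        exact h2
      · right
        exact ⟨h7, by omega⟩
  refine (Finset.card_le_card hsub).trans ?_
  refine (Finset.card_union_le _ _).trans ?_
  have h1 := (Finset.card_image_le (s := (good 𝒯 L c b ρ 0 x ∪ Finset.Ioc x (x + 2 ^ b)).filter
    (fun n => 2 ^ b ≤ n)) (f := fun n => n - 2 ^ b))
  have h2 := Finset.card_filter_le (good 𝒯 L c b ρ 0 x ∪ Finset.Ioc x (x + 2 ^ b))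
    (fun n => 2 ^ b ≤ n)
  have h3 := Finset.card_union_le (good 𝒯 L c b ρ 0 x) (Finset.Ioc x (x + 2 ^ b))
  rw [Nat.card_Ioc, Nat.add_sub_cancel_left] at h3
  omega

/-- **patterns of the partition function, both values, with a power of the logarithm** -/
theorem pow_main (L b : ℕ) : ∃ δ : ℝ, 0 < δ ∧ δ ≤ 1 ∧ ∀ c : ℕ → ℕ → ZMod 2, (∃ i ≤ L, c 1 i ≠ 0) →
    ∀ (κ : ZMod 2) (ρ : ℕ), ∃ x0 : ℕ, ∀ x : ℕ, x0 ≤ x →
      Real.sqrt x * Real.exp ((δ - 1) * Real.log (Real.log x)) ≤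
        ((good {1} L c b ρ κ x).card : ℝ) := by
  obtain ⟨δ1, h10, h11, h1⟩ := pow_one' L b
  obtain ⟨δ2, h20, h21, h2⟩ := pow_one' (L + 2 ^ b) b
  refine ⟨min δ1 (δ2 / 2), lt_min h10 (by positivity), (min_le_left _ _).trans h11,
    fun c hc κ ρ => ?_⟩
  set δ := min δ1 (δ2 / 2) with hδ
  have hδ1 : δ ≤ δ1 := min_le_left _ _
  have hδ2 : δ ≤ δ2 / 2 := min_le_right _ _
  have hδ0 : 0 < δ := lt_min h10 (by positivity)
  rcases zmod_cases κ with rfl | rfl
  · obtain ⟨x1, hx1⟩ := h2 (twist L b c) (twist_ne L b c 1 hc) ρ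
    obtain ⟨x2, hx2⟩ := eventually_atTop.1 ((loglog_tend.eventually_ge_atTop (8 / δ2)).and
      ((log_tend.eventually_ge_atTop 1).and (hsl_tend.eventually_ge_atTop ((2 : ℝ) ^ b))))
    refine ⟨max x1 x2, fun x hx => ?_⟩
    have g1 := hx1 x ((le_max_left _ _).trans hx)
    obtain ⟨hl1, hl2, hl3⟩ := hx2 x ((le_max_right _ _).trans hx)
    set ll := Real.log (Real.log (x : ℝ)) with hll
    have hcR : ((good {1} (L + 2 ^ b) (twist L b c) b ρ 1 x).card : ℝ) ≤
        2 * (good {1} L c b ρ 0 x).card + 2 ^ b := by exact_mod_cast card_twist {1} L b c ρ x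
    have hs0 : 0 ≤ Real.sqrt (x : ℝ) := Real.sqrt_nonneg _
    have hll0 : 0 ≤ ll := le_trans (by positivity) hl1
    set W := Real.sqrt x * Real.exp ((δ - 1) * ll) with hW
    have hexp : Real.exp ll = Real.log x := Real.exp_log (by linarith)
    have hW1 : (2 : ℝ) ^ b ≤ W := by
      refine hl3.trans ?_
      rw [hW, ← hexp, div_eq_mul_inv, ← Real.exp_neg]
      apply mul_le_mul_of_nonneg_left _ hs0
      apply Real.exp_le_exp.2
      nlinarith
    have hW0 : 0 ≤ W := le_trans (by positivity) hW1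
    have h4 : 4 ≤ Real.exp ((δ2 - δ) * ll) := by
      have h5 : 4 ≤ (δ2 - δ) * ll := by
        rw [div_le_iff₀ h20] at hl1
        nlinarith
      have := Real.add_one_le_exp ((δ2 - δ) * ll)
      linarith
    have h5 : Real.sqrt x * Real.exp ((δ2 - 1) * ll) = W * Real.exp ((δ2 - δ) * ll) := by
      rw [hW, mul_assoc, ← Real.exp_add]
      congr 2
      ring
    rw [h5] at g1
    nlinarith
  · obtain ⟨x1, hx1⟩ := h1 c hc ρ
    obtain ⟨x2, hx2⟩ := eventually_atTop.1 (loglog_tend.eventually_ge_atTop 0)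
    refine ⟨max x1 x2, fun x hx => ?_⟩
    refine le_trans ?_ (hx1 x ((le_max_left _ _).trans hx))
    have h3 := hx2 x ((le_max_right _ _).trans hx)
    apply mul_le_mul_of_nonneg_left _ (Real.sqrt_nonneg _)
    apply Real.exp_le_exp.2
    nlinarith

end Pool.Agent.Q41.PT
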